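import Pool.Agent.MP_ee8c61_ag.H36.Spec

/-!
Constructible sets and Euler characteristics.
-/

namespace Pool.Agent.MP_ee8c61_ag.H36

open Finset MvPolynomial

variable {ι κ : Type} {X Y : Set (ι → ℂ)}

lemma Con.inter (h : Con X) (h' : Con Y) : Con (X ∩ Y) := by
  simpa using (h.compl.union h'.compl).compl

lemma Con.diff (h : Con X) (h' : Con Y) : Con (X \ Y) := h.inter h'.compl

lemma Con.univ : Con (Set.univ : Set (ι → ℂ)) := by simpa using Con.zero (0 : MvPolynomial ι ℂ)

lemma Con.empty : Con (∅ : Set (ι → ℂ)) := by simpa using (Con.univ (ι := ι)).compl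

lemma Con.ne (p : MvPolynomial ι ℂ) : Con {x | eval x p ≠ 0} := (Con.zero p).compl

lemma Con.coord (i : ι) : Con {x : ι → ℂ | x i = 0} := by simpa using Con.zero (MvPolynomial.X i)

lemma Con.of_iff (h : Con X) (e : ∀ x, x ∈ Y ↔ x ∈ X) : Con Y := (Set.ext e : Y = X) ▸ h

lemma Con.all {α : Type} [Finite α] {Z : α → Set (ι → ℂ)} (h : ∀ a, Con (Z a)) :
    Con {x | ∀ a, x ∈ Z a} := by
  have : ∀ A : Finset α, Con {x | ∀ a ∈ A, x ∈ Z a} := fun A => by
    classical
    induction A using Finset.induction_on with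
    | empty => exact Con.univ.of_iff (by simp)
    | insert a A _ ih => exact ((h a).inter ih).of_iff (by simp)
  have i := Fintype.ofFinite α
  exact (this Finset.univ).of_iff (by simp)

lemma Con.ex {α : Type} [Finite α] {Z : α → Set (ι → ℂ)} (h : ∀ a, Con (Z a)) :
    Con {x | ∃ a, x ∈ Z a} := (Con.all fun a => (h a).compl).compl.of_iff (by simp)

/-- The torus orbit with the given zero coordinates is constructible. -/
lemma Con.orb [Finite ι] (A : Set ι) : Con {y : ι → ℂ | ∀ k, y k = 0 ↔ k ∈ A} :=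
  Con.all (Z := fun k => {y : ι → ℂ | y k = 0 ↔ k ∈ A}) fun k => by
    by_cases hk : k ∈ A
    · exact (Con.coord k).of_iff (by simp [hk])
    · exact (Con.coord k).compl.of_iff (by simp [hk])

/-- Preimages under polynomial maps. -/
lemma Con.pre {Z : Set (κ → ℂ)} (h : Con Z) (φ : κ → MvPolynomial ι ℂ) :
    Con {x | (fun k => eval x (φ k)) ∈ Z} := by
  induction h with
  | zero p =>
    refine (Con.zero (bind₁ φ p)).of_iff fun x => ?_
    have : eval x (bind₁ φ p) = eval (fun k => eval x (φ k)) p := eval₂Hom_bind₁ _ _ _ _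
    simp [this]
  | compl _ ih => exact ih.compl
  | union _ _ ih ih' => exact ih.union ih'

lemma Con.comap {Z : Set (κ → ℂ)} (h : Con Z) (e : κ → ι) : Con {x | (fun k => x (e k)) ∈ Z} := by
  simpa using h.pre fun k => MvPolynomial.X (e k)

/-- `g` is a polynomial divided by a power of `q`, where `q` does not vanish. -/
def Rg (q : MvPolynomial ι ℂ) (g : (ι → ℂ) → ℂ) : Prop :=
  ∃ (p : MvPolynomial ι ℂ) (n : ℕ), ∀ x, eval x q ≠ 0 → g x * eval x q ^ n = eval x p

variable {q : MvPolynomial ι ℂ} {g g' : (ι → ℂ) → ℂ}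

lemma Rg.poly (p : MvPolynomial ι ℂ) : Rg q fun x => eval x p := ⟨p, 0, by simp⟩

lemma Rg.const (z : ℂ) : Rg q fun _ => z := ⟨C z, 0, by simp⟩

lemma Rg.add (h : Rg q g) (h' : Rg q g') : Rg q fun x => g x + g' x := by
  obtain ⟨p, n, h⟩ := h
  obtain ⟨p', n', h'⟩ := h'
  refine ⟨p * q ^ n' + p' * q ^ n, n + n', fun x hx => ?_⟩
  simp only [map_add, map_mul, map_pow, ← h x hx, ← h' x hx]
  ring

lemma Rg.mul (h : Rg q g) (h' : Rg q g') : Rg q fun x => g x * g' x := by
  obtain ⟨p, n, h⟩ := h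
  obtain ⟨p', n', h'⟩ := h'
  refine ⟨p * p', n + n', fun x hx => ?_⟩
  simp only [map_mul, ← h x hx, ← h' x hx]
  ring

lemma Rg.sum {α : Type} (A : Finset α) {G : α → (ι → ℂ) → ℂ} (h : ∀ a ∈ A, Rg q (G a)) :
    Rg q fun x => ∑ a ∈ A, G a x := by
  classical
  induction A using Finset.induction_on with
  | empty => simpa using Rg.const 0
  | insert a A ha ih =>
    simpa [sum_insert ha] using
      (h a (mem_insert_self _ _)).add (ih fun y hy => h y (mem_insert_of_mem hy))

lemma Rg.prod {α : Type} (A : Finset α) {G : α → (ι → ℂ) → ℂ} (h : ∀ a ∈ A, Rg q (G a)) :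
    Rg q fun x => ∏ a ∈ A, G a x := by
  classical
  induction A using Finset.induction_on with
  | empty => simpa using Rg.const 1
  | insert a A ha ih =>
    simpa [prod_insert ha] using
      (h a (mem_insert_self _ _)).mul (ih fun y hy => h y (mem_insert_of_mem hy))

/-- Integer powers of a coordinate; negative exponents need the coordinate to divide `q`. -/
lemma Rg.zpow (i : ι) (z : ℤ) (h : z < 0 → MvPolynomial.X i ∣ q) : Rg q fun x => x i ^ z := by
  rcases le_or_gt 0 z with hz | hz
  · obtain ⟨n, rfl⟩ := Int.eq_ofNat_of_zero_le hz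
    simpa using Rg.poly (q := q) (MvPolynomial.X i ^ n)
  · obtain ⟨p, rfl⟩ := h hz
    obtain ⟨n, rfl⟩ := Int.exists_eq_neg_ofNat hz.le
    refine ⟨p ^ n, n, fun x hx => ?_⟩
    have : x i ≠ 0 := fun e => hx (by simp [e])
    simp only [map_mul, eval_X, map_pow, zpow_neg, zpow_natCast, mul_pow]
    field_simp

lemma Rg.con (h : Rg q g) (hX : Con X) (hq : ∀ x ∈ X, eval x q ≠ 0) (ε : ℂ) :
    Con {x | x ∈ X ∧ g x = ε} := by
  obtain ⟨p, n, h⟩ := h
  refine (hX.inter (Con.zero (p - C ε * q ^ n))).of_iff fun x => and_congr_right fun hx => ?_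
  simp only [Set.mem_ofPred_eq, map_sub, map_mul, eval_C, map_pow, ← h x (hq x hx), sub_eq_zero,
    mul_left_inj' (pow_ne_zero n (hq x hx))]

/-- The level sets are constructible. -/
lemma Con.xs {m : Type} [Fintype m] (c : κ → ℂ) (b : κ → m → ℤ) (T : Finset κ) (A : Set m)
    (h : ∀ j ∈ T, ∀ k ∈ A, 0 ≤ b j k) (ε : ℂ) : Con (XS c b T A ε) := by
  classical
  refine (Rg.sum (q := ∏ k with k ∉ A, MvPolynomial.X k) T fun j hj => (Rg.const (c j)).mul
    (Rg.prod Finset.univ fun k _ => Rg.zpow k (b j k) fun h' => dvd_prod_of_mem _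
      (mem_filter.2 ⟨mem_univ _, fun hk => (h j hj k hk).not_gt h'⟩))).con (Con.orb A)
    (fun x hx => ?_) ε
  rw [map_prod]
  exact prod_ne_zero_iff.2 fun k hk => by
    rw [eval_X]
    exact fun e => (mem_filter.1 hk).2 ((hx k).1 e)

variable {χ : Chi} (H : IsEuler χ) [Finite ι]
include H

lemma IsEuler.empty : χ ι ∅ = 0 := by
  simpa using H.add ι ∅ ∅ Con.empty Con.empty (by simp)

lemma IsEuler.split (h : Con X) (h' : Con Y) : χ ι X = χ ι (X ∩ Y) + χ ι (X \ Y) := by
  rw [← H.add ι _ _ (h.inter h') (h.diff h') (Set.disjoint_sdiff_right.mono_left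
    Set.inter_subset_right), Set.inter_union_sdiff]

/-- Additivity along a map with finitely many values. -/
lemma IsEuler.fiber {α : Type} (t : (ι → ℂ) → α) (A : Finset α)
    (h : ∀ a ∈ A, Con (X ∩ {x | t x = a})) :
    χ ι (X ∩ {x | t x ∈ A}) = ∑ a ∈ A, χ ι (X ∩ {x | t x = a}) := by
  classical
  have : Con (X ∩ {x | t x ∈ A}) ∧ χ ι (X ∩ {x | t x ∈ A}) = ∑ a ∈ A, χ ι (X ∩ {x | t x = a}) := by
    induction A using Finset.induction_on with
    | empty => simpa using ⟨Con.empty, H.empty⟩
    | insert a A ha ih =>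
      have h1 := ih fun y hy => h y (mem_insert_of_mem hy)
      have h2 := h a (mem_insert_self _ _)
      have e : X ∩ {x | t x ∈ insert a A} = X ∩ {x | t x = a} ∪ X ∩ {x | t x ∈ A} := by
        ext x
        simp [and_or_left]
      rw [e, sum_insert ha, ← h1.2]
      exact ⟨h2.union h1.1, H.add ι _ _ h2 h1.1
        (Set.disjoint_left.2 fun x hx hx' => ha (hx.2 ▸ hx'.2))⟩
  exact this.2

/-- Invariance under polynomial bijections. -/
lemma IsEuler.bijOn [Finite κ] {Z : Set (κ → ℂ)} (h : Con X) (φ : κ → MvPolynomial ι ℂ)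
    (hφ : Set.BijOn (fun x k => eval x (φ k)) X Z) : χ κ Z = χ ι X := by
  rw [← hφ.image_eq, H.bij ι κ φ X h hφ.injOn]

/-- Invariance under bijections given by regular functions. -/
lemma IsEuler.bijRg [Finite κ] {Z : Set (κ → ℂ)} (h : Con X) (hq : ∀ x ∈ X, eval x q ≠ 0)
    (φ : (ι → ℂ) → κ → ℂ) (hr : ∀ k, Rg q fun x => φ x k) (hφ : Set.BijOn φ X Z) :
    χ κ Z = χ ι X := by
  choose p n hp using hr
  have hG : Con {y : Option ι → ℂ | (fun i => y (some i)) ∈ X ∧
      y none * eval (fun i => y (some i)) q = 1} :=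
    ((h.comap some).inter (Con.zero (MvPolynomial.X none * rename some q - 1))).of_iff fun y => by
      simp [sub_eq_zero, eval_rename, Function.comp_def]
  have e : ∀ y : Option ι → ℂ, (fun i => y (some i)) ∈ X →
      y none * eval (fun i => y (some i)) q = 1 →
      (fun k => eval y (rename some (p k) * MvPolynomial.X none ^ n k)) = φ fun i => y (some i) :=
    fun y h1 h2 => funext fun k => by
      rw [map_mul, eval_rename, Function.comp_def, ← hp k _ (hq _ h1), map_pow, eval_X, mul_assoc,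
        ← mul_pow, mul_comm _ (y none), h2, one_pow, mul_one]
  have b1 : Set.BijOn (fun (y : Option ι → ℂ) i => y (some i)) {y | (fun i => y (some i)) ∈ X ∧
      y none * eval (fun i => y (some i)) q = 1} X := by
    refine ⟨fun y hy => hy.1, fun y hy y' hy' h => ?_, fun x hx =>
      ⟨fun o => o.elim (eval x q)⁻¹ x, ⟨hx, inv_mul_cancel₀ (hq x hx)⟩, rfl⟩⟩
    ext (_ | i)
    · have h3 := hy'.2
      rw [← show (fun i => y (some i)) = fun i => y' (some i) from h] at h3
      exact mul_right_cancel₀ (hq _ hy.1) (hy.2.trans h3.symm)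
    · exact congrFun h i
  rw [H.bijOn hG (fun i => MvPolynomial.X (some i)) (by simpa using b1)]
  exact H.bijOn hG _ ((hφ.comp b1).congr fun y hy => (e y hy.1 hy.2).symm)

/-- The product with a punctured line. -/
lemma IsEuler.torus (h : Con X) :
    χ (Option ι) {y | (fun i => y (some i)) ∈ X ∧ y none ≠ 0} = 0 := by
  have h1 := H.split (h.comap some) (Con.coord none)
  have h2 : χ (Option ι) ({y | (fun i => y (some i)) ∈ X} ∩ {y | y none = 0}) = χ ι X :=
    H.bijOn h (fun o => o.elim 0 MvPolynomial.X) ⟨fun x hx => ⟨by simpa using hx, by simp⟩,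
      fun x _ x' _ e => funext fun i => by simpa using congrFun e (some i),
      fun y hy => ⟨_, hy.1, funext fun o => by cases o <;> simp [show y none = 0 from hy.2]⟩⟩
  rw [H.line ι X h, h2, left_eq_add] at h1
  exact h1

/-- A set that is stable under changing a nonzero coordinate. -/
lemma IsEuler.torus' [DecidableEq ι] (h : Con X) (i : ι) (h0 : ∀ x ∈ X, x i ≠ 0)
    (h1 : ∀ x ∈ X, ∀ z ≠ 0, Function.update x i z ∈ X) : χ ι X = 0 := by
  have h2 : Con {x | x ∈ X ∧ x i = 1} := (Rg.poly (q := 1) (MvPolynomial.X i)).con h (by simp) 1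
    |>.of_iff (by simp)
  rw [← H.torus h2]
  refine H.bijOn ((h2.comap some).inter (Con.coord none).compl)
    (fun k => if k = i then MvPolynomial.X none else MvPolynomial.X (some k)) ?_
  have e : ∀ y : Option ι → ℂ, (fun k => eval y
      (if k = i then MvPolynomial.X none else MvPolynomial.X (some k) : MvPolynomial _ ℂ)) =
      Function.update (fun k => y (some k)) i (y none) := fun y => funext fun k => by
    by_cases hk : k = i <;> simp [hk]
  rw [funext e]
  refine ⟨fun y hy => h1 _ hy.1.1 _ hy.2, fun y hy y' hy' h => ?_, fun x hx =>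
    ⟨fun o => o.elim (x i) (Function.update x i 1), ⟨⟨h1 x hx 1 one_ne_zero, by simp⟩, h0 x hx⟩,
      by simp⟩⟩
  ext (_ | k)
  · simpa using congrFun h i
  · by_cases hk : k = i
    · rw [hk]
      exact hy.1.2.trans hy'.1.2.symm
    · simpa [hk] using congrFun h k

end Pool.Agent.MP_ee8c61_ag.H36
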