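import Pool.Agent.MP_ee8c61_ag.H36.BasicS

/-!
The weighted sum can be computed with any subspace.
-/

namespace Pool.Agent.MP_ee8c61_ag.H36

open Finset Filter Topology

theorem approx (h : BddStmt) : ApproxStmt := fun ι κ _ _ a Ω hV Y T L hL hY => by
  have e : ∀ s r, FF a Ω Y s r = Ω (Lam (LT a T)) T * NS (LT a T) Y s r := fun s r => by
    rw [FF, sum_eq_single_of_mem T (mem_univ T) fun T' _ hT => ?_,
      show Y ∩ {u | Tu a u = T} = Y from
        Set.inter_eq_self_of_subset_left fun u hu => (hY u hu).1]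
    rw [show Y ∩ {u | Tu a u = T'} = ∅ from Set.eq_empty_of_forall_notMem fun u hu =>
      hT (hu.2.symm.trans (hY u hu.1).1), NS, SS_empty, mul_zero, mul_zero]
  rcases hL.eq_or_lt with rfl | hL
  · simpa [e] using Lim0.zero
  · obtain ⟨k, hk⟩ := Nat.exists_eq_add_of_lt (Submodule.finrank_lt_finrank_of_lt hL)
    refine ((h ι L Y (fun u hu => (hY u hu).2) (fun _ r => (1 - r) ^ (k + 1))
      fun _ _ => tend_one_sub k.succ_ne_zero).const_mul (Ω (Lam (LT a T)) T)).congr
      fun s r _ _ _ => ?_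
    rw [e, hV L T hL, NS, NS, hk]
    push_cast
    ring

end Pool.Agent.MP_ee8c61_ag.H36
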