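import Pool.Agent.MP_ee8c61_ag.H36.BS1

/-!
The functional equation of an ideal gives that of the Cayley polynomial.
-/

namespace Pool.Agent.MP_ee8c61_ag.H36

open Finset MvPolynomial Pool.Agent.MP_5d9b3c_ag.H22 Pool.Agent.MP_5d9b3c_ag.H48N

namespace BSAux

/-- Divided powers of a variable, zero for negative exponents. -/
noncomputable def dv {ν : Type} (v : ν) (k : ℤ) : MvPolynomial ν ℂ :=
  if 0 ≤ k then C ((k.toNat.factorial : ℂ)⁻¹) * X v ^ k.toNat else 0

lemma dv_nat {ν : Type} (v : ν) (k : ℕ) : dv v k = C ((k.factorial : ℂ)⁻¹) * X v ^ k := by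
  simp [dv]

lemma dv_neg {ν : Type} (v : ν) {k : ℤ} (hk : k < 0) : dv v k = 0 := if_neg hk.not_ge

lemma X_dv {ν : Type} (v : ν) (k : ℤ) : X v * dv v k = C ((k : ℂ) + 1) * dv v (k + 1) := by
  rcases lt_trichotomy k (-1) with h | rfl | h
  · rw [dv_neg v (by omega), dv_neg v (by omega), mul_zero, mul_zero]
  · simp [dv_neg]
  · obtain ⟨n, rfl⟩ := Int.eq_ofNat_of_zero_le (show 0 ≤ k by omega)
    have h1 : ((n : ℂ) + 1) * (((n + 1).factorial : ℕ) : ℂ)⁻¹ = (n.factorial : ℂ)⁻¹ := by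
      have := Nat.cast_add_one_ne_zero (R := ℂ) n
      rw [Nat.factorial_succ]
      push_cast
      field_simp
    rw [← Nat.cast_succ, dv_nat, dv_nat, Int.cast_natCast, ← mul_assoc (C _), ← map_mul, h1,
      mul_left_comm, ← pow_succ']

lemma D_dv {ν : Type} (v : ν) (k : ℤ) : pderiv v (dv v k) = dv v (k - 1) := by
  rcases lt_trichotomy k 0 with h | rfl | h
  · rw [dv_neg v h, dv_neg v (by omega), map_zero]
  · simp [dv]
  · obtain ⟨n, hn⟩ := Int.eq_ofNat_of_zero_le (show 0 ≤ k - 1 by omega)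
    have h1 : (((n + 1).factorial : ℕ) : ℂ)⁻¹ * ((n + 1 : ℕ) : ℂ) = (n.factorial : ℂ)⁻¹ := by
      have := Nat.cast_add_one_ne_zero (R := ℂ) n
      rw [Nat.factorial_succ]
      push_cast
      field_simp
    rw [hn, show k = ((n + 1 : ℕ) : ℤ) by omega, dv_nat, dv_nat, pderiv_C_mul, pderiv_pow,
      pderiv_X_self, ← h1, map_mul, map_natCast]
    simp [mul_assoc]

lemma D_dv_ne {ν : Type} {v w : ν} (h : v ≠ w) (k : ℤ) : pderiv w (dv v k) = 0 := by
  unfold dv
  split_ifs
  · rw [pderiv_C_mul, pderiv_pow, pderiv_X_of_ne h, mul_zero, mul_zero]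
  · simp

lemma D_prod {ν α : Type} (w : ν) (A : Finset α) (p : α → MvPolynomial ν ℂ)
    (h : ∀ a ∈ A, pderiv w (p a) = 0) : pderiv w (∏ a ∈ A, p a) = 0 :=
  prod_induction p (fun q => pderiv w q = 0) (fun a b ha hb => by simp [ha, hb])
    (by simp) h

variable {r n : ℕ}

/-- The divided power monomial in the new variables. -/
noncomputable def Z (n : ℕ) (z : Fin r → ℤ) : MvPolynomial (Fin (r + n)) ℂ :=
  ∏ j, dv (Fin.castAdd n j) (z j)

lemma ne_var (j : Fin r) (i : Fin n) : Fin.castAdd n j ≠ Fin.natAdd r i := fun h => by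
  have := congrArg Fin.val h
  have := j.2
  simp at *
  omega

lemma Z_neg {z : Fin r → ℤ} {j : Fin r} (h : z j < 0) : Z n z = 0 :=
  prod_eq_zero (mem_univ j) (dv_neg _ h)

lemma Z_split (z : Fin r → ℤ) (j : Fin r) (k : ℤ) : Z n (z + Pi.single j k) =
    dv (Fin.castAdd n j) (z j + k) * ∏ l ∈ univ.erase j, dv (Fin.castAdd n l) (z l) := by
  rw [Z, ← mul_prod_erase _ _ (mem_univ j)]
  congr 1
  · simp
  · exact prod_congr rfl fun l hl => by simp [ne_of_mem_erase hl]

lemma X_Z (z : Fin r → ℤ) (j : Fin r) :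
    X (Fin.castAdd n j) * Z n z = C ((z j : ℂ) + 1) * Z n (z + Pi.single j 1) := by
  have := Z_split (n := n) z j 0
  rw [Pi.single_zero, add_zero, add_zero] at this
  rw [this, Z_split, ← mul_assoc, X_dv, mul_assoc]

lemma D_ren (j : Fin r) (F : MvPolynomial (Fin n) ℂ) :
    pderiv (Fin.castAdd n j) (rename (Fin.natAdd r) F) = 0 := by
  induction F using MvPolynomial.induction_on with
  | C z => simp
  | add p q hp hq => simp [hp, hq]
  | mul_X p i hp => simp [hp, pderiv_X_of_ne (ne_var j i).symm]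

lemma D_Z (z : Fin r → ℤ) (j : Fin r) (F : MvPolynomial (Fin n) ℂ) :
    pderiv (Fin.castAdd n j) (Z n z * rename (Fin.natAdd r) F) =
      Z n (z + Pi.single j (-1)) * rename (Fin.natAdd r) F := by
  have := Z_split (n := n) z j 0
  rw [Pi.single_zero, add_zero, add_zero] at this
  rw [this, Z_split, pderiv_mul, D_ren, pderiv_mul, D_dv, D_prod _ _ _ fun l hl =>
    D_dv_ne (fun e => ne_of_mem_erase hl (Fin.castAdd_injective _ _ e)) _, sub_eq_add_neg]
  ring

/-- The operators lift, with `s` replaced by the Euler operators. -/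
lemma lift (P : H10.DiffOp (Fin n) (Fin r)) : ∃ Q ∈ WW (Fin (r + n)), ∀ (z : Fin r → ℤ) F,
    Q (Z n z * rename (Fin.natAdd r) F) =
      Z n z * rename (Fin.natAdd r) (H10.act P (fun j => (z j).toNat) F) := by
  refine ind (fun A => ∃ Q ∈ WW (Fin (r + n)), ∀ (z : Fin r → ℤ) F,
    Q (Z n z * rename (Fin.natAdd r) F) =
      Z n z * rename (Fin.natAdd r) (A (fun j => (z j).toNat) F))
    (fun w => ⟨_, algebraMap_mem _ w, fun z F => ?_⟩) ?_ ?_
    (fun i => ⟨_, X_mem (Fin.natAdd r i), fun z F => ?_⟩)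
    (fun i => ⟨_, D_mem (Fin.natAdd r i), fun z F => ?_⟩)
    (fun j => ⟨_, mul_mem (X_mem (Fin.castAdd n j)) (D_mem (Fin.castAdd n j)), fun z F => ?_⟩) P
  · simp [smul_eq_C_mul, mul_left_comm]
  · rintro A B ⟨Q, hQ, h⟩ ⟨Q', hQ', h'⟩
    exact ⟨Q + Q', add_mem hQ hQ', fun z F => by
      rw [LinearMap.add_apply, h, h', map_add, mul_add]⟩
  · rintro A B ⟨Q, hQ, h⟩ ⟨Q', hQ', h'⟩
    exact ⟨Q * Q', mul_mem hQ hQ', fun z F => by rw [Module.End.mul_apply, h', h]⟩
  · simp [mul_left_comm]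
  · have : pderiv (Fin.natAdd r i) (Z n z) = 0 := D_prod _ _ _ fun l _ => D_dv_ne (ne_var l i) _
    simp [this, pderiv_rename (Fin.natAdd_injective _ _)]
  · rw [Module.End.mul_apply, Derivation.coeFn_coe, D_Z, LinearMap.mulLeft_apply, ← mul_assoc, X_Z,
      add_assoc, ← Pi.single_add, neg_add_cancel, Pi.single_zero, add_zero]
    rcases lt_or_ge (z j) 0 with h | h
    · simp [Z_neg h]
    · obtain ⟨k, hk⟩ := Int.eq_ofNat_of_zero_le h
      simp [hk, mul_left_comm, mul_assoc]

/-- The shift in one variable. -/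
lemma shift1 (j : Fin r) (k : ℤ) : ∃ M ∈ WW (Fin (r + n)), ∀ (z : Fin r → ℤ) F,
    M (Z n z * rename (Fin.natAdd r) F) = (((z j - k).toNat.choose (-k).toNat : ℕ) : ℂ) •
      (Z n (z + Pi.single j (-k)) * rename (Fin.natAdd r) F) := by
  rcases le_total 0 k with h | h
  · obtain ⟨k, rfl⟩ := Int.eq_ofNat_of_zero_le h
    induction k with
    | zero => exact ⟨1, one_mem _, by simp⟩
    | succ k ih =>
      obtain ⟨M, hM, h1⟩ := ih (by omega)
      refine ⟨_, mul_mem (D_mem (Fin.castAdd n j)) hM, fun z F => ?_⟩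
      rw [Module.End.mul_apply, h1, show (-(k : ℤ)).toNat = 0 by omega,
        show (-((k + 1 : ℕ) : ℤ)).toNat = 0 by omega, Nat.choose_zero_right, Nat.choose_zero_right,
        Nat.cast_one, one_smul, one_smul, Derivation.coeFn_coe, D_Z, add_assoc, ← Pi.single_add]
      congr 4
      omega
  · obtain ⟨k, rfl⟩ := Int.exists_eq_neg_ofNat h
    simp only [neg_neg, Int.toNat_natCast, sub_neg_eq_add]
    clear h
    induction k with
    | zero => exact ⟨1, one_mem _, by simp⟩
    | succ k ih =>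
      obtain ⟨M, hM, h1⟩ := ih
      refine ⟨_, Subalgebra.smul_mem _ (mul_mem (X_mem (Fin.castAdd n j)) hM) ((k : ℂ) + 1)⁻¹,
        fun z F => ?_⟩
      rw [LinearMap.smul_apply, Module.End.mul_apply, h1, map_smul, LinearMap.mulLeft_apply,
        ← mul_assoc, X_Z, add_assoc z, ← Pi.single_add, mul_assoc, ← smul_eq_C_mul, smul_smul,
        smul_smul, Nat.cast_succ (R := ℤ)]
      rcases lt_or_ge (z j + (k + 1)) 0 with h | h
      · rw [Z_neg (j := j) (by simpa using h)]
        simp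
      · congr 1
        have h2 := Nat.cast_add_one_ne_zero (R := ℂ) k
        obtain ⟨N, hN⟩ := Int.eq_ofNat_of_zero_le h
        have h3 : (((z + Pi.single j (k : ℤ) : Fin r → ℤ) j : ℤ) : ℂ) + 1 = N := by
          rw [← Int.cast_natCast N, ← hN]
          simp [add_assoc]
        rw [h3, hN, Int.toNat_natCast]
        rcases N with _ | N
        · simp
        · rw [show (z j + k).toNat = N by omega, mul_assoc, ← Nat.cast_mul, mul_comm (N.choose k),
            Nat.add_one_mul_choose_eq]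
          push_cast
          field_simp

/-- The shift in all variables. -/
lemma shift (c : Fin r → ℤ) : ∃ M ∈ WW (Fin (r + n)), ∀ (z : Fin r → ℤ) F,
    M (Z n z * rename (Fin.natAdd r) F) = Z n (z - c) * rename (Fin.natAdd r)
      (C (∏ j, ((z j - c j).toNat.choose (-c j).toNat : ℂ)) * F) := by
  have : ∀ A : Finset (Fin r), ∃ M ∈ WW (Fin (r + n)), ∀ (z : Fin r → ℤ) F,
      M (Z n z * rename (Fin.natAdd r) F) =
        (∏ j ∈ A, ((z j - c j).toNat.choose (-c j).toNat : ℂ)) •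
        (Z n (z + ∑ j ∈ A, Pi.single j (-c j)) * rename (Fin.natAdd r) F) := by
    intro A
    induction A using Finset.induction_on with
    | empty => exact ⟨1, one_mem _, by simp⟩
    | insert j A hj ih =>
      obtain ⟨M, hM, h1⟩ := ih
      obtain ⟨M', hM', h2⟩ := shift1 (n := n) j (c j)
      refine ⟨_, mul_mem hM' hM, fun z F => ?_⟩
      have h3 : (z + ∑ l ∈ A, Pi.single l (-c l) : Fin r → ℤ) j = z j := by
        simp [Finset.sum_apply, Pi.single_apply, hj]
      rw [Module.End.mul_apply, h1, map_smul, h2, h3, smul_smul, prod_insert hj, sum_insert hj,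
        mul_comm (∏ _ ∈ A, _), add_assoc, add_comm (∑ _ ∈ A, _)]
  obtain ⟨M, hM, h⟩ := this univ
  refine ⟨M, hM, fun z F => ?_⟩
  rw [h, Finset.univ_sum_single (fun j => -c j), smul_eq_C_mul, map_mul, rename_C, mul_left_comm]
  rfl

lemma cayley_pow (f : Fin r → MvPolynomial (Fin n) ℂ) (m : ℕ) : cayley f ^ m =
    (m.factorial : ℂ) • ∑ s ∈ piAntidiag univ m,
      Z n (fun j => s j) * rename (Fin.natAdd r) (∏ j, f j ^ s j) := by
  rw [cayley, sum_pow_eq_sum_piAntidiag, smul_sum]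
  refine sum_congr rfl fun s hs => ?_
  have h1 := Nat.multinomial_spec univ s
  rw [(mem_piAntidiag.1 hs).1] at h1
  have h2 : (m.factorial : ℂ) * ∏ j, ((s j).factorial : ℂ)⁻¹ = Nat.multinomial univ s := by
    rw [← h1, prod_inv_distrib, Nat.cast_mul, Nat.cast_prod, mul_right_comm, mul_inv_cancel₀
      (prod_ne_zero_iff.2 fun j _ => Nat.cast_ne_zero.2 (Nat.factorial_ne_zero _)), one_mul]
  simp only [Z, dv_nat, prod_mul_distrib, mul_pow, map_prod, map_pow]
  rw [← map_prod C, smul_eq_C_mul, ← mul_assoc, ← mul_assoc, ← mul_assoc, ← map_mul, h2,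
    map_natCast]

lemma act_zero {σ κ : Type} (P : H10.DiffOp σ κ) (s : κ → ℕ) : H10.act P s 0 = 0 := by
  refine sum_eq_zero fun l hl => mul_eq_zero_of_right _ ?_
  clear hl
  induction l with
  | nil => rfl
  | cons i l ih => rw [List.foldr_cons, ih, map_zero]

/-- Reindexing by the shift. -/
lemma reindex {M : Type} [AddCommMonoid M] (c : Fin r → ℤ) (hc : ∑ j, c j = 1) (m : ℕ)
    (T : (Fin r → ℤ) → M) (h1 : ∀ z j, z j < 0 → T z = 0) (h2 : ∀ z j, z j + c j < 0 → T z = 0) :
    ∑ s ∈ piAntidiag univ (m + 1), T ((fun j => (s j : ℤ)) - c) =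
      ∑ s ∈ piAntidiag univ m, T fun j => s j := by
  have e : ∀ (d : Fin r → ℤ) (k : ℕ), ∑ s ∈ piAntidiag univ k, T ((fun j => (s j : ℤ)) - d) =
      ∑ z ∈ (piAntidiag univ k).image (fun s : Fin r → ℕ => (fun j => (s j : ℤ)) - d), T z :=
    fun d k => by
      refine (sum_image fun s _ s' _ h => _root_.funext fun j => ?_).symm
      simpa using congrFun h j
  have e0 := e 0 m
  simp only [sub_zero] at e0
  rw [e, e0]
  refine sum_congr_of_eq_on_inter (fun z hz hz' => ?_) (fun z hz hz' => ?_) fun _ _ _ => rfl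
  · by_contra h
    have h3 : ∀ j, 0 ≤ z j := fun j => not_lt.1 fun h4 => h (h1 z j h4)
    obtain ⟨s, hs, rfl⟩ := mem_image.1 hz
    refine hz' (mem_image.2 ⟨fun j => ((s j : ℤ) - c j).toNat, mem_piAntidiag.2 ⟨?_, by simp⟩,
      funext fun j => Int.toNat_of_nonneg (h3 j)⟩)
    have h4 := (mem_piAntidiag.1 hs).1
    zify at h4 ⊢
    rw [sum_congr rfl fun j _ => Int.toNat_of_nonneg (show 0 ≤ (s j : ℤ) - c j from h3 j),
      sum_sub_distrib, h4, hc, add_sub_cancel_right]
  · by_contra h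
    have h3 : ∀ j, 0 ≤ z j + c j := fun j => not_lt.1 fun h4 => h (h2 z j h4)
    obtain ⟨s, hs, rfl⟩ := mem_image.1 hz
    refine hz' (mem_image.2 ⟨fun j => ((s j : ℤ) + c j).toNat, mem_piAntidiag.2 ⟨?_, by simp⟩,
      funext fun j => ?_⟩)
    · have h4 := (mem_piAntidiag.1 hs).1
      zify at h4 ⊢
      rw [sum_congr rfl fun j _ => Int.toNat_of_nonneg (h3 j), sum_add_distrib, h4, hc]
    · have := h3 j
      simp only [Pi.sub_apply] at this ⊢
      omega

end BSAux

open BSAux in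
theorem bs : BSStmt := by
  rintro r n f b ⟨S, P, hS, h⟩
  choose Q hQ hQ' using fun c => lift (P c)
  choose M hM hM' using fun c => shift (r := r) (n := n) c
  refine ⟨1, fun _ => ∑ c ∈ S, Q c * M c, fun _ => sum_mem fun c _ => mul_mem (hQ c) (hM c),
    fun m => ?_⟩
  have h1 : ∀ c ∈ S, ∑ s ∈ piAntidiag univ (m + 1),
      Q c (M c (Z n (fun j => s j) * rename (Fin.natAdd r) (∏ j, f j ^ s j))) =
      ∑ s ∈ piAntidiag univ m, Z n (fun j => s j) * rename (Fin.natAdd r) (H10.act (P c) s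
        (C (∏ j, ((s j).choose (-c j).toNat : ℂ)) * ∏ j, f j ^ ((s j : ℤ) + c j).toNat)) := by
    intro c hc
    have := reindex c (hS c hc) m (fun z => Z n z * rename (Fin.natAdd r)
      (H10.act (P c) (fun j => (z j).toNat) (C (∏ j, ((z j).toNat.choose (-c j).toNat : ℂ)) *
        ∏ j, f j ^ (z j + c j).toNat))) (fun z j hj => by rw [Z_neg hj, zero_mul])
      fun z j hj => by
        rcases lt_or_ge (z j) 0 with h2 | h2
        · rw [Z_neg h2, zero_mul]
        · rw [prod_eq_zero (mem_univ j) (by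
            rw [Nat.choose_eq_zero_of_lt (by omega), Nat.cast_zero]), map_zero, zero_mul, act_zero,
            map_zero, mul_zero]
    simp only [Int.toNat_natCast] at this
    rw [← this]
    refine sum_congr rfl fun s _ => ?_
    rw [hM', hQ']
    simp
  rw [sum_ex, sum_range_one, pow_zero, one_smul, cayley_pow, cayley_pow, map_smul,
    LinearMap.sum_apply]
  simp only [Module.End.mul_apply, map_sum]
  rw [sum_congr rfl h1, sum_comm, smul_smul, smul_sum, smul_sum]
  refine sum_congr rfl fun s hs => ?_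
  have h2 := (mem_piAntidiag.1 hs).1
  rw [← mul_sum, ← map_sum, ← h s, ← Nat.cast_sum, h2, map_mul, rename_C, mul_left_comm,
    ← smul_eq_C_mul, smul_smul, Nat.factorial_succ]
  congr 1
  simp
  ring

end Pool.Agent.MP_ee8c61_ag.H36
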