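import Pool.Agent.MP_ee8c61_ag.H36.Main

/-!
The functional equation of a principal ideal.
-/

namespace Pool.Agent.MP_ee8c61_ag.H36

open Finset MvPolynomial Pool.Agent.MP_5d9b3c_ag.H22 Pool.Agent.MP_5d9b3c_ag.H48N

namespace BSAux

/-- Induction over the operators. -/
lemma ind {σ κ : Type} (L : ((κ → ℕ) → MvPolynomial σ ℂ → MvPolynomial σ ℂ) → Prop)
    (hC : ∀ z, L fun _ F => C z * F)
    (hadd : ∀ A B, L A → L B → L fun s F => A s F + B s F)
    (hcomp : ∀ A B, L A → L B → L fun s F => A s (B s F))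
    (hX : ∀ i, L fun _ F => X i * F) (hD : ∀ i, L fun _ F => pderiv i F)
    (hs : ∀ j, L fun s F => C (s j : ℂ) * F) (P : H10.DiffOp σ κ) : L (H10.act P) := by
  have h1 : ∀ q : MvPolynomial κ ℂ, L fun s F => C (eval (fun j => (s j : ℂ)) q) * F := by
    intro q
    induction q using MvPolynomial.induction_on with
    | C z => simpa using hC z
    | add p q hp hq => simpa [add_mul] using hadd _ _ hp hq
    | mul_X p j hp => simpa [mul_assoc] using hcomp _ _ hp (hs j)
  have h2 : ∀ p : MvPolynomial σ (MvPolynomial κ ℂ),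
      L fun s F => map (eval fun j => (s j : ℂ)) p * F := by
    intro p
    induction p using MvPolynomial.induction_on with
    | C z => simpa using h1 z
    | add p q hp hq => simpa [add_mul] using hadd _ _ hp hq
    | mul_X p j hp => simpa [mul_assoc] using hcomp _ _ hp (hX j)
  have h3 : ∀ l : List σ, L fun _ F => l.foldr (fun i h => pderiv i h) F := by
    intro l
    induction l with
    | nil => simpa using hC 1
    | cons i l ih => simpa using hcomp _ _ (hD i) ih
  have h4 : ∀ A : Finset (List σ), L fun s F => ∑ l ∈ A,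
      map (eval fun j => (s j : ℂ)) (P l) * l.foldr (fun i h => pderiv i h) F := by
    classical
    intro A
    induction A using Finset.induction_on with
    | empty => simpa using hC 0
    | insert l A hl ih => simpa [sum_insert hl] using hadd _ _ (hcomp _ _ (h2 (P l)) (h3 l)) ih
  exact h4 P.support

lemma X_mem {ν : Type} (i : ν) :
    LinearMap.mulLeft ℂ (X i : MvPolynomial ν ℂ) ∈ WW ν :=
  Algebra.subset_adjoin (Or.inl ⟨i, rfl⟩)

lemma D_mem {ν : Type} (i : ν) :
    (pderiv i : Derivation ℂ (MvPolynomial ν ℂ) (MvPolynomial ν ℂ)).toLinearMap ∈ WW ν :=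
  Algebra.subset_adjoin (Or.inr ⟨i, rfl⟩)

/-- The operator is a polynomial in `s` with coefficients in the Weyl algebra. -/
lemma poly {σ : Type} (P : H10.DiffOp σ Unit) : ∃ Q : Polynomial (WW σ), ∀ (s : Unit → ℕ) F,
    Q.eval₂ (WW σ).val.toRingHom (s () : Module.End ℂ (MvPolynomial σ ℂ)) F = H10.act P s F := by
  refine ind (fun A => ∃ Q : Polynomial (WW σ), ∀ (s : Unit → ℕ) F,
    Q.eval₂ (WW σ).val.toRingHom (s () : Module.End ℂ (MvPolynomial σ ℂ)) F = A s F)
    (fun z => ⟨Polynomial.C (algebraMap ℂ _ z), fun s F => ?_⟩) ?_ ?_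
    (fun i => ⟨Polynomial.C ⟨_, X_mem i⟩, fun s F => ?_⟩)
    (fun i => ⟨Polynomial.C ⟨_, D_mem i⟩, fun s F => ?_⟩)
    (fun j => ⟨Polynomial.X, fun s F => ?_⟩) P
  · simp [smul_eq_C_mul]
  · rintro A B ⟨Q, hQ⟩ ⟨Q', hQ'⟩
    exact ⟨Q + Q', fun s F => by rw [Polynomial.eval₂_add, LinearMap.add_apply, hQ, hQ']⟩
  · rintro A B ⟨Q, hQ⟩ ⟨Q', hQ'⟩
    exact ⟨Q * Q', fun s F => by
      rw [Polynomial.eval₂_mul_noncomm _ _ fun k => Nat.commute_cast _ _, Module.End.mul_apply,
        hQ', hQ]⟩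
  · simp
  · simp
  · simp

end BSAux

theorem bs1 : BS1Stmt := by
  rintro n f b ⟨S, P, hS, h⟩
  choose Q hQ using fun c => BSAux.poly (P c)
  refine ⟨(∑ c ∈ S, Q c).natDegree + 1, fun t => ((∑ c ∈ S, Q c).coeff t).1,
    fun t => ((∑ c ∈ S, Q c).coeff t).2, fun m => ?_⟩
  have h1 := h fun _ => m
  have h2 := LinearMap.congr_fun (Polynomial.eval₂_eq_sum_range (p := ∑ c ∈ S, Q c)
    (WW (Fin n)).val.toRingHom (m : Module.End ℂ (MvPolynomial (Fin n) ℂ))) (f ^ (m + 1))
  rw [Polynomial.eval₂_finsetSum, LinearMap.sum_apply, LinearMap.sum_apply] at h2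
  rw [sum_ex]
  refine (sum_congr rfl fun t _ => ?_).trans (h2.symm.trans ?_)
  · rw [Module.End.mul_apply, ← Nat.cast_pow, ← Nat.cast_pow, Module.End.natCast_apply,
      Nat.cast_smul_eq_nsmul, map_nsmul]
    rfl
  · simp only [univ_unique, sum_singleton, prod_singleton] at h1
    rw [smul_eq_C_mul, h1]
    refine sum_congr rfl fun c hc => ?_
    have h3 : c default = 1 := by simpa using hS c hc
    rw [← hQ c fun _ => m, h3]
    simp

end Pool.Agent.MP_ee8c61_ag.H36
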