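import Pool.Agent.MP_ee8c61_ag.H36.BasicS

/-!
Lattice sums over simplicial cones.
-/

namespace Pool.Agent.MP_ee8c61_ag.H36

open Finset Filter Topology

variable {ι α : Type} [Fintype ι] [Fintype α] {Y : Set (Option ι → ℕ)} {ρ : α → Option ι → ℕ}
  {S : Finset α} {s : ℕ} {r : ℝ}

/-- The points of `Y` moved by positive multiples of the rays in `S`. -/
def Rays (Y : Set (Option ι → ℕ)) (ρ : α → Option ι → ℕ) (S : Finset α) : Set (Option ι → ℕ) :=
  {u | ∃ v ∈ Y, ∃ t : α → ℕ, (∀ l, 0 < t l ↔ l ∈ S) ∧ u = v + ∑ l, t l • ρ l}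

/-- The multiples are determined by the point. -/
def Uniq (Y : Set (Option ι → ℕ)) (ρ : α → Option ι → ℕ) (S : Finset α) : Prop :=
  ∀ v ∈ Y, ∀ v' ∈ Y, ∀ t t' : α → ℕ, (∀ l ∉ S, t l = 0) → (∀ l ∉ S, t' l = 0) →
    v + ∑ l, t l • ρ l = v' + ∑ l, t' l • ρ l → t = t'

/-- The geometric factor. -/
noncomputable def geoF (ρ : α → Option ι → ℕ) (S : Finset α) (s : ℕ) (r : ℝ) : ℝ :=
  ∏ l ∈ S, (1 - r) / (1 - r ^ ell s (ρ l)) * r ^ ell s (ρ l)

omit [Fintype ι] in
lemma Rays_empty : Rays Y ρ ∅ = Y := by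
  ext u
  refine ⟨?_, fun h => ⟨u, h, 0, by simp, by simp⟩⟩
  rintro ⟨v, hv, t, ht, rfl⟩
  have : t = 0 := funext fun l => by simpa using ht l
  simpa [this] using hv

omit [Fintype ι] in
lemma Rays_insert [DecidableEq α] {l : α} (hl : l ∉ S) :
    Rays Y ρ (insert l S) = (· + ρ l) '' (Rays Y ρ S ∪ Rays Y ρ (insert l S)) := by
  have e : ∀ t : α → ℕ, ∑ k, (t + Pi.single l 1 : α → ℕ) k • ρ k = ∑ k, t k • ρ k + ρ l :=
    fun t => by simp [add_smul, sum_add_distrib, Pi.single_apply]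
  ext u
  constructor
  · rintro ⟨v, hv, t, ht, rfl⟩
    have h1 := (ht l).2 (mem_insert_self _ _)
    have h2 : t = (t - Pi.single l 1) + Pi.single l 1 := funext fun k => by
      by_cases hk : k = l
      · subst hk
        simp
        omega
      · simp [hk]
    refine ⟨v + ∑ k, (t - Pi.single l 1 : α → ℕ) k • ρ k, ?_, by
      conv_rhs => rw [h2, e, ← add_assoc]⟩
    by_cases h3 : t l = 1
    · refine Or.inl ⟨v, hv, _, fun k => ?_, rfl⟩
      by_cases hk : k = l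
      · simp [hk, h3, hl]
      · simp [hk, ht k]
    · refine Or.inr ⟨v, hv, _, fun k => ?_, rfl⟩
      by_cases hk : k = l
      · subst hk
        simp
        omega
      · simp [hk, ht k]
  · rintro ⟨_, ⟨v, hv, t, ht, rfl⟩ | ⟨v, hv, t, ht, rfl⟩, rfl⟩ <;>
      refine ⟨v, hv, t + Pi.single l 1, fun k => ?_, by rw [e, ← add_assoc]⟩ <;>
      by_cases hk : k = l <;> simp [hk, ht k]

lemma SS_rays (hs : 1 ≤ s) (h0 : 0 < r) (h1 : r < 1) (h : Uniq Y ρ S) (hρ : ∀ l ∈ S, ρ l ≠ 0) :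
    (1 - r) ^ #S * SS (Rays Y ρ S) s r = geoF ρ S s r * SS Y s r := by
  classical
  induction S using Finset.induction_on with
  | empty => simp [Rays_empty, geoF]
  | insert l S hl ih =>
    have h2 := ih (fun v hv v' hv' t t' ht ht' => h v hv v' hv' t t'
      (fun k hk => ht k fun h => hk (mem_insert_of_mem h))
      fun k hk => ht' k fun h => hk (mem_insert_of_mem h)) fun k hk => hρ k (mem_insert_of_mem hk)
    have h3 := SS_ray hs h0 h1 (ρ l) (Set.disjoint_left.2 (by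
      rintro _ ⟨v, hv, t, ht, rfl⟩ ⟨v', hv', t', ht', e⟩
      have := h v hv v' hv' t t' (fun k hk => by
        by_contra h4
        exact hk (mem_insert_of_mem ((ht k).1 (Nat.pos_of_ne_zero h4)))) (fun k hk => by
        by_contra h4
        exact hk ((ht' k).1 (Nat.pos_of_ne_zero h4))) e
      exact hl ((ht l).1 (this ▸ (ht' l).2 (mem_insert_self _ _))))) (Rays_insert hl)
    have h4 : 1 - r ^ ell s (ρ l) ≠ 0 :=
      (sub_pos.2 (pow_lt_one₀ h0.le h1 (ell_ne hs (hρ l (mem_insert_self _ _))))).ne'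
    rw [card_insert_of_notMem hl, geoF, prod_insert hl, mul_assoc, ← geoF, ← h2,
      eq_div_of_mul_eq h4 ((mul_comm _ _).trans h3)]
    ring

omit [Fintype α] in
lemma tend_geoF (hs : 1 ≤ s) (hρ : ∀ l ∈ S, ρ l ≠ 0) :
    Tendsto (geoF ρ S s) (𝓝[<] 1) (𝓝 (∏ l ∈ S, 1 / (ell s (ρ l) : ℝ))) :=
  tendsto_finsetProd S fun l hl => by
    simpa using (tend_geo (ell_ne hs (hρ l hl))).mul (tend_pow (ell s (ρ l)))

end Pool.Agent.MP_ee8c61_ag.H36
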