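import Pool.Agent.MP_ee8c61_ag.H36.Spec
import Pool.Agent.MP_5d9b3c_ag.H48N.Rat

/-!
Lattice sums and their limits.
-/

namespace Pool.Agent.MP_ee8c61_ag.H36

open Finset Filter Topology Pool.Agent.MP_5d9b3c_ag.H22 Pool.Agent.MP_5d9b3c_ag.H48N

/-- Near `1` from the left the parameter lies in the unit interval. -/
lemma ev_unit : ∀ᶠ r : ℝ in 𝓝[<] 1, 0 < r ∧ r < 1 :=
  (show Set.Ioo (0 : ℝ) 1 ∈ 𝓝[<] 1 from Ioo_mem_nhdsLT one_pos)

lemma tend_id : Tendsto (fun r : ℝ => r) (𝓝[<] 1) (𝓝 1) := tendsto_nhdsWithin_of_tendsto_nhds tendsto_id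

lemma tend_pow (m : ℕ) : Tendsto (fun r : ℝ => r ^ m) (𝓝[<] 1) (𝓝 1) := by
  simpa using tend_id.pow m

lemma tend_one_sub {m : ℕ} (hm : m ≠ 0) : Tendsto (fun r : ℝ => (1 - r) ^ m) (𝓝[<] 1) (𝓝 0) := by
  simpa [hm] using ((tendsto_const_nhds (x := (1 : ℝ))).sub tend_id).pow m

/-- The quotient of two geometric factors. -/
lemma tend_geo {m : ℕ} (hm : m ≠ 0) :
    Tendsto (fun r : ℝ => (1 - r) / (1 - r ^ m)) (𝓝[<] 1) (𝓝 (1 / (m : ℝ))) := by
  have h1 : Tendsto (fun r : ℝ => ∑ i ∈ range m, r ^ i) (𝓝[<] 1) (𝓝 (m : ℝ)) := by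
    simpa using tendsto_finsetSum (range m) (fun i _ => tend_pow i)
  refine ((tendsto_const_nhds (x := (1 : ℝ))).div h1 (Nat.cast_ne_zero.2 hm)).congr' ?_
  filter_upwards [ev_unit] with r hr
  have h2 : 1 - r ≠ 0 := sub_ne_zero.2 hr.2.ne'
  rw [Pi.div_apply, ← mul_neg_geom_sum, ← div_div, div_self h2]

section Sums

variable {ι : Type} [Fintype ι] {Y Y' : Set (Option ι → ℕ)} {s : ℕ} {r : ℝ}

lemma ell_add (s : ℕ) (u v : Option ι → ℕ) : ell s (u + v) = ell s u + ell s v := by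
  simp only [ell, Pi.add_apply, sum_add_distrib]
  ring

lemma ell_ne (hs : 1 ≤ s) {e : Option ι → ℕ} (he : e ≠ 0) : ell s e ≠ 0 := fun h => he <| by
  rw [ell, Nat.add_eq_zero_iff, sum_eq_zero_iff, Nat.mul_eq_zero] at h
  ext (_ | k)
  · exact h.1.resolve_left (by omega)
  · exact h.2 k (mem_univ k)

lemma summable_SS (hs : 1 ≤ s) (h0 : 0 < r) (h1 : r < 1) (Y : Set (Option ι → ℕ)) :
    Summable (Y.indicator fun u => r ^ ell s u) := by
  refine (Summable.of_nonneg_of_le (fun u => by positivity) (fun u => ?_)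
    (RatAux.summable_geo (ι := Option ι) r h0.le h1)).indicator Y
  refine pow_le_pow_of_le_one h0.le h1.le ?_
  rw [Fintype.sum_option, ell]
  exact Nat.add_le_add_right (Nat.le_mul_of_pos_left _ hs) _

@[simp] lemma SS_empty : SS (∅ : Set (Option ι → ℕ)) s r = 0 := by simp [SS]

lemma SS_nonneg (h0 : 0 < r) : 0 ≤ SS Y s r :=
  tsum_nonneg fun u => Set.indicator_nonneg (fun _ _ => by positivity) u

lemma SS_mono (hs : 1 ≤ s) (h0 : 0 < r) (h1 : r < 1) (h : Y ⊆ Y') : SS Y s r ≤ SS Y' s r :=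
  (summable_SS hs h0 h1 Y).tsum_le_tsum
    (fun u => Set.indicator_le_indicator_of_subset h (fun _ => by positivity) u)
    (summable_SS hs h0 h1 Y')

lemma SS_union (hs : 1 ≤ s) (h0 : 0 < r) (h1 : r < 1) (h : Disjoint Y Y') :
    SS (Y ∪ Y') s r = SS Y s r + SS Y' s r := by
  rw [SS, Set.indicator_union_of_disjoint h]
  exact (summable_SS hs h0 h1 Y).tsum_add (summable_SS hs h0 h1 Y')

/-- Splitting a lattice sum along a map with finitely many values. -/
lemma SS_fiber (hs : 1 ≤ s) (h0 : 0 < r) (h1 : r < 1) {α : Type} (t : (Option ι → ℕ) → α)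
    (A : Finset α) (h : ∀ u ∈ Y, t u ∈ A) : SS Y s r = ∑ x ∈ A, SS (Y ∩ {u | t u = x}) s r := by
  classical
  simp only [SS]
  rw [← Summable.tsum_finsetSum fun x _ => summable_SS hs h0 h1 _]
  refine tsum_congr fun u => ?_
  by_cases hu : u ∈ Y
  · rw [sum_eq_single_of_mem (t u) (h u hu) fun x _ hx =>
      Set.indicator_of_notMem (fun h' => hx h'.2.symm) _, Set.indicator_of_mem hu,
      Set.indicator_of_mem (show u ∈ Y ∩ {v | t v = t u} from ⟨hu, rfl⟩)]
  · rw [Set.indicator_of_notMem hu]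
    exact (sum_eq_zero fun x _ => Set.indicator_of_notMem (fun h' => hu h'.1) _).symm

lemma SS_shift (e : Option ι → ℕ) : SS ((· + e) '' Y) s r = r ^ ell s e * SS Y s r := by
  have hi : Function.Injective fun u : Option ι → ℕ => u + e := add_left_injective e
  rw [SS, SS, ← hi.tsum_eq, ← tsum_mul_left]
  · refine tsum_congr fun u => ?_
    by_cases hu : u ∈ Y
    · rw [Set.indicator_of_mem hu, Set.indicator_of_mem (Set.mem_image_of_mem _ hu), ell_add,
        pow_add, mul_comm]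
    · rw [Set.indicator_of_notMem hu, Set.indicator_of_notMem (by rwa [hi.mem_set_image]), mul_zero]
  · exact Set.support_indicator_subset.trans (Set.image_subset_range _ _)

/-- The points of `Y'` are the points of `Y` moved by a positive multiple of `e`. -/
lemma SS_ray (hs : 1 ≤ s) (h0 : 0 < r) (h1 : r < 1) (e : Option ι → ℕ) (h : Disjoint Y Y')
    (h' : Y' = (· + e) '' (Y ∪ Y')) :
    (1 - r ^ ell s e) * SS Y' s r = r ^ ell s e * SS Y s r := by
  have := SS_shift (Y := Y ∪ Y') (s := s) (r := r) e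
  rw [← h', SS_union hs h0 h1 h] at this
  linear_combination this

lemma SS_single (u : Option ι → ℕ) : SS {u} s r = r ^ ell s u := by
  rw [SS, tsum_eq_single u fun v hv =>
    Set.indicator_of_notMem (show v ∉ ({u} : Set (Option ι → ℕ)) from hv) _]
  exact Set.indicator_of_mem (Set.mem_singleton u) _

lemma mem_Lam {L : Submodule ℚ (Option ι → ℚ)} {v : Option ι → ℤ} :
    v ∈ Lam L ↔ ∀ e ∈ L, zq v ⬝ᵥ e = 0 := Iff.rfl

/-- A subspace is cut out by the integer vectors orthogonal to it. -/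
lemma exists_Lam {L : Submodule ℚ (Option ι → ℚ)} {e : Option ι → ℚ} (he : e ∉ L) :
    ∃ v ∈ Lam L, zq v ⬝ᵥ e ≠ 0 := by
  obtain ⟨f, h1, h2⟩ := Submodule.exists_le_ker_of_notMem he
  obtain ⟨d, hd⟩ := exists_dot f
  obtain ⟨M, hM, n, hn⟩ := clear_den d
  have h3 : ∀ x, zq n ⬝ᵥ x = M * f x := fun x => by
    rw [show zq n = (M : ℚ) • d from funext hn, smul_dotProduct, hd, smul_eq_mul]
  refine ⟨n, fun x hx => by rw [h3, h2 hx, mul_zero], ?_⟩
  rw [h3]
  exact mul_ne_zero (Nat.cast_ne_zero.2 hM.ne') h1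

variable {κ : Type} [Fintype κ] {a : κ → ι →₀ ℕ}

omit [Fintype κ] in
lemma mem_LT {T : Finset κ} {e : Option ι → ℚ} :
    e ∈ LT a T ↔ ∀ j ∈ T, zq (Ah a j) ⬝ᵥ e = 0 := Iff.rfl

omit [Fintype κ] in
lemma Ah_dot (j : κ) (e : Option ι → ℚ) :
    zq (Ah a j) ⬝ᵥ e = (fun k => e (some k)) ⬝ᵥ Aq a j - e none := by
  simp [zq, Ah, Aq, dotProduct, Fintype.sum_option, mul_comm, sub_eq_neg_add]

omit [Fintype κ] in
lemma sl_cast (u : Option ι → ℕ) (j : κ) : ((sl a u j : ℤ) : ℚ) = zq (Ah a j) ⬝ᵥ cq u := by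
  simp [sl, zq, cq, dotProduct]

omit [Fintype κ] in
lemma sl_eq (u : Option ι → ℕ) (j : κ) :
    sl a u j = ∑ k, (u (some k) : ℤ) * a j k - u none := by
  simp [sl, Ah, dotProduct, Fintype.sum_option, mul_comm, sub_eq_neg_add]

omit [Fintype κ] in
lemma sl_add (u v : Option ι → ℕ) (j : κ) : sl a (u + v) j = sl a u j + sl a v j := by
  simp only [sl_eq, Pi.add_apply, Nat.cast_add, add_mul, sum_add_distrib]
  ring

lemma mem_Tu {u : Option ι → ℕ} {j : κ} : j ∈ Tu a u ↔ sl a u j = 0 := by simp [Tu]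

variable {Ω : Submodule ℤ (Option ι → ℤ) → Finset κ → ℤ}

/-- Splitting the weighted sum along a map with finitely many values. -/
lemma FF_fiber (hs : 1 ≤ s) (h0 : 0 < r) (h1 : r < 1) {α : Type} (t : (Option ι → ℕ) → α)
    (A : Finset α) (h : ∀ u ∈ Y, t u ∈ A) :
    FF a Ω Y s r = ∑ x ∈ A, FF a Ω (Y ∩ {u | t u = x}) s r := by
  simp only [FF, NS]
  rw [sum_comm]
  refine sum_congr rfl fun T _ => ?_
  rw [SS_fiber hs h0 h1 t A fun u hu => h u hu.1, mul_sum, mul_sum]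
  simp only [Set.inter_right_comm]

lemma FF_union (hs : 1 ≤ s) (h0 : 0 < r) (h1 : r < 1) (h : Disjoint Y Y') :
    FF a Ω (Y ∪ Y') s r = FF a Ω Y s r + FF a Ω Y' s r := by
  simp only [FF, NS, ← sum_add_distrib]
  refine sum_congr rfl fun T _ => ?_
  rw [Set.union_inter_distrib_right,
    SS_union hs h0 h1 (h.mono Set.inter_subset_left Set.inter_subset_left)]
  ring

end Sums

variable {l : ℝ} {F G : ℕ → ℝ → ℝ}

lemma Lim0.zero : Lim0 fun _ _ => 0 := fun _ _ => tendsto_const_nhds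

lemma Lim0.add (h : Lim0 F) (h' : Lim0 G) : Lim0 fun s r => F s r + G s r :=
  fun s hs => by simpa using (h s hs).add (h' s hs)

lemma Lim0.const_mul (h : Lim0 F) (x : ℝ) : Lim0 fun s r => x * F s r :=
  fun s hs => by simpa using (h s hs).const_mul x

lemma Lim0.sum {α : Type} (A : Finset α) {F : α → ℕ → ℝ → ℝ} (h : ∀ x ∈ A, Lim0 (F x)) :
    Lim0 fun s r => ∑ x ∈ A, F x s r :=
  fun s hs => by simpa using tendsto_finsetSum A fun x hx => h x hx s hs

lemma Lim0.congr (h : Lim0 F) (e : ∀ s r, 1 ≤ s → 0 < r → r < 1 → F s r = G s r) : Lim0 G :=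
  fun s hs => (h s hs).congr' (ev_unit.mono fun r hr => e s r hs hr.1 hr.2)

lemma Lim0.reg (h : Lim0 F) : Reg l F :=
  ⟨0, 1, by simp, fun s hs => ⟨by simp, by simpa using h s hs⟩⟩

lemma Reg.congr (h : Reg l F) (e : ∀ s r, 1 ≤ s → 0 < r → r < 1 → F s r = G s r) : Reg l G := by
  obtain ⟨C, D, h1, h2⟩ := h
  exact ⟨C, D, h1, fun s hs => ⟨(h2 s hs).1,
    (h2 s hs).2.congr' (ev_unit.mono fun r hr => e s r hs hr.1 hr.2)⟩⟩

lemma Reg.add (h : Reg l F) (h' : Reg l G) : Reg l fun s r => F s r + G s r := by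
  obtain ⟨C, D, h1, h2⟩ := h
  obtain ⟨C', D', h3, h4⟩ := h'
  refine ⟨C * D' + D * C', D * D', by simp [h1, h3], fun s hs =>
    ⟨by simp [(h2 s hs).1, (h4 s hs).1], ?_⟩⟩
  have := (h2 s hs).2.add (h4 s hs).2
  rw [div_add_div _ _ (h2 s hs).1 (h4 s hs).1] at this
  simpa using this

lemma Reg.mul (h : Reg l F) (h' : Reg l G) : Reg l fun s r => F s r * G s r := by
  obtain ⟨C, D, h1, h2⟩ := h
  obtain ⟨C', D', h3, h4⟩ := h'
  refine ⟨C * C', D * D', by simp [h1, h3], fun s hs =>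
    ⟨by simp [(h2 s hs).1, (h4 s hs).1], ?_⟩⟩
  have := (h2 s hs).2.mul (h4 s hs).2
  rw [div_mul_div_comm] at this
  simpa using this

lemma Reg.of_tendsto {x : ℝ} (h : ∀ s, 1 ≤ s → Tendsto (F s) (𝓝[<] 1) (𝓝 x)) : Reg l F :=
  ⟨Polynomial.C x, 1, by simp, fun s hs => ⟨by simp, by simpa using h s hs⟩⟩

lemma Reg.const_mul (h : Reg l F) (x : ℝ) : Reg l fun s r => x * F s r :=
  (Reg.of_tendsto (F := fun _ _ => x) fun _ _ => tendsto_const_nhds).mul h

lemma Reg.sum {α : Type} (A : Finset α) {F : α → ℕ → ℝ → ℝ} (h : ∀ x ∈ A, Reg l (F x)) :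
    Reg l fun s r => ∑ x ∈ A, F x s r := by
  classical
  induction A using Finset.induction_on with
  | empty => simpa using Lim0.zero.reg
  | insert x A hx ih =>
    simpa [sum_insert hx] using
      (h x (mem_insert_self _ _)).add (ih fun y hy => h y (mem_insert_of_mem hy))

end Pool.Agent.MP_ee8c61_ag.H36
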