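import Pool.Agent.MP_ee8c61_ag.H36.BasicS

/-!
The normalised lattice sums are bounded.
-/

namespace Pool.Agent.MP_ee8c61_ag.H36

open Finset Filter Topology

namespace BddAux

/-- A subspace is parametrised by at most `finrank` coordinates. -/
lemma coords {O : Type} [Fintype O] (n : ℕ) : ∀ L : Submodule ℚ (O → ℚ), Module.finrank ℚ L ≤ n →
    ∃ C : Finset O, #C ≤ Module.finrank ℚ L ∧ ∀ x ∈ L, (∀ o ∈ C, x o = 0) → x = 0 := by
  classical
  induction n with
  | zero =>
    intro L h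
    refine ⟨∅, by simp, fun x hx _ => ?_⟩
    rwa [Submodule.finrank_eq_zero.1 (Nat.le_zero.1 h), Submodule.mem_bot] at hx
  | succ n ih =>
    intro L h
    by_cases h0 : ∀ x ∈ L, x = 0
    · exact ⟨∅, by simp, fun x hx _ => h0 x hx⟩
    push Not at h0
    obtain ⟨x, hx, h1⟩ := h0
    obtain ⟨o, ho⟩ := Function.ne_iff.1 h1
    have h2 : L ⊓ LinearMap.ker (LinearMap.proj o) < L :=
      lt_of_le_of_ne inf_le_left fun e => ho (by
        rw [← e] at hx
        exact hx.2)
    have h3 := Submodule.finrank_lt_finrank_of_lt h2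
    obtain ⟨C, h4, h5⟩ := ih _ (by omega : Module.finrank ℚ ↥(L ⊓ LinearMap.ker (LinearMap.proj o)) ≤ n)
    refine ⟨insert o C, (card_insert_le _ _).trans (by omega), fun y hy h6 =>
      h5 y ⟨hy, h6 o (mem_insert_self _ _)⟩ fun k hk => h6 k (mem_insert_of_mem hk)⟩

lemma geo {O : Type} [Fintype O] {r : ℝ} (h0 : 0 ≤ r) (h1 : r < 1) (s : Finset (O → ℕ)) :
    ∑ L ∈ s, r ^ (∑ k, L k) ≤ (1 - r)⁻¹ ^ Fintype.card O := by
  classical
  obtain ⟨N, hN⟩ : ∃ N : ℕ, ∀ L ∈ s, ∀ k, L k < N := by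
    refine ⟨s.sup (fun L => ∑ k, L k) + 1, fun L hL k => ?_⟩
    have h2 : L k ≤ ∑ k, L k := single_le_sum (fun _ _ => Nat.zero_le _) (mem_univ k)
    have h3 := le_sup (f := fun L : O → ℕ => ∑ k, L k) hL
    omega
  have hs : s ⊆ Fintype.piFinset fun _ => range N := fun L hL => by
    simpa [Fintype.mem_piFinset] using hN L hL
  calc ∑ L ∈ s, r ^ (∑ k, L k) ≤ ∑ L ∈ Fintype.piFinset fun _ : O => range N, r ^ (∑ k, L k) :=
        sum_le_sum_of_subset_of_nonneg hs fun _ _ _ => by positivity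
    _ = ∏ _k : O, ∑ i ∈ range N, r ^ i := by
        rw [prod_univ_sum]
        simp only [prod_pow_eq_pow_sum]
    _ ≤ ∏ _k : O, (1 - r)⁻¹ := by
        refine prod_le_prod (fun _ _ => by positivity) fun _ _ => ?_
        rw [← tsum_geometric_of_lt_one h0 h1]
        exact (summable_geometric_of_lt_one h0 h1).sum_le_tsum _ fun _ _ => by positivity
    _ = _ := by rw [prod_const, card_univ]

variable {ι : Type} [Fintype ι] {L : Submodule ℚ (Option ι → ℚ)} {Y : Set (Option ι → ℕ)}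
  {s : ℕ} {r : ℝ}

lemma NS_le (h : ∀ u ∈ Y, cq u ∈ L) (hs : 1 ≤ s) (h0 : 0 < r) (h1 : r < 1) : NS L Y s r ≤ 1 := by
  classical
  obtain ⟨C, h2, h3⟩ := coords _ L le_rfl
  have h4 : 0 < 1 - r := sub_pos.2 h1
  have h5 : SS Y s r ≤ (1 - r)⁻¹ ^ #C := by
    refine (summable_SS hs h0 h1 Y).tsum_le_of_sum_le fun t => ?_
    have inj : Set.InjOn (fun (u : Option ι → ℕ) (o : C) => u o) (t.filter (· ∈ Y)) :=
      fun u hu v hv e => by
        have := h3 _ (L.sub_mem (h u (mem_filter.1 hu).2) (h v (mem_filter.1 hv).2)) fun o ho => by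
          simp [cq, show u o = v o from congrFun e ⟨o, ho⟩]
        ext o
        simpa [cq, sub_eq_zero] using congrFun this o
    rw [sum_indicator_eq_sum_filter, ← Fintype.card_coe]
    refine le_trans ?_ (geo h0.le h1 ((t.filter (· ∈ Y)).image fun u (o : C) => u o))
    rw [sum_image inj]
    refine sum_le_sum fun u _ => pow_le_pow_of_le_one h0.le h1.le ?_
    rw [sum_coe_sort C u]
    refine (sum_le_sum_of_subset (subset_univ C)).trans ?_
    rw [Fintype.sum_option, ell]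
    exact Nat.add_le_add_right (Nat.le_mul_of_pos_left _ hs) _
  calc NS L Y s r ≤ (1 - r) ^ #C * (1 - r)⁻¹ ^ #C :=
        mul_le_mul (pow_le_pow_of_le_one h4.le (by linarith) h2) h5 (SS_nonneg h0) (by positivity)
    _ = 1 := by rw [← mul_pow, mul_inv_cancel₀ h4.ne', one_pow]

end BddAux

theorem bdd : BddStmt := fun _ _ L Y h G hG s hs => by
  refine squeeze_zero_norm' ?_ (tendsto_zero_iff_norm_tendsto_zero.1 (hG s hs))
  filter_upwards [ev_unit] with r hr
  have h1 : 0 ≤ NS L Y s r := mul_nonneg (pow_nonneg (sub_nonneg.2 hr.2.le) _) (SS_nonneg hr.1)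
  rw [norm_mul, Real.norm_of_nonneg h1]
  exact mul_le_of_le_one_right (norm_nonneg _) (BddAux.NS_le h hs hr.1 hr.2)

end Pool.Agent.MP_ee8c61_ag.H36
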