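import Pool.Agent.MP_ee8c61_ag.H36.BasicS
import Pool.Agent.MP_5d9b3c_ag.H48N.Box

/-!
The boxes that avoid the faces of a given level.
-/

namespace Pool.Agent.MP_ee8c61_ag.H36

open Finset Filter Topology Pool.Agent.MP_5d9b3c_ag.H22 Pool.Agent.MP_5d9b3c_ag.H48N

namespace BoxTAux

variable {ι κ : Type} [Fintype ι] [LinearOrder ι] [Fintype κ] [DecidableEq κ]

/-- The type of a set of monomials. -/
def tau (T : Finset κ) : κ → Fin (1 + 1) := fun j => if j ∈ T then 1 else 0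

/-- The functionals. -/
def lamT (a : κ → ι →₀ ℕ) (h : ℚ) (o : ι → ℚ) {J : ℕ} (idx : ι → Fin (J + 2)) (T : Finset κ) :
    Option ((ι ⊕ ι) ⊕ (κ ⊕ κ)) → Option ι → ℚ :=
  fun x => x.elim (qq 1 0) (BoxAux.lam a h o idx (tau T))

/-- The strict constraints. -/
def strT {J : ℕ} (idx : ι → Fin (J + 2)) (T : Finset κ) : Option ((ι ⊕ ι) ⊕ (κ ⊕ κ)) → Prop :=
  fun x => x.elim True (Sum.elim (Sum.elim (fun _ => False) (fun k => (idx k : ℕ) ≠ J + 1))
    (Sum.elim (fun j => j ∉ T) (fun _ => False)))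

variable {a : κ → ι →₀ ℕ} {h : ℚ} {o : ι → ℚ} {J : ℕ} {idx : ι → Fin (J + 2)} {T : Finset κ}

omit [Fintype κ] in
lemma lam_none (e : Option ι → ℚ) : lamT a h o idx T none ⬝ᵥ e = e none := by
  simp [lamT, BoxAux.qq_dot]

omit [Fintype κ] in
lemma lam_pos (j : κ) (e : Option ι → ℚ) :
    lamT a h o idx T (some (Sum.inr (Sum.inl j))) ⬝ᵥ e = zq (Ah a j) ⬝ᵥ e := by
  simp only [lamT, BoxAux.lam, Option.elim, Sum.elim_inr, Sum.elim_inl, BoxAux.qq_dot, Ah_dot,
    dotProduct_comm (Aq a j)]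
  ring

omit [Fintype κ] in
lemma lam_neg (j : κ) (e : Option ι → ℚ) :
    lamT a h o idx T (some (Sum.inr (Sum.inr j))) ⬝ᵥ e =
      if j ∈ T then -(zq (Ah a j) ⬝ᵥ e) else 0 := by
  by_cases hj : j ∈ T
  · simp only [lamT, BoxAux.lam, Option.elim, Sum.elim_inr, tau, hj, if_true, Fin.val_one,
      one_ne_zero, if_false, BoxAux.qq_dot, Ah_dot, neg_dotProduct, dotProduct_comm (Aq a j)]
    ring
  · simp [lamT, BoxAux.lam, tau, hj]

omit [Fintype κ] in
lemma cell_iff (u : Option ι → ℕ) :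
    (∀ x : ι ⊕ ι, 0 ≤ lamT a h o idx T (some (Sum.inl x)) ⬝ᵥ cq u ∧
      (strT idx T (some (Sum.inl x)) → 0 < lamT a h o idx T (some (Sum.inl x)) ⬝ᵥ cq u)) ↔
    InCell h o idx (u none) (fun k => u (some k)) := by
  rw [Sum.forall, ← forall_and]
  refine forall_congr' (fun k => and_congr ?_ ?_)
  · by_cases hk : (idx k : ℕ) = 0
    · simp only [lamT, strT, Option.elim, BoxAux.lam, hk, Sum.elim_inl, if_true, zero_dotProduct,
        le_refl, false_imp_iff, and_true, true_or]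
    · simp only [lamT, strT, Option.elim, BoxAux.lam, hk, Sum.elim_inl, if_false, BoxAux.qq_dot,
        cq, false_or, single_dotProduct, false_imp_iff, and_true]
      constructor <;> intro h1 <;> linarith
  · by_cases hk : (idx k : ℕ) = J + 1
    · simp [lamT, strT, BoxAux.lam, hk]
    · simp only [lamT, strT, Option.elim, BoxAux.lam, hk, Sum.elim_inl, Sum.elim_inr, if_false,
        BoxAux.qq_dot, cq, false_or, neg_dotProduct, single_dotProduct, ne_eq, not_false_eq_true,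
        true_imp_iff]
      constructor
      · intro h1
        linarith [h1.2]
      · intro h1
        constructor <;> linarith

lemma set_eq : KK a ∩ {u | InCell h o idx (u none) (fun k => u (some k))} ∩ {u | Tu a u = T} =
    {u | ∀ x, (0 : ℚ) ≤ lamT a h o idx T x ⬝ᵥ cq u ∧
      (strT idx T x → 0 < lamT a h o idx T x ⬝ᵥ cq u)} := by
  ext u
  simp only [Set.mem_inter_iff, Set.mem_ofPred_eq, KK]
  rw [Option.forall, Sum.forall, cell_iff, Sum.forall]
  simp only [lam_none, lam_pos, lam_neg, ← sl_cast, strT, Option.elim, Sum.elim_inr, Sum.elim_inl,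
    cq, Nat.cast_nonneg, Nat.cast_pos, true_and, true_imp_iff, false_imp_iff, and_true,
    Int.cast_nonneg_iff, Int.cast_pos]
  constructor
  · rintro ⟨⟨⟨h1, h2⟩, h3⟩, h4⟩
    refine ⟨h1, h3, fun j => ⟨h2 j, fun hj => (h2 j).lt_of_ne' (fun h5 => hj ?_)⟩, fun j => ?_⟩
    · rw [← h4]
      exact mem_Tu.2 h5
    · split_ifs with hj
      · rw [← h4] at hj
        rw [mem_Tu.1 hj]
        simp
      · exact le_rfl
  · rintro ⟨h1, h2, h3, h4⟩
    refine ⟨⟨⟨h1, fun j => (h3 j).1⟩, h2⟩, ?_⟩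
    ext j
    rw [mem_Tu]
    refine ⟨fun h5 => by_contra (fun hj => ((h3 j).2 hj).ne' h5), fun hj => ?_⟩
    have h5 := h4 j
    rw [if_pos hj, neg_nonneg, Int.cast_nonpos] at h5
    exact le_antisymm h5 (h3 j).1

end BoxTAux

open BoxTAux in
theorem boxT (h : RatTStmt) : BoxTStmt := by
  intro ι κ _ _ _ _ a Ω l hh o J hg idx hn
  refine Reg.sum univ (fun T _ => Reg.const_mul ?_ _)
  rw [set_eq]
  refine h ι _ l (lamT a hh o idx T) (fun _ => 0) (strT idx T) (LT a T) (fun e _ he => ?_)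
    (fun e he h0 h1 => ?_)
  · refine mem_LT.2 (fun j hj => le_antisymm ?_ ?_)
    · have := he (some (Sum.inr (Sum.inr j)))
      rwa [lam_neg, if_pos hj, neg_nonneg] at this
    · have := he (some (Sum.inr (Sum.inl j)))
      rwa [lam_pos] at this
  · obtain ⟨d, h2, h3, h4⟩ := BoxAux.rat_hyp hg hn (tau T) e he h0 (fun j => h1 (some j))
    refine ⟨d, h2, ?_, h4⟩
    rintro (_ | j) hj
    · rw [lam_none] at hj ⊢
      exact h2 _ hj
    · exact h3 j hj

end Pool.Agent.MP_ee8c61_ag.H36
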