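import Pool.Agent.MP_ee8c61_ag.H36.BasicR

/-!
The sum over a column tends to zero.
-/

namespace Pool.Agent.MP_ee8c61_ag.H36

open Finset Filter Topology Pool.Agent.MP_5d9b3c_ag.H22 Pool.Agent.MP_5d9b3c_ag.H48N

namespace ColTAux

variable {ι κ : Type} [Fintype ι] [LinearOrder ι] [Fintype κ] [DecidableEq κ] {a : κ → ι →₀ ℕ}
  {T : Finset κ} {B : Finset ι}

/-- The coordinate rays. -/
def ec (i : ι) : Option ι → ℕ := Pi.single (some i) 1

omit [Fintype κ] [DecidableEq κ] in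
lemma sl_rays (v : Option ι → ℕ) (t : ι → ℕ) (j : κ) :
    sl a (v + ∑ i, t i • ec i) j = sl a v j + ∑ i, (t i : ℤ) * a j i := by
  rw [sl_add]
  simp [sl_eq, ec, Pi.single_apply]

omit [Fintype κ] [DecidableEq κ] in
lemma sum_lin (hl : Lin a T B) {t : ι → ℕ} (ht : ∀ i ∉ B, t i = 0) {j : κ} (hj : j ∈ T) {i : ι}
    (hi : i ∈ B) (h0 : a j i ≠ 0) : ∑ k, (t k : ℤ) * a j k = t i := by
  rw [sum_eq_single i (fun k _ hk => ?_) (by simp), hl.eq_one hj hi h0, Nat.cast_one, mul_one]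
  by_cases hB : k ∈ B
  · simp [hl.eq_zero hj hi hB hk h0]
  · simp [ht k hB]

/-- The subspace of a face of the column. -/
def LA (a : κ → ι →₀ ℕ) (T : Finset κ) (A : Finset ι) : Submodule ℚ (Option ι → ℚ) :=
  LT a T ⊔ Submodule.span ℚ ((fun i => (Pi.single (some i) 1 : Option ι → ℚ)) '' (A : Set ι))

omit [Fintype κ] [DecidableEq κ] in
lemma LA_le (A : Finset ι) : LA a T A ≤ LT a (T.filter (fun j => ∀ i ∈ A, a j i = 0)) := by
  refine sup_le (fun e he j hj => he j (mem_filter.1 hj).1) (Submodule.span_le.2 ?_)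
  rintro _ ⟨i, hi, rfl⟩ j hj
  simp [zq, Ah, (mem_filter.1 hj).2 i hi]

omit [Fintype κ] [DecidableEq κ] in
lemma finrank_LA (hl : Lin a T B) (ho : Occ a T B) (A : Finset ι) (hA : A ⊆ B) :
    Module.finrank ℚ (LA a T A) = Module.finrank ℚ (LT a T) + #A := by
  induction A using Finset.induction_on with
  | empty =>
    rw [LA, coe_empty, Set.image_empty, Submodule.span_empty, sup_bot_eq, card_empty, add_zero]
  | insert i A hi ih =>
    obtain ⟨j, hj, h0⟩ := ho i (hA (mem_insert_self _ _))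
    have h1 : A ⊆ B := (subset_insert _ _).trans hA
    have e : LA a T (insert i A) = LA a T A ⊔ Submodule.span ℚ {Pi.single (some i) 1} := by
      rw [LA, LA, coe_insert, Set.image_insert_eq, Submodule.span_insert, sup_assoc,
        sup_comm (a := Submodule.span _ {_})]
    rw [e, Submodule.finrank_sup_span_singleton fun h => h0 ?_, ih h1, card_insert_of_notMem hi,
      add_assoc]
    simpa [zq, Ah] using LA_le A h j (mem_filter.2 ⟨hj, fun k hk =>
      hl.eq_zero hj (hA (mem_insert_self _ _)) (h1 hk) (fun e => hi (e ▸ hk)) h0⟩)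

end ColTAux

/-- The sum over a column tends to zero, under the weaker nondegeneracy condition. -/
def ColT2Stmt : Prop :=
  ∀ (ι κ : Type) [Fintype ι] [LinearOrder ι] [Fintype κ] [DecidableEq κ] (a : κ → ι →₀ ℕ)
    (c : κ → ℂ) Ω, Van a Ω → ColZero a c Ω →
    ∀ (T : Finset κ) (F B : Finset ι) (w : ι → ℚ) (R : Set (Option ι → ℕ)),
      TND a c T F → B ⊆ F → (∀ k ∉ F, w k ≤ 0) → Lin a T B → ¬ Solv a c T B →
      (∀ j ∈ T, w ⬝ᵥ Aq a j = 1) →
      (∀ u u', u none = u' none → (∀ k ∉ B, u (some k) = u' (some k)) → u ∈ R → u' ∈ R) →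
      (∀ u ∈ R, 0 < u none ∧ ((∀ j ∈ T, 0 ≤ sl a u j) →
        (∀ j ∉ T, 0 < sl a u j) ∧ ∀ i ∈ B, 0 < u (some i))) →
      Lim0 (FF a Ω (KK a ∩ R))

open ColTAux in
theorem colT2 (hA : ApproxStmt) (hB : BddStmt) (hL : LiftStmt) : ColT2Stmt := by
  intro ι κ _ _ _ _ a c Ω hV hZ T F B w R hT hBF hF hl hs hw hR hp
  classical
  set Y0 : Set (Option ι → ℕ) :=
    {v | v ∈ KK a ∩ R ∧ ∀ i ∈ B, ∃ j ∈ T, a j i ≠ 0 ∧ sl a v j = 0} with hY0
  have hU : Uniq Y0 ec B := by
    have : ∀ v ∈ Y0, ∀ v' ∈ Y0, ∀ t t' : ι → ℕ, (∀ l ∉ B, t l = 0) → (∀ l ∉ B, t' l = 0) →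
        v + ∑ l, t l • ec l = v' + ∑ l, t' l • ec l → ∀ i ∈ B, t' i ≤ t i := by
      intro v hv v' hv' t t' ht ht' e i hi
      obtain ⟨j, hj, h0, h1⟩ := hv.2 i hi
      have h2 := congrArg (sl a · j) e
      simp only [sl_rays, sum_lin hl ht hj hi h0, sum_lin hl ht' hj hi h0] at h2
      have := hv'.1.1.2 j
      omega
    intro v hv v' hv' t t' ht ht' e
    ext i
    by_cases hi : i ∈ B
    · exact (this v' hv' v hv t' t ht' ht e.symm i hi).antisymm (this v hv v' hv' t t' ht ht' e i hi)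
    · rw [ht i hi, ht' i hi]
  have hex : ∀ n, ∀ u ∈ KK a ∩ R, ell 1 u = n → ∃ v ∈ Y0, ∃ t : ι → ℕ, (∀ i ∉ B, t i = 0) ∧
      u = v + ∑ i, t i • ec i := by
    intro n
    induction n using Nat.strong_induction_on with
    | _ n ih =>
    intro u hu hn
    by_cases h : u ∈ Y0
    · exact ⟨u, h, 0, by simp, by simp⟩
    obtain ⟨i, hi, h1⟩ : ∃ i ∈ B, ∀ j ∈ T, a j i ≠ 0 → sl a u j ≠ 0 := by
      by_contra h2
      push Not at h2
      exact h ⟨hu, h2⟩
    have h2 := ((hp u hu.2).2 fun j _ => hu.1.2 j).2 i hi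
    obtain ⟨u', rfl⟩ : ∃ u', u = u' + ec i := ⟨u - ec i, funext fun o => by
      by_cases ho : o = some i
      · simp [ec, ho]
        omega
      · simp [ec, ho]⟩
    have h3 : u' ∈ R := hR _ _ (by simp [ec]) (fun k hk => by
      simp [ec, show k ≠ i from fun e => hk (e ▸ hi)]) hu.2
    have h4 : ∀ j ∈ T, 0 ≤ sl a u' j := fun j hj => by
      have h5 := hu.1.2 j
      have h6 := h1 j hj
      have h7 : sl a (u' + ec i) j = sl a u' j + a j i := by
        rw [sl_add]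
        simp [sl_eq, ec, Pi.single_apply]
      by_cases h0 : a j i = 0
      · omega
      · have := hl.eq_one hj hi h0
        have := h6 h0
        omega
    obtain ⟨v, hv, t, ht, rfl⟩ := ih _ (by rw [← hn, ell_add]; simp [ell, ec, Pi.single_apply]) u'
      ⟨⟨(hp u' h3).1, fun j => by
        by_cases hj : j ∈ T
        exacts [h4 j hj, (((hp u' h3).2 h4).1 j hj).le]⟩, h3⟩ rfl
    refine ⟨v, hv, t + Pi.single i 1, fun k hk => by
      simp [ht k hk, show k ≠ i from fun e => hk (e ▸ hi)], ?_⟩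
    simp [add_smul, sum_add_distrib, Pi.single_apply, add_assoc]
  choose! v hv t ht hu using fun u hu => hex _ u hu rfl
  have hfib : ∀ T' : Finset κ, ∀ A ∈ B.powerset, KK a ∩ R ∩ {u | Tu a (v u) = T'} ∩
      {u | B.filter (fun i => 0 < t u i) = A} = Rays (Y0 ∩ {u | Tu a u = T'}) ec A := by
    intro T' A hA
    rw [mem_powerset] at hA
    ext u
    constructor
    · rintro ⟨⟨h1, h2⟩, h3⟩
      refine ⟨v u, ⟨hv u h1, h2⟩, t u, fun i => ?_, hu u h1⟩
      rw [← show _ = A from h3, mem_filter, iff_and_self]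
      intro h
      by_contra hi
      exact h.ne' (ht u h1 i hi)
    · rintro ⟨v', ⟨h1, h2⟩, t', h3, e⟩
      have h4 : ∀ i ∉ B, t' i = 0 := fun i hi => by
        by_contra h
        exact hi (hA ((h3 i).1 (Nat.pos_of_ne_zero h)))
      have h5 : u ∈ KK a ∩ R := e ▸ ⟨⟨by simpa [ec] using h1.1.1.1, fun j => by
        rw [sl_rays]
        exact add_nonneg (h1.1.1.2 j) (by positivity)⟩, hR _ _ (by simp [ec]) (fun k hk => by
          simp [ec, Pi.single_apply, h4 k hk]) h1.1.2⟩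
      have h6 := hU _ (hv u h5) _ h1 _ _ (ht u h5) h4 ((hu u h5).symm.trans e)
      have h7 : v u = v' := add_right_cancel ((hu u h5).symm.trans (h6 ▸ e))
      refine ⟨⟨h5, by rwa [Set.mem_ofPred_eq, h7]⟩, ?_⟩
      ext i
      simp only [h6, h3, mem_filter, and_iff_right_iff_imp]
      exact fun h => hA h
  refine (Lim0.sum (univ : Finset (Finset κ)) (F := fun T' s r => ∑ A ∈ B.powerset,
    FF a Ω (Rays (Y0 ∩ {u | Tu a u = T'}) ec A) s r) fun T' _ => ?_).congr fun s r hs h0 h1 => by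
      rw [FF_fiber hs h0 h1 (fun u => Tu a (v u)) univ fun _ _ => mem_univ _]
      refine sum_congr rfl fun T' _ => ?_
      rw [FF_fiber hs h0 h1 (fun u => B.filter fun i => 0 < t u i) B.powerset fun _ _ =>
        mem_powerset.2 (filter_subset _ _)]
      exact sum_congr rfl fun A hA => by rw [hfib T' A hA]
  rcases (Y0 ∩ {u | Tu a u = T'}).eq_empty_or_nonempty with h | ⟨v0, hv0, hT'⟩
  · refine Lim0.zero.congr fun s r _ _ _ => (sum_eq_zero fun A _ => ?_).symm
    simp [h, FF, NS, Rays]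
  have hd : ∀ j ∈ T, ((fun k => (v0 (some k) : ℚ)) - (v0 none : ℚ) • w) ⬝ᵥ Aq a j = sl a v0 j :=
    fun j hj => by
      rw [sub_dotProduct, smul_dotProduct, hw j hj, sl_cast, Ah_dot, smul_eq_mul, mul_one]
      rfl
  have hf : T.filter (fun j => ((fun k => (v0 (some k) : ℚ)) - (v0 none : ℚ) • w) ⬝ᵥ Aq a j = 0) =
      T' := by
    ext j
    rw [← show _ = T' from hT', mem_filter, mem_Tu]
    refine ⟨fun h => by exact_mod_cast hd j h.1 ▸ h.2, fun h => ?_⟩
    have hj : j ∈ T := by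
      by_contra hj
      exact (((hp v0 hv0.1.2).2 fun j _ => hv0.1.1.2 j).1 j hj).ne' h
    exact ⟨hj, by rw [hd j hj, h, Int.cast_zero]⟩
  have ho' : Occ a T' B := fun i hi => by
    obtain ⟨j, -, h0, h1⟩ := hv0.2 i hi
    exact ⟨j, hT' ▸ mem_Tu.2 h1, h0⟩
  have hl' : Lin a T' B := hl.mono (hf ▸ filter_subset _ _) subset_rfl
  have hz := hZ T' B hl' ho' fun h => hs (hL ι κ a c T F B hT hBF hl
    ((fun k => (v0 (some k) : ℚ)) - (v0 none : ℚ) • w) (fun k hk => sub_nonneg.2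
      ((mul_nonpos_of_nonneg_of_nonpos (Nat.cast_nonneg _) (hF k hk)).trans
      (Nat.cast_nonneg _))) (fun j hj => by
      rw [hd j (mem_MA.1 hj).1]
      exact_mod_cast hv0.1.1.2 j) (hf ▸ ho') (hf ▸ h))
  have hne : ∀ i : ι, ec i ≠ 0 := fun i h => by simpa [ec] using congrFun h (some i)
  have hG := hB ι (LT a T') (Y0 ∩ {u | Tu a u = T'}) (fun u hu j hj => by
    rw [← sl_cast, mem_Tu.1 (hu.2 ▸ hj), Int.cast_zero]) (fun s r => ∑ A ∈ B.powerset,
      (Ω (Lam (LA a T' A)) (T'.filter (fun j => ∀ i ∈ A, a j i = 0)) : ℝ) * geoF ec A s r)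
    fun s hs => by
      have := tendsto_finsetSum B.powerset fun A _ => (tend_geoF (S := A) hs
        fun i _ => hne i).const_mul (Ω (Lam (LA a T' A)) (T'.filter fun j => ∀ i ∈ A, a j i = 0) : ℝ)
      simp only [show ∀ i : ι, ell s (ec i) = 1 from fun i => by simp [ell, ec, Pi.single_apply],
        Nat.cast_one, div_one, prod_const_one, mul_one] at this
      rwa [← Int.cast_sum, show ∑ A ∈ B.powerset, Ω (Lam (LA a T' A)) _ = 0 from hz,
        Int.cast_zero] at this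
  refine ((Lim0.sum B.powerset fun A _ => hA ι κ a Ω hV (Rays (Y0 ∩ {u | Tu a u = T'}) ec A) _
    (LA a T' A) (LA_le A) ?_).add hG).congr fun s r hs h0 h1 => ?_
  · rintro _ ⟨u, ⟨h1, h2⟩, t', h3, rfl⟩
    refine ⟨?_, ?_⟩
    · ext j
      rw [mem_Tu, sl_rays, add_eq_zero_iff_of_nonneg (h1.1.1.2 j) (by positivity), mem_filter,
        ← show _ = T' from h2, mem_Tu, sum_eq_zero_iff_of_nonneg fun _ _ => by positivity]
      refine and_congr_right fun _ => forall_congr' fun i => ?_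
      rw [← h3]
      simp [Nat.pos_iff_ne_zero, or_iff_not_imp_left]
    · have e : cq (u + ∑ l, t' l • ec l) = cq u + ∑ l, (t' l : ℚ) • Pi.single (some l) 1 := by
        ext (_ | k) <;> simp [cq, ec, Pi.single_apply]
      rw [e]
      refine Submodule.add_mem_sup (fun j hj => by
        rw [← sl_cast, mem_Tu.1 (h2 ▸ hj), Int.cast_zero]) (Submodule.sum_mem _ fun l _ => ?_)
      by_cases hl : l ∈ A
      · exact Submodule.smul_mem _ _ (Submodule.subset_span ⟨l, hl, rfl⟩)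
      · simp [show t' l = 0 by simpa [← h3] using hl]
  · rw [sum_mul, ← sum_add_distrib]
    refine sum_congr rfl fun A hA => ?_
    rw [mem_powerset] at hA
    have := SS_rays (Y := Y0 ∩ {u | Tu a u = T'}) (S := A) hs h0 h1
      (fun v hv v' hv' t t' ht ht' => hU v hv.1 v' hv'.1 t t' (fun l hl => ht l fun h => hl (hA h))
        fun l hl => ht' l fun h => hl (hA h)) fun i _ => hne i
    rw [NS, NS, finrank_LA hl' ho' A hA, pow_add, mul_assoc (_ ^ _), this]
    ring

theorem colT (hA : ApproxStmt) (hB : BddStmt) (hL : LiftStmt) : ColTStmt :=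
  fun ι κ _ _ _ _ a c Ω hV hZ T B w R hT hl _ =>
    colT2 hA hB hL ι κ a c Ω hV hZ T univ B w R hT (subset_univ _) (by simp) hl

end Pool.Agent.MP_ee8c61_ag.H36
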