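import Pool.Agent.MP_ee8c61_ag.H36.BasicE
import Pool.Agent.MP_ee8c61_ag.H36.BasicS

/-!
The weights of the faces of a column add up to zero.
-/

namespace Pool.Agent.MP_ee8c61_ag.H36

open Finset MvPolynomial Pool.Agent.MP_5d9b3c_ag.H22 Pool.Agent.MP_5d9b3c_ag.H48N

namespace ColZeroAux

/-- A surjection onto a lattice is part of a coordinate system. -/
lemma exists_E {M β : Type} [AddCommGroup M] [Module.Finite ℤ M] [Module.IsTorsionFree ℤ M]
    [Finite β] (π : M →ₗ[ℤ] (β → ℤ)) (hπ : Function.Surjective π) :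
    ∃ (n : ℕ) (E : M →ₗ[ℤ] (Fin n ⊕ β → ℤ)), Function.Bijective E ∧
      ∀ v i, E v (Sum.inr i) = π v i := by
  obtain ⟨σ, hσ⟩ := π.exists_rightInverse_of_surjective (LinearMap.range_eq_top.2 hπ)
  have hs : ∀ w, π (σ w) = w := fun w => LinearMap.congr_fun hσ w
  let b := (Module.finBasis ℤ (LinearMap.ker π)).equivFun
  let ρ : M →ₗ[ℤ] LinearMap.ker π := (LinearMap.id - σ ∘ₗ π).codRestrict _ fun v => by simp [hs]
  have hρ : ∀ v, (ρ v : M) = v - σ (π v) := fun v => rfl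
  refine ⟨Module.finrank ℤ (LinearMap.ker π), LinearMap.pi (Sum.elim
    (fun k => LinearMap.proj k ∘ₗ b.toLinearMap ∘ₗ ρ) fun i => LinearMap.proj i ∘ₗ π),
    ⟨(injective_iff_map_eq_zero _).2 fun v hv => ?_, fun w => ?_⟩, fun _ _ => rfl⟩
  · have h1 : π v = 0 := funext fun i => congrFun hv (Sum.inr i)
    have h2 : ρ v = 0 := b.map_eq_zero_iff.1 (funext fun k => congrFun hv (Sum.inl k))
    simpa [h1, h2] using (hρ v).symm
  · have h1 : π ((b.symm fun k => w (Sum.inl k) : M) + σ fun i => w (Sum.inr i)) =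
        fun i => w (Sum.inr i) := by
      rw [map_add, hs, LinearMap.mem_ker.1 (Subtype.prop _), zero_add]
    have h2 : ρ ((b.symm fun k => w (Sum.inl k) : M) + σ fun i => w (Sum.inr i)) =
        b.symm fun k => w (Sum.inl k) := Subtype.ext (by rw [hρ, h1, add_sub_cancel_right])
    refine ⟨(b.symm fun k => w (Sum.inl k) : M) + σ fun i => w (Sum.inr i), funext ?_⟩
    rintro (k | i)
    · exact congrFun ((congrArg b h2).trans (b.apply_symm_apply _)) k
    · exact congrFun h1 i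

/-- Characters of a sublattice extend to the lattice. -/
lemma extend {O m : Type} [Fintype O] [Fintype m] (Λ : Submodule ℤ (O → ℤ))
    (E : Λ →ₗ[ℤ] (m → ℤ)) (z : m → ℂ) (hz : ∀ k, z k ≠ 0) :
    ∃ x : O → ℂ, (∀ o, x o ≠ 0) ∧ ∀ v : Λ, ∏ o, x o ^ v.1 o = ∏ k, z k ^ E v k := by
  classical
  let : DivisibleBy (Additive ℂˣ) ℕ := divisibleByOfSMulRightSurj _ _ (fun {n} hn z => by
    obtain ⟨w, hw⟩ := IsAlgClosed.exists_pow_nat_eq ((Additive.toMul z : ℂˣ) : ℂ)
      (Nat.pos_of_ne_zero hn)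
    have w0 : w ≠ 0 := by
      rintro rfl
      exact (Additive.toMul z).ne_zero (by rw [← hw, zero_pow hn])
    exact ⟨Additive.ofMul (Units.mk0 w w0), Additive.toMul.injective (Units.ext (by simpa using hw))⟩)
  let : DivisibleBy (Additive ℂˣ) ℤ := AddGroup.divisibleByIntOfDivisibleByNat _
  let ψ : (m → ℤ) →ₗ[ℤ] Additive ℂˣ :=
    ∑ k, (LinearMap.proj k).smulRight (Additive.ofMul (Units.mk0 (z k) (hz k)))
  obtain ⟨g, hg⟩ := (Module.Baer.of_divisible (Additive ℂˣ)).extension_property Λ.subtype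
    Λ.injective_subtype (ψ ∘ₗ E)
  refine ⟨fun o => ((Additive.toMul (g (Pi.single o 1)) : ℂˣ) : ℂ), fun o => Units.ne_zero _,
    fun v => ?_⟩
  have e1 : g v.1 = ψ (E v) := LinearMap.congr_fun hg v
  have e2 : v.1 = ∑ o, v.1 o • (Pi.single o 1 : O → ℤ) := by
    ext o
    simp [Finset.sum_apply, Pi.single_apply]
  rw [e2, map_sum] at e1
  have e3 := congrArg (fun u : Additive ℂˣ => ((Additive.toMul u : ℂˣ) : ℂ)) e1
  simp only [map_zsmul, toMul_sum, toMul_zsmul, Units.coe_prod, Units.val_zpow_eq_zpow_val] at e3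
  simpa [ψ, LinearMap.sum_apply, toMul_sum] using e3

variable {χ : Chi}

/-- The level sets of a function that is affine in one coordinate. -/
lemma aff (H : IsEuler χ) {ι : Type} [Finite ι] [DecidableEq ι] (W : Set (ι → ℂ))
    (G S : (ι → ℂ) → ℂ) (i : ι) (hW : ∀ y ∈ W, ∀ t, Function.update y i t ∈ W)
    (hS : ∀ y ∈ W, S y ≠ 0) (hu : ∀ y t, S (Function.update y i t) = S y)
    (hG : ∀ y, G y = G (Function.update y i 0) + y i * S y) (ε : ℂ)
    (hc : Con {y | y ∈ W ∧ G y = ε}) :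
    χ ι {y | y ∈ W ∧ y i = 0} = χ ι {y | y ∈ W ∧ G y = ε} := by
  refine H.bijOn hc (fun k => if k = i then 0 else MvPolynomial.X k) ?_
  have e : ∀ y : ι → ℂ, (fun k => eval y (if k = i then 0 else MvPolynomial.X k :
      MvPolynomial ι ℂ)) = Function.update y i 0 := fun y => funext fun k => by
    by_cases hk : k = i <;> simp [hk]
  rw [funext e]
  refine ⟨fun y hy => ⟨hW y hy.1 0, by simp⟩, fun y hy y' hy' h => ?_, fun z hz =>
    ⟨Function.update z i ((ε - G z) / S z), ⟨hW z hz.1 _, ?_⟩, ?_⟩⟩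
  · have h0 : Function.update y i 0 = Function.update y' i 0 := h
    have h1 : S y = S y' := by rw [← hu y 0, h0, hu]
    have h2 : y i = y' i := by
      have h3 := hy.2.trans hy'.2.symm
      rw [hG y, hG y', h0, h1, add_right_inj] at h3
      exact mul_right_cancel₀ (hS y' hy'.1) h3
    rw [← Function.update_eq_self i y, ← Function.update_idem (a := i) 0, h0, h2,
      Function.update_idem, Function.update_eq_self]
  · have h1 : Function.update z i 0 = z := by rw [← hz.2, Function.update_eq_self]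
    rw [hG, Function.update_idem, h1, hu, Function.update_self, div_mul_cancel₀ _ (hS z hz.1),
      add_sub_cancel]
  · show Function.update _ i 0 = z
    rw [Function.update_idem, ← hz.2, Function.update_eq_self]

variable {m β κ : Type} [Fintype m] [Fintype β]

/-- The slope in the direction `i`. -/
noncomputable def slope (c : κ → ℂ) (b : κ → m ⊕ β → ℤ) (T : Finset κ) (i : β)
    (y : m ⊕ β → ℂ) : ℂ :=
  ∑ j ∈ T, c j * b j (Sum.inr i) * ∏ k, y (Sum.inl k) ^ b j (Sum.inl k)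

/-- The level sets in the product of the torus and the affine space. -/
def Lev (c : κ → ℂ) (b : κ → m ⊕ β → ℤ) (T : Finset κ) (ε : ℂ) : Set (m ⊕ β → ℂ) :=
  {y | (∀ k, y (Sum.inl k) ≠ 0) ∧ ∑ j ∈ T, c j * ∏ k, y k ^ b j k = ε}

omit [Fintype β] in
lemma con_tor [Finite β] : Con {y : m ⊕ β → ℂ | ∀ k, y (Sum.inl k) ≠ 0} :=
  Con.all (Z := fun k => {y : m ⊕ β → ℂ | y (Sum.inl k) ≠ 0}) fun _ => (Con.coord _).compl

omit [Fintype β] in
lemma eval_q {y : m ⊕ β → ℂ} (h : ∀ k, y (Sum.inl k) ≠ 0) :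
    eval y (∏ k : m, MvPolynomial.X (Sum.inl k) : MvPolynomial (m ⊕ β) ℂ) ≠ 0 := by
  rw [map_prod]
  exact prod_ne_zero_iff.2 fun k _ => by simpa using h k

lemma con_lev (c : κ → ℂ) {b : κ → m ⊕ β → ℤ} {T : Finset κ}
    (hb : ∀ j ∈ T, ∀ i, 0 ≤ b j (Sum.inr i)) (ε : ℂ) : Con (Lev c b T ε) := by
  refine (Rg.sum (q := ∏ k : m, MvPolynomial.X (Sum.inl k)) T fun j hj => (Rg.const (c j)).mul
    (Rg.prod univ fun k _ => Rg.zpow k (b j k) fun h' => ?_)).con con_tor (fun _ => eval_q) ε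
  rcases k with k | i
  · exact dvd_prod_of_mem _ (mem_univ k)
  · exact absurd h' (hb j hj i).not_gt

lemma con_slope (c : κ → ℂ) (b : κ → m ⊕ β → ℤ) (T : Finset κ) (i : β) :
    Con {y : m ⊕ β → ℂ | (∀ k, y (Sum.inl k) ≠ 0) ∧ slope c b T i y = 0} :=
  (Rg.sum (q := ∏ k : m, MvPolynomial.X (Sum.inl k)) T fun j _ => (Rg.const _).mul
    (Rg.prod univ fun k _ => Rg.zpow (Sum.inl k) (b j (Sum.inl k)) fun _ =>
      dvd_prod_of_mem _ (mem_univ k))).con con_tor (fun _ => eval_q) 0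

/-- The two level sets have the same Euler characteristic. -/
lemma lev_eq (H : IsEuler χ) (c : κ → ℂ) (b : κ → m ⊕ β → ℤ) (T : Finset κ)
    (hb : ∀ j ∈ T, ∀ i, b j (Sum.inr i) = 0 ∨
      (b j (Sum.inr i) = 1 ∧ ∀ i' ≠ i, b j (Sum.inr i') = 0))
    (hs : ∀ y : m ⊕ β → ℂ, (∀ k, y (Sum.inl k) ≠ 0) → ∃ i, slope c b T i y ≠ 0) :
    χ _ (Lev c b T 0) = χ _ (Lev c b T 1) := by
  classical
  have h0 : ∀ j ∈ T, ∀ i, 0 ≤ b j (Sum.inr i) := fun j hj i => by
    rcases hb j hj i with h | h <;> simp [h]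
  have hc : ∀ (ε : ℂ) (J : Finset β),
      Con (Lev c b T ε ∩ {y | univ.filter (fun i => slope c b T i y ≠ 0) = J}) := fun ε J => by
    refine ((con_lev c h0 ε).inter (Con.all (Z := fun i => {y : m ⊕ β → ℂ |
      ¬ ((∀ k, y (Sum.inl k) ≠ 0) ∧ slope c b T i y = 0) ↔ i ∈ J}) fun i => ?_)).of_iff fun y =>
      and_congr_right fun hy => by simp [Finset.ext_iff, hy.1]
    by_cases hi : i ∈ J
    · exact (con_slope c b T i).compl.of_iff (by simp [hi])
    · exact (con_slope c b T i).of_iff (by simp [hi])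
  have hf : ∀ ε : ℂ, χ _ (Lev c b T ε) = ∑ J : Finset β,
      χ _ (Lev c b T ε ∩ {y | univ.filter (fun i => slope c b T i y ≠ 0) = J}) := fun ε => by
    simpa using H.fiber (X := Lev c b T ε) (fun y => univ.filter fun i => slope c b T i y ≠ 0) univ
      fun J _ => hc ε J
  rw [hf, hf]
  refine sum_congr rfl fun J _ => ?_
  rcases J.eq_empty_or_nonempty with rfl | ⟨i, hi⟩
  · have : ∀ ε : ℂ, Lev c b T ε ∩ {y | univ.filter (fun i => slope c b T i y ≠ 0) = ∅} = ∅ :=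
      fun ε => Set.eq_empty_of_forall_notMem fun y hy => by
        obtain ⟨i, hi⟩ := hs y hy.1.1
        exact filter_eq_empty_iff.1 hy.2 (mem_univ i) hi
    rw [this, this]
  have hu : ∀ i' y t, slope c b T i' (Function.update y (Sum.inr i) t) = slope c b T i' y :=
    fun i' y t => by simp [slope]
  have key : ∀ ε : ℂ, χ _ {y : m ⊕ β → ℂ | y ∈ {y : m ⊕ β → ℂ | (∀ k, y (Sum.inl k) ≠ 0) ∧
      univ.filter (fun i => slope c b T i y ≠ 0) = J} ∧ y (Sum.inr i) = 0} =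
      χ _ (Lev c b T ε ∩ {y | univ.filter (fun i => slope c b T i y ≠ 0) = J}) := fun ε => by
    have e : Lev c b T ε ∩ {y | univ.filter (fun i => slope c b T i y ≠ 0) = J} =
        {y : m ⊕ β → ℂ | y ∈ {y : m ⊕ β → ℂ | (∀ k, y (Sum.inl k) ≠ 0) ∧
          univ.filter (fun i => slope c b T i y ≠ 0) = J} ∧
          ∑ j ∈ T, c j * ∏ k, y k ^ b j k = ε} := Set.ext fun y => and_right_comm
    rw [e]
    refine aff H _ (fun y => ∑ j ∈ T, c j * ∏ k, y k ^ b j k) (slope c b T i) (Sum.inr i)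
      (fun y hy t => ?_) (fun y hy => ?_) (hu i) (fun y => ?_) ε (e ▸ hc ε J)
    · exact ⟨by simpa using hy.1, by simpa only [hu] using hy.2⟩
    · rw [← hy.2] at hi
      exact (mem_filter.1 hi).2
    · rw [slope, mul_sum, ← sum_add_distrib]
      refine sum_congr rfl fun j hj => ?_
      simp only [Fintype.prod_sum_type, ne_eq, reduceCtorEq, not_false_eq_true,
        Function.update_of_ne]
      rcases hb j hj i with h | h
      · have : ∏ i', Function.update y (Sum.inr i) 0 (Sum.inr i') ^ b j (Sum.inr i') =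
            ∏ i', y (Sum.inr i') ^ b j (Sum.inr i') := prod_congr rfl fun i' _ => by
          by_cases h' : i' = i <;> simp [h', h]
        rw [this, h]
        simp
      · rw [prod_eq_single i (fun i' _ h' => by simp [h.2 i' h']) (by simp),
          prod_eq_single i (fun i' _ h' => by simp [h.2 i' h']) (by simp), h.1]
        simp
        ring
  rw [← key, ← key]

end ColZeroAux

open ColZeroAux in
theorem colZero : ColZeroStmt := by
  intro χ H ι κ _ _ _ a c Ω hΩ T B hL hO hS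
  classical
  have hA : ∀ j ∈ T, Ah a j ∈ Lam (LT a T) := fun j hj e he => he j hj
  have h1 : ∀ j ∈ T, ∀ i ∈ B, a j i = 0 ∨ (a j i = 1 ∧ ∀ i' ∈ B, i' ≠ i → a j i' = 0) :=
    fun j hj i hi => (eq_or_ne (a j i) 0).imp_right fun h0 => ⟨hL.eq_one hj hi h0,
      fun i' hi' hne => by
        have h1 : ∑ t ∈ {i, i'}, a j t ≤ ∑ t ∈ B, a j t :=
          sum_le_sum_of_subset (insert_subset hi (singleton_subset_iff.2 hi'))
        rw [sum_pair hne.symm] at h1
        have := hL j hj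
        omega⟩
  let π : Lam (LT a T) →ₗ[ℤ] (B → ℤ) :=
    LinearMap.pi fun i => LinearMap.proj (some i.1) ∘ₗ (Lam (LT a T)).subtype
  have hπ : Function.Surjective π := by
    refine LinearMap.range_eq_top.1 (eq_top_iff.2 ((Pi.basisFun ℤ B).span_eq.symm.le.trans
      (Submodule.span_le.2 ?_)))
    rintro _ ⟨i, rfl⟩
    obtain ⟨j, hj, h0⟩ := hO i.1 i.2
    have h2 := (h1 j hj i.1 i.2).resolve_left h0
    refine ⟨⟨Ah a j, hA j hj⟩, funext fun i' => ?_⟩
    by_cases h : i' = i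
    · simp [π, Ah, h, h2.1]
    · simp [π, Ah, h, h2.2 i'.1 i'.2 fun e => h (Subtype.ext e)]
  obtain ⟨n, E, hE, hr⟩ := exists_E π hπ
  have hr' : ∀ v (i : B), E v (Sum.inr i) = v.1 (some i.1) := hr
  obtain ⟨b, hb⟩ : ∃ b : κ → Fin n ⊕ B → ℤ, ∀ j hj, E ⟨Ah a j, hA j hj⟩ = b j :=
    ⟨fun j => if hj : j ∈ T then E ⟨Ah a j, hA j hj⟩ else 0, fun j hj => by simp [hj]⟩
  have hb' : ∀ j ∈ T, ∀ i : B, b j (Sum.inr i) = a j i.1 := fun j hj i => by
    rw [← hb j hj, hr']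
    rfl
  have hm : ∀ (A : Finset ι) (v : Option ι → ℤ), v ∈ Lam (LT a T ⊔ Submodule.span ℚ
      ((fun i => (Pi.single (some i) 1 : Option ι → ℚ)) '' (A : Set ι))) ↔
      v ∈ Lam (LT a T) ∧ ∀ i ∈ A, v (some i) = 0 := fun A v => by
    refine ⟨fun h => ⟨fun e he => h e (Submodule.mem_sup_left he), fun i hi => ?_⟩,
      fun h e he => ?_⟩
    · simpa [zq] using h _ (Submodule.mem_sup_right (Submodule.subset_span ⟨i, hi, rfl⟩))
    · obtain ⟨e1, h2, e2, h3, rfl⟩ := Submodule.mem_sup.1 he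
      rw [dotProduct_add, h.1 e1 h2, dot_zero_of_span h3 fun i hi => by simp [zq, h.2 i hi],
        add_zero]
  let t : (Fin n ⊕ B → ℂ) → Finset ι := fun y =>
    B.filter fun i => ∀ hi : i ∈ B, y (Sum.inr ⟨i, hi⟩) = 0
  let AA : Finset ι → Set (Fin n ⊕ B) := fun A => {k | ∃ i : B, k = Sum.inr i ∧ i.1 ∈ A}
  have hx : ∀ A ∈ B.powerset, ∀ ε, XS c b (T.filter fun j => ∀ i ∈ A, a j i = 0) (AA A) ε =
      Lev c b T ε ∩ {y | t y = A} := fun A hAB ε => by
    have hAB := mem_powerset.1 hAB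
    ext y
    have e1 : (∀ k, y k = 0 ↔ k ∈ AA A) ↔ (∀ k, y (Sum.inl k) ≠ 0) ∧ t y = A := by
      simp only [AA, t, Sum.forall, Set.mem_ofPred_eq, reduceCtorEq, false_and, exists_false,
        iff_false, Sum.inr.injEq, exists_eq_left', Finset.ext_iff, mem_filter, Subtype.forall]
      exact and_congr_right fun _ => ⟨fun h i => ⟨fun h2 => (h i h2.1).1 (h2.2 h2.1),
        fun h2 => ⟨hAB h2, fun h3 => (h i h3).2 h2⟩⟩, fun h i hi =>
        ⟨fun h2 => (h i).1 ⟨hi, fun _ => h2⟩, fun h2 => ((h i).2 h2).2 hi⟩⟩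
    have e2 : (∀ k, y k = 0 ↔ k ∈ AA A) →
        ∑ j ∈ T.filter (fun j => ∀ i ∈ A, a j i = 0), c j * ∏ k, y k ^ b j k =
        ∑ j ∈ T, c j * ∏ k, y k ^ b j k := fun h => sum_filter_of_ne fun j hj h2 i hi => by
      by_contra h3
      refine right_ne_zero_of_mul h2 (prod_eq_zero (mem_univ (Sum.inr ⟨i, hAB hi⟩)) ?_)
      rw [(h _).2 ⟨⟨i, hAB hi⟩, rfl, hi⟩, hb' j hj, zero_zpow _ (Nat.cast_ne_zero.2 h3)]
    exact ⟨fun h => ⟨⟨(e1.1 h.1).1, (e2 h.1).symm.trans h.2⟩, (e1.1 h.1).2⟩,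
      fun h => ⟨e1.2 ⟨h.1.1, h.2⟩, (e2 (e1.2 ⟨h.1.1, h.2⟩)).trans h.1.2⟩⟩
  have hf : ∀ ε, χ _ (Lev c b T ε) =
      ∑ A ∈ B.powerset, χ _ (XS c b (T.filter fun j => ∀ i ∈ A, a j i = 0) (AA A) ε) := fun ε => by
    rw [sum_congr rfl fun A hA => by rw [hx A hA], ← H.fiber t _ fun A hA => ?_]
    · refine congrArg _ (Set.inter_eq_left.2 fun y _ => ?_).symm
      exact mem_powerset.2 (filter_subset _ _)
    · rw [← hx A hA]
      refine Con.xs c b _ _ (fun j hj k hk => ?_) ε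
      obtain ⟨i, rfl, -⟩ := hk
      rw [hb' j (mem_filter.1 hj).1]
      exact Nat.cast_nonneg _
  have hl := lev_eq H c b T (fun j hj i => ?_) (fun y hy => ?_)
  · rw [hf, hf, ← sub_eq_zero, ← sum_sub_distrib] at hl
    rw [← hl]
    refine sum_congr rfl fun A hAB => hΩ _ _ _ (AA A)
      (E ∘ₗ Submodule.inclusion fun v hv => ((hm A v).1 hv).1) b
      (hE.1.comp (Submodule.inclusion_injective _)) (fun w => ⟨?_, fun h => ?_⟩) fun j hj => ?_
    · rintro ⟨v, rfl⟩ _ ⟨i, rfl, hi⟩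
      exact (hr' _ i).trans (((hm A v).1 v.2).2 i hi)
    · obtain ⟨v, rfl⟩ := hE.2 w
      exact ⟨⟨v, (hm A v).2 ⟨v.2, fun i hi => (hr' v ⟨i, mem_powerset.1 hAB hi⟩).symm.trans
        (h _ ⟨_, rfl, hi⟩)⟩⟩, rfl⟩
    · obtain ⟨h2, h3⟩ := mem_filter.1 hj
      exact ⟨(hm A _).2 ⟨hA j h2, fun i hi => by simp [Ah, h3 i hi]⟩, hb j h2⟩
  · simp only [hb' j hj, Nat.cast_eq_zero, Nat.cast_eq_one]
    exact (h1 j hj i.1 i.2).imp_right fun h =>
      ⟨h.1, fun i' hne => h.2 i'.1 i'.2 fun e => hne (Subtype.ext e)⟩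
  · by_contra! h
    obtain ⟨x, h2, h3⟩ := extend _ (LinearMap.funLeft ℤ ℤ Sum.inl ∘ₗ E) (fun k => y (Sum.inl k)) hy
    refine hS ⟨fun i => x (some i), fun i => h2 _, fun i hi => ?_⟩
    rw [← mul_zero (x none), ← h ⟨i, hi⟩, ColZeroAux.slope, mul_sum]
    refine sum_congr rfl fun j hj => ?_
    have h4 := h3 ⟨Ah a j, hA j hj⟩
    simp only [LinearMap.comp_apply, LinearMap.funLeft_apply, hb j hj, Fintype.prod_option, Ah,
      Option.elim_none, Option.elim_some, zpow_neg_one, zpow_natCast] at h4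
    rw [← h4, hb' j hj, Int.cast_natCast]
    have := h2 none
    field_simp

end Pool.Agent.MP_ee8c61_ag.H36
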