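import Pool.Agent.MP_ee8c61_ag.H36.BasicE
import Pool.Agent.MP_ee8c61_ag.H36.BasicS

/-!
The weights of the cones of the fan.
-/

namespace Pool.Agent.MP_ee8c61_ag.H36

open Finset MvPolynomial Matrix

namespace ConeAux

variable {N : ℕ} (g : MvPolynomial (Fin N) ℂ) (M : Matrix (Fin N) (Fin N) ℕ)

/-- The coordinates of a character in the chart. -/
noncomputable def E0 : (Option (Fin N) → ℤ) →ₗ[ℤ] (Option (Fin N) → ℤ) where
  toFun v := fun o => o.elim (-(v none)) (fun l => v ⬝ᵥ fun o' => (ray g M l o' : ℤ))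
  map_add' v w := funext fun o => by
    cases o
    · simp [add_comm]
    · simp [add_dotProduct]
  map_smul' z v := funext fun o => by
    cases o
    · simp
    · exact smul_dotProduct z v _

lemma E0_none (v : Option (Fin N) → ℤ) : E0 g M v none = -(v none) := rfl

lemma E0_some (v : Option (Fin N) → ℤ) (l : Fin N) : E0 g M v (some l) =
    v none * ord g (M l) + (M.map (Nat.cast : ℕ → ℤ) *ᵥ fun i => v (some i)) l := by
  simp [E0, ray, dotProduct, Fintype.sum_option, mulVec, mul_comm]

lemma E0_cast (v : Option (Fin N) → ℤ) (l : Fin N) :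
    ((E0 g M v (some l) : ℤ) : ℚ) = zq v ⬝ᵥ cq (ray g M l) := by
  simp [E0, zq, cq, dotProduct]

variable {M}

lemma E0_inj (h : IsUnit (M.map (Nat.cast : ℕ → ℤ)).det) : Function.Injective (E0 g M) := by
  rw [injective_iff_map_eq_zero]
  intro v hv
  have h0 : v none = 0 := by simpa [E0_none] using congrFun hv none
  have h1 : (fun i => v (some i)) = 0 := by
    refine eq_zero_of_mulVec_eq_zero h.ne_zero (funext fun l => ?_)
    simpa [E0_some, h0] using congrFun hv (some l)
  ext (_ | i)
  · exact h0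
  · exact congrFun h1 i

lemma E0_surj (h : IsUnit (M.map (Nat.cast : ℕ → ℤ)).det) : Function.Surjective (E0 g M) := by
  intro w
  obtain ⟨x, hx⟩ := mulVec_surjective_iff_isUnit.2 ((isUnit_iff_isUnit_det _).2 h)
    fun l => w (some l) + w none * ord g (M l)
  refine ⟨fun o => o.elim (-(w none)) x, funext fun o => ?_⟩
  cases o with
  | none => simp [E0_none]
  | some l =>
    rw [E0_some]
    have := congrFun hx l
    simp only [Option.elim]
    rw [this]
    ring

lemma mem_iff (p : Cone N) (v : Option (Fin N) → ℤ) :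
    v ∈ Lam (LC g p) ↔ ∀ l ∈ p.2, E0 g p.1 v (some l) = 0 := by
  rw [mem_Lam]
  constructor
  · intro h l hl
    have := h _ (Submodule.subset_span ⟨l, hl, rfl⟩)
    rw [← E0_cast] at this
    exact_mod_cast this
  · intro h e he
    induction he using Submodule.span_induction with
    | mem x hx =>
      obtain ⟨l, hl, rfl⟩ := hx
      show zq v ⬝ᵥ cq (ray g p.1 l) = 0
      rw [← E0_cast, h l hl, Int.cast_zero]
    | zero => exact dotProduct_zero _
    | add x y _ _ hx hy => rw [dotProduct_add, hx, hy, add_zero]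
    | smul z x _ hx => rw [dotProduct_smul, hx, smul_zero]

variable (M)

lemma ord_le (j : g.support) (l : Fin N) : ord g (M l) ≤ ∑ i, M l i * j.1 i :=
  ciInf_le (f := fun a : g.support => ∑ i, M l i * a.1 i) (OrderBot.bddBelow _) j

lemma b_none (j : g.support) : E0 g M (Ah (ex g) j) none = 1 := by simp [E0_none, Ah]

lemma b_some (j : g.support) (l : Fin N) :
    E0 g M (Ah (ex g) j) (some l) = ((∑ i, M l i * j.1 i - ord g (M l) : ℕ) : ℤ) := by
  rw [Nat.cast_sub (ord_le g M j l), E0_some]
  simp [Ah, mulVec, dotProduct, sub_eq_neg_add]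

lemma mem_TC (p : Cone N) (j : g.support) :
    j ∈ TC g p ↔ ∀ l ∈ p.2, ∑ i, p.1 l i * j.1 i - ord g (p.1 l) = 0 := by
  simp only [TC, mem_filter, mem_univ, true_and]
  refine forall₂_congr fun l _ => ?_
  have := ord_le g p.1 j l
  omega

lemma sum_eq (p : Cone N) (y : Option (Fin N) → ℂ) (hy : (fun l => y (some l)) ∈ orbit p) :
    ∑ j ∈ TC g p, co g j * ∏ k, y k ^ E0 g p.1 (Ah (ex g) j) k =
      y none * strict g p.1 fun l => y (some l) := by
  rw [strict, ← sum_coe_sort g.support, mul_sum]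
  refine (sum_congr rfl fun j _ => ?_).trans (sum_subset (subset_univ (TC g p)) fun j _ hj => ?_)
  · rw [Fintype.prod_option, b_none, zpow_one]
    simp only [b_some, zpow_natCast]
    ring
  · rw [mem_TC] at hj
    push Not at hj
    obtain ⟨l, hl, h⟩ := hj
    rw [prod_eq_zero (mem_univ l) (by rw [show y (some l) = 0 from (hy l).2 hl, zero_pow h])]
    simp

lemma con_zero : Con {y | strict g M y = 0} :=
  (Con.zero (∑ a ∈ g.support, C (coeff a g) * ∏ l, X l ^ (∑ i, M l i * a i - ord g (M l)))).of_iff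
    fun y => by simp [strict]

lemma con_orbit (p : Cone N) : Con (orbit p) := Con.orb (p.2 : Set (Fin N))

lemma mem_XS (p : Cone N) (ε : ℂ) (y : Option (Fin N) → ℂ) :
    y ∈ XS (co g) (fun j => E0 g p.1 (Ah (ex g) j)) (TC g p) (some '' (p.2 : Set (Fin N))) ε ↔
      (fun l => y (some l)) ∈ orbit p ∧ y none ≠ 0 ∧
        y none * strict g p.1 (fun l => y (some l)) = ε := by
  have h : (∀ k, y k = 0 ↔ k ∈ some '' (p.2 : Set (Fin N))) ↔
      (fun l => y (some l)) ∈ orbit p ∧ y none ≠ 0 := by
    rw [Option.forall, and_comm]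
    simp [orbit]
  show (_ ∧ _) ↔ _
  rw [h, and_assoc]
  exact and_congr_right fun hy => and_congr_right fun _ => by rw [sum_eq g p y hy]

end ConeAux

open ConeAux in
theorem cone : ConeStmt := by
  intro χ H N g Ω hΩ p hp _
  constructor
  · rw [hΩ (Lam (LC g p)) (TC g p) (Option (Fin N)) (some '' (p.2 : Set (Fin N)))
      (E0 g p.1 ∘ₗ (Lam (LC g p)).subtype) (fun j => E0 g p.1 (Ah (ex g) j))
      ((E0_inj g hp).comp Subtype.val_injective) (fun w => ?_) (fun j hj => ⟨?_, rfl⟩), psi]
    · have h0 : χ _ (XS (co g) (fun j => E0 g p.1 (Ah (ex g) j)) (TC g p)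
          (some '' (p.2 : Set (Fin N))) 0) = 0 := by
        rw [← H.torus ((con_orbit p).inter (con_zero g p.1))]
        congr 1
        ext y
        rw [mem_XS]
        exact ⟨fun h => ⟨⟨h.1, (mul_eq_zero.1 h.2.2).resolve_left h.2.1⟩, h.2.1⟩,
          fun h => ⟨h.1.1, h.2, mul_eq_zero_of_right _ h.1.2⟩⟩
      rw [h0, zero_sub, neg_inj]
      refine (H.bijOn (Con.xs _ _ _ _ ?_ 1) (fun i => X (some i)) ?_).symm
      · rintro j - _ ⟨l, -, rfl⟩
        rw [b_some]
        exact Int.natCast_nonneg _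
      · simp only [eval_X]
        refine ⟨fun y hy => ?_, fun y hy y' hy' h => ?_, fun x hx =>
          ⟨fun o => o.elim (strict g p.1 x)⁻¹ x, ?_, rfl⟩⟩
        · rw [mem_XS] at hy
          exact ⟨hy.1, right_ne_zero_of_mul_eq_one hy.2.2⟩
        · rw [mem_XS] at hy hy'
          ext (_ | i)
          · have h3 := hy'.2.2
            rw [← show (fun i => y (some i)) = fun i => y' (some i) from h] at h3
            exact mul_right_cancel₀ (right_ne_zero_of_mul_eq_one h3) (hy.2.2.trans h3.symm)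
          · exact congrFun h i
        · rw [mem_XS]
          exact ⟨hx.1, inv_ne_zero hx.2, inv_mul_cancel₀ hx.2⟩
    · constructor
      · rintro ⟨v, rfl⟩ _ ⟨l, hl, rfl⟩
        exact (mem_iff g p v).1 v.2 l hl
      · intro h
        obtain ⟨v, rfl⟩ := E0_surj g hp w
        exact ⟨⟨v, (mem_iff g p v).2 fun l hl => h _ ⟨l, hl, rfl⟩⟩, rfl⟩
    · refine (mem_iff g p _).2 fun l hl => ?_
      rw [b_some, (mem_TC g p j).1 hj l hl, Nat.cast_zero]
  · have h1 : χ _ (orbit p ∩ {y | strict g p.1 y ≠ 0}) + χ _ (orbit p ∩ {y | strict g p.1 y = 0}) =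
        χ _ (orbit p) := by
      rw [H.split (con_orbit p) (con_zero g p.1), add_comm]
      rfl
    rw [h1]
    split_ifs with hu
    · rw [hΩ (Lam ⊤) ∅ (Fin N) Set.univ 0 (fun _ _ => 0) (fun v w _ => ?_) (fun w => ?_)
        (by simp), psi]
      · have e0 : XS (co g) (fun _ (_ : Fin N) => (0 : ℤ)) ∅ Set.univ 0 = orbit p := by
          ext y
          simp [XS, orbit, hu]
        have e1 : XS (co g) (fun _ (_ : Fin N) => (0 : ℤ)) ∅ Set.univ 1 = ∅ := by
          ext y
          simp [XS]
        rw [e0, e1, H.empty, sub_zero]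
      · have : ∀ v : Lam (⊤ : Submodule ℚ (Option (Fin N) → ℚ)), v = 0 := fun v => by
          ext o
          simpa [zq] using v.2 (Pi.single o 1) trivial
        rw [this v, this w]
      · simp [funext_iff]
    · obtain ⟨l, hl⟩ : ∃ l, l ∉ p.2 := by simpa [eq_univ_iff_forall] using hu
      refine H.torus' (con_orbit p) l (fun x hx e => hl ((hx l).1 e)) fun x hx z hz k => ?_
      by_cases hk : k = l
      · simp [hk, hz, hl]
      · simpa [hk] using hx k

end Pool.Agent.MP_ee8c61_ag.H36
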