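import Pool.Agent.MP_ee8c61_ag.H36.BasicR

/-!
The weighted lattice sum, computed on the cones of the fan.
-/

namespace Pool.Agent.MP_ee8c61_ag.H36

open Finset Filter Topology

namespace FanTAux

variable {N : ℕ}

/-- The rows of a matrix, with levels. -/
def ry (n : Fin N → ℕ) (M : Matrix (Fin N) (Fin N) ℕ) (l : Fin N) : Option (Fin N) → ℕ :=
  fun o => o.elim (n l) (M l)

/-- The exponent part of a lattice point. -/
def xs (u : Option (Fin N) → ℕ) : Fin N → ℕ := fun k => u (some k)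

lemma li (n : Fin N → ℕ) {M : Matrix (Fin N) (Fin N) ℕ}
    (h : IsUnit (M.map (Nat.cast : ℕ → ℤ)).det) : LinearIndependent ℚ fun l => cq (ry n M l) := by
  have h1 : IsUnit (M.map (Nat.cast : ℕ → ℚ)) := by
    rw [Matrix.isUnit_iff_isUnit_det]
    have h2 := h.map (Int.castRingHom ℚ)
    rw [RingHom.map_det] at h2
    exact h2
  exact LinearIndependent.of_comp (LinearMap.funLeft ℚ ℚ some)
    (Matrix.linearIndependent_rows_of_isUnit h1)

lemma cq_sum (ρ : Fin N → Option (Fin N) → ℕ) (t : Fin N → ℕ) :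
    cq (∑ l, t l • ρ l) = ∑ l, (t l : ℚ) • cq (ρ l) := by
  funext o
  simp [cq]

lemma mem_Rays {n : Fin N → ℕ} {M : Matrix (Fin N) (Fin N) ℕ} {S : Finset (Fin N)}
    {u : Option (Fin N) → ℕ} : u ∈ Rays {0} (ry n M) S ↔
      ∃ t : Fin N → ℕ, (∀ l, 0 < t l ↔ l ∈ S) ∧ u none = ∑ l, t l * n l ∧
        xs u = Matrix.vecMul t M := by
  constructor
  · rintro ⟨_, rfl, t, ht, rfl⟩
    exact ⟨t, ht, by simp [ry], funext fun k => by simp [xs, ry, Matrix.vecMul, dotProduct]⟩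
  · rintro ⟨t, ht, h1, h2⟩
    refine ⟨0, rfl, t, ht, funext fun o => ?_⟩
    rcases o with _ | k
    · simp [ry, h1]
    · simpa [xs, ry, Matrix.vecMul, dotProduct] using congrFun h2 k

lemma tend_Rays (n : Fin N → ℕ) {M : Matrix (Fin N) (Fin N) ℕ}
    (h : IsUnit (M.map (Nat.cast : ℕ → ℤ)).det) (S : Finset (Fin N)) {s : ℕ} (hs : 1 ≤ s) :
    Tendsto (fun r => (1 - r) ^ #S * SS (Rays {0} (ry n M) S) s r) (𝓝[<] 1)
      (𝓝 (∏ l ∈ S, 1 / ((n l : ℝ) * s + ((∑ i, M l i : ℕ) : ℝ)))) := by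
  have h0 : ∀ l ∈ S, ry n M l ≠ 0 := fun l _ e => (li n h).ne_zero l (by
    rw [e]
    funext o
    simp [cq])
  have h1 : Uniq {0} (ry n M) S := by
    rintro _ rfl _ rfl t t' - - e
    rw [zero_add, zero_add] at e
    have e2 := congrArg cq e
    rw [cq_sum, cq_sum] at e2
    exact funext fun l => Nat.cast_injective (R := ℚ)
      (Fintype.linearIndependent_iffₛ.1 (li n h) _ _ e2 l)
  have h2 : ∀ l, (ell s (ry n M l) : ℝ) = (n l : ℝ) * s + ((∑ i, M l i : ℕ) : ℝ) := fun l => by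
    simp [ell, ry, mul_comm]
  have h3 := tend_geoF hs h0
  simp only [h2] at h3
  refine h3.congr' (ev_unit.mono fun r hr => ?_)
  simp only [SS_rays hs hr.1 hr.2 h1 h0, SS_single]
  simp [ell]

lemma tend_H {s : ℕ} (hs : 1 ≤ s) :
    Tendsto (fun r => (1 - r) ^ N * SS {u : Option (Fin N) → ℕ | u none = 0} s r) (𝓝[<] 1)
      (𝓝 1) := by
  have h1 := tend_Rays (fun _ => 0) (M := (1 : Matrix (Fin N) (Fin N) ℕ)) (by
    rw [Matrix.map_one _ Nat.cast_zero Nat.cast_one, Matrix.det_one]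
    exact isUnit_one) univ hs
  have h2 : Rays {0} (ry (fun _ => 0) (1 : Matrix (Fin N) (Fin N) ℕ)) univ =
      (· + fun o => o.elim 0 fun _ => 1) '' {u : Option (Fin N) → ℕ | u none = 0} := by
    ext u
    rw [mem_Rays]
    constructor
    · rintro ⟨t, ht, h3, h4⟩
      refine ⟨u - fun o => o.elim 0 fun _ => 1, by simpa using h3, funext fun o => ?_⟩
      rcases o with _ | k
      · simp
      · have h5 := congrFun h4 k
        have h6 := (ht k).2 (mem_univ k)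
        simp only [xs, Matrix.vecMul_one] at h5
        simp only [Pi.add_apply, Pi.sub_apply, Option.elim_some]
        omega
    · rintro ⟨v, hv, rfl⟩
      exact ⟨_, fun l => by simp [xs], by simpa using hv, (Matrix.vecMul_one _).symm⟩
  have h3 : ∀ l : Fin N, ∑ i, (1 : Matrix (Fin N) (Fin N) ℕ) l i = 1 := fun l => by
    simp [Matrix.one_apply]
  simp only [h2, h3, SS_shift, card_univ, Fintype.card_fin, Nat.cast_zero, zero_mul, zero_add,
    Nat.cast_one, div_one, prod_const_one] at h1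
  have h4 := h1.div (tend_pow (ell s fun o : Option (Fin N) => o.elim 0 fun _ => 1)) one_ne_zero
  rw [div_one] at h4
  refine h4.congr' (ev_unit.mono fun r hr => ?_)
  have := hr.1.ne'
  simp only [Pi.div_apply]
  field_simp

variable {g : MvPolynomial (Fin N) ℂ} {Φ : Finset (Cone N)} {p : Cone N} {u : Option (Fin N) → ℕ}

lemma ord_le (w : Fin N → ℕ) (j : g.support) : ord g w ≤ ∑ i, w i * j.1 i :=
  ciInf_le' (fun a : g.support => ∑ i, w i * a.1 i) j

lemma sl_ex (j : g.support) : sl (ex g) u j = ((∑ i, xs u i * j.1 i : ℕ) : ℤ) - u none := by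
  rw [sl_eq]
  push_cast
  rfl

lemma vec_dot (t : Fin N → ℕ) (M : Matrix (Fin N) (Fin N) ℕ) (a : Fin N →₀ ℕ) :
    ∑ i, Matrix.vecMul t M i * a i = ∑ l, t l * ∑ i, M l i * a i := by
  simp only [Matrix.vecMul, dotProduct, sum_mul, mul_sum, mul_assoc]
  exact sum_comm

lemma TC_ne (hΦ : IsFan g Φ) (hp : p ∈ Φ) : (TC g p).Nonempty := by
  obtain ⟨a, ha, h⟩ := (hΦ.1 p hp).2
  exact ⟨⟨a, ha⟩, mem_filter.2 ⟨mem_univ _, h⟩⟩

lemma ord_vec (hΦ : IsFan g Φ) (hp : p ∈ Φ) {t : Fin N → ℕ} (ht : ∀ l, 0 < t l ↔ l ∈ p.2) :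
    ord g (Matrix.vecMul t p.1) = ∑ l, t l * ord g (p.1 l) := by
  obtain ⟨j, hj⟩ := TC_ne hΦ hp
  have : Nonempty g.support := ⟨j⟩
  refine le_antisymm ((ord_le _ j).trans (le_of_eq ?_)) (le_ciInf fun j' => ?_)
  · rw [vec_dot]
    refine sum_congr rfl fun l _ => ?_
    rcases Nat.eq_zero_or_pos (t l) with h | h
    · simp [h]
    · rw [(mem_filter.1 hj).2 l ((ht l).1 h)]
  · rw [vec_dot]
    exact sum_le_sum fun l _ => Nat.mul_le_mul_left _ (ord_le _ j')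

lemma mem_KK (hΦ : IsFan g Φ) : u ∈ KK (ex g) ↔ 0 < u none ∧ u none ≤ ord g (xs u) := by
  obtain ⟨p, ⟨hp, -⟩, -⟩ := hΦ.2 0
  obtain ⟨j, -⟩ := TC_ne hΦ hp
  have : Nonempty g.support := ⟨j⟩
  refine and_congr_right fun _ => ⟨fun h => le_ciInf fun j => ?_, fun h j => ?_⟩
  · have := h j
    rw [sl_ex] at this
    omega
  · have := ord_le (xs u) j
    rw [sl_ex]
    omega

/-- The lifted lattice points of the relative interior of a cone. -/
def YY (g : MvPolynomial (Fin N) ℂ) (p : Cone N) : Set (Option (Fin N) → ℕ) :=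
  Rays {0} (ry (fun l => ord g (p.1 l)) p.1) p.2

/-- The order of `g` is positive on the cone. -/
def Lev (g : MvPolynomial (Fin N) ℂ) (p : Cone N) : Prop := ∃ l ∈ p.2, 0 < ord g (p.1 l)

/-- The product of the factors of the rays. -/
noncomputable def PP (g : MvPolynomial (Fin N) ℂ) (p : Cone N) (s : ℕ) : ℝ :=
  ∏ l ∈ p.2, 1 / ((ord g (p.1 l) : ℝ) * s + ((∑ i, p.1 l i : ℕ) : ℝ))

lemma Tu_YY (hu : u ∈ YY g p) : Tu (ex g) u = TC g p := by
  obtain ⟨t, ht, h1, h2⟩ := mem_Rays.1 hu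
  ext j
  rw [mem_Tu, sl_ex, sub_eq_zero, Nat.cast_inj, h1, h2, vec_dot, eq_comm,
    sum_eq_sum_iff_of_le fun l _ => Nat.mul_le_mul_left (t l) (ord_le (p.1 l) j), TC, mem_filter]
  refine ⟨fun h => ⟨mem_univ _, fun l hl =>
    (Nat.eq_of_mul_eq_mul_left ((ht l).2 hl) (h l (mem_univ l))).symm⟩, fun h l _ => ?_⟩
  rcases Nat.eq_zero_or_pos (t l) with h3 | h3
  · simp [h3]
  · rw [h.2 l ((ht l).1 h3)]

lemma cq_YY (hu : u ∈ YY g p) : cq u ∈ LC g p := by
  obtain ⟨_, rfl, t, ht, rfl⟩ := hu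
  rw [zero_add, cq_sum]
  refine Submodule.sum_mem _ fun l _ => ?_
  rcases Nat.eq_zero_or_pos (t l) with h | h
  · simp [h]
  · exact Submodule.smul_mem _ _ (Submodule.subset_span ⟨l, (ht l).1 h, rfl⟩)

lemma LC_le : LC g p ≤ LT (ex g) (TC g p) := by
  refine Submodule.span_le.2 ?_
  rintro _ ⟨l, hl, rfl⟩ j hj
  rw [← sl_cast, sl_ex]
  have h : ∑ i, xs (ray g p.1 l) i * j.1 i = ray g p.1 l none := (mem_filter.1 hj).2 l hl
  rw [h, sub_self, Int.cast_zero]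

lemma rank_LC (hΦ : IsFan g Φ) (hp : p ∈ Φ) : Module.finrank ℚ (LC g p) = #p.2 := by
  have h := finrank_span_eq_card ((li (fun l => ord g (p.1 l)) (hΦ.1 p hp).1).comp
    (Subtype.val : p.2 → Fin N) Subtype.val_injective)
  rw [Fintype.card_coe] at h
  rw [← h, LC, Set.image_eq_range]
  rfl

lemma pos_YY (hu : u ∈ YY g p) : 0 < u none ↔ Lev g p := by
  obtain ⟨t, ht, h1, -⟩ := mem_Rays.1 hu
  rw [h1, Nat.pos_iff_ne_zero, Ne, sum_eq_zero_iff]
  push Not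
  constructor
  · rintro ⟨l, -, h⟩
    exact ⟨l, (ht l).1 (Nat.pos_of_ne_zero (left_ne_zero_of_mul h)),
      Nat.pos_of_ne_zero (right_ne_zero_of_mul h)⟩
  · rintro ⟨l, hl, h⟩
    exact ⟨l, mem_univ l, mul_ne_zero ((ht l).2 hl).ne' h.ne'⟩

/-- The cone of a lattice point. -/
noncomputable def cn (hΦ : IsFan g Φ) (u : Option (Fin N) → ℕ) : Cone N := (hΦ.2 (xs u)).choose

lemma cn_mem (hΦ : IsFan g Φ) : cn hΦ u ∈ Φ := (hΦ.2 (xs u)).choose_spec.1.1

lemma mem_YY (hΦ : IsFan g Φ) (hp : p ∈ Φ) :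
    u ∈ YY g p ↔ u none = ord g (xs u) ∧ cn hΦ u = p := by
  constructor
  · intro hu
    obtain ⟨t, ht, h1, h2⟩ := mem_Rays.1 hu
    exact ⟨by rw [h1, h2, ord_vec hΦ hp ht],
      ((hΦ.2 (xs u)).choose_spec.2 p ⟨hp, t, ht, h2⟩).symm⟩
  · rintro ⟨h1, rfl⟩
    obtain ⟨t, ht, h2⟩ := (hΦ.2 (xs u)).choose_spec.1.2
    exact mem_Rays.2 ⟨t, ht, by rw [h1, ← ord_vec hΦ hp ht]; exact congrArg _ h2, h2⟩

/-- The part of the graph of the order over the cones with a given property. -/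
def GG (hΦ : IsFan g Φ) (c : Cone N → Prop) : Set (Option (Fin N) → ℕ) :=
  {u | u none = ord g (xs u) ∧ c (cn hΦ u)}

lemma GG_fib (hΦ : IsFan g Φ) {c : Cone N → Prop} (hp : p ∈ Φ) (hc : c p) :
    GG hΦ c ∩ {u | cn hΦ u = p} = YY g p := by
  ext u
  rw [mem_YY hΦ hp]
  exact ⟨fun h => ⟨h.1.1, h.2⟩, fun h => ⟨⟨h.1, h.2 ▸ hc⟩, h.2⟩⟩

lemma mem_GG (hΦ : IsFan g Φ) (h : u none = ord g (xs u)) : 0 < u none ↔ Lev g (cn hΦ u) :=
  pos_YY ((mem_YY hΦ (cn_mem hΦ)).2 ⟨h, rfl⟩)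

lemma tend_GG (hΦ : IsFan g Φ) (c : Cone N → Prop) [DecidablePred c] {s : ℕ} (hs : 1 ≤ s) :
    Tendsto (fun r => (1 - r) ^ N * SS (GG hΦ c) s r) (𝓝[<] 1)
      (𝓝 (∑ p ∈ Φ.filter c, if p.2 = univ then PP g p s else 0)) := by
  have h1 : ∀ p ∈ Φ.filter c, Tendsto (fun r => (1 - r) ^ N * SS (YY g p) s r) (𝓝[<] 1)
      (𝓝 (if p.2 = univ then PP g p s else 0)) := fun p hp => by
    have h2 := tend_Rays (fun l => ord g (p.1 l)) (hΦ.1 p (mem_filter.1 hp).1).1 p.2 hs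
    split_ifs with h
    · have h3 : #p.2 = N := by rw [h, card_univ, Fintype.card_fin]
      rwa [h3] at h2
    · have h3 : #p.2 < N := by simpa using card_lt_card (ssubset_univ_iff.2 h)
      have h4 := (tend_one_sub (m := N - #p.2) (by omega)).mul h2
      rw [zero_mul] at h4
      refine h4.congr fun r => ?_
      rw [← mul_assoc, ← pow_add, Nat.sub_add_cancel h3.le]
      rfl
  refine (tendsto_finsetSum _ h1).congr' (ev_unit.mono fun r hr => ?_)
  dsimp only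
  rw [SS_fiber hs hr.1 hr.2 (cn hΦ) (Φ.filter c) fun u hu => mem_filter.2 ⟨cn_mem hΦ, hu.2⟩,
    mul_sum]
  exact sum_congr rfl fun p hp => by rw [GG_fib hΦ (mem_filter.1 hp).1 (mem_filter.1 hp).2]

/-- The points strictly below the graph. -/
def ZZ (g : MvPolynomial (Fin N) ℂ) : Set (Option (Fin N) → ℕ) :=
  {u | 0 < u none ∧ u none < ord g (xs u)}

lemma KK_eq (hΦ : IsFan g Φ) : KK (ex g) = ZZ g ∪ GG hΦ (Lev g) := by
  ext u
  rw [mem_KK hΦ]
  refine ⟨fun h => h.2.lt_or_eq.imp (fun h' => ⟨h.1, h'⟩) fun h' => ⟨h', (mem_GG hΦ h').1 h.1⟩, ?_⟩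
  rintro (h | h)
  · exact ⟨h.1, h.2.le⟩
  · exact ⟨(mem_GG hΦ h.1).2 h.2, h.1.le⟩

lemma disj (hΦ : IsFan g Φ) (c : Cone N → Prop) : Disjoint (ZZ g) (GG hΦ c) :=
  Set.disjoint_left.2 fun _ h h' => h.2.ne h'.1

lemma SS_ZZ (hΦ : IsFan g Φ) {s : ℕ} (hs : 1 ≤ s) {r : ℝ} (h0 : 0 < r) (h1 : r < 1) :
    (1 - r ^ s) * SS (ZZ g) s r = r ^ s * SS {u : Option (Fin N) → ℕ | u none = 0} s r -
      r ^ s * SS (GG hΦ fun p => ¬Lev g p) s r - SS (GG hΦ (Lev g)) s r := by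
  have e1 : KK (ex g) = (· + Pi.single none 1) ''
      (ZZ g ∪ {u : Option (Fin N) → ℕ | u none = 0 ∧ 0 < ord g (xs u)}) := by
    have hx : ∀ v : Option (Fin N) → ℕ, xs (v + Pi.single none 1) = xs v := fun v =>
      funext fun k => by simp [xs]
    ext u
    rw [mem_KK hΦ]
    constructor
    · intro h
      have h2 : u - Pi.single none 1 + Pi.single none 1 = u := funext fun o => by
        rcases o with _ | k
        · simp only [Pi.add_apply, Pi.sub_apply, Pi.single_eq_same]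
          omega
        · simp
      refine ⟨u - Pi.single none 1, ?_, h2⟩
      have h3 := hx (u - Pi.single none 1)
      rw [h2] at h3
      simp only [ZZ, Set.mem_union, Set.mem_ofPred_eq, ← h3, Pi.sub_apply, Pi.single_eq_same]
      omega
    · rintro ⟨v, hv, rfl⟩
      simp only [ZZ, Set.mem_union, Set.mem_ofPred_eq] at hv
      simp only [hx, Pi.add_apply, Pi.single_eq_same]
      omega
  have e2 : {u : Option (Fin N) → ℕ | u none = 0} =
      {u : Option (Fin N) → ℕ | u none = 0 ∧ 0 < ord g (xs u)} ∪ GG hΦ fun p => ¬Lev g p := by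
    ext u
    constructor
    · intro h
      have h2 : u none = 0 := h
      rcases Nat.eq_zero_or_pos (ord g (xs u)) with h3 | h3
      · exact Or.inr ⟨h2.trans h3.symm, fun h4 =>
          ((mem_GG hΦ (h2.trans h3.symm)).2 h4).ne' h2⟩
      · exact Or.inl ⟨h2, h3⟩
    · rintro (h | h)
      · exact h.1
      · exact Nat.eq_zero_of_not_pos fun h2 => h.2 ((mem_GG hΦ h.1).1 h2)
  have e3 := congrArg (fun Y => SS Y s r) ((KK_eq hΦ).symm.trans e1)
  have e4 : ell s (Pi.single none 1 : Option (Fin N) → ℕ) = s := by simp [ell]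
  have d1 : Disjoint (ZZ g) {u : Option (Fin N) → ℕ | u none = 0 ∧ 0 < ord g (xs u)} :=
    Set.disjoint_left.2 fun _ h h' => h.1.ne' h'.1
  have d2 : Disjoint {u : Option (Fin N) → ℕ | u none = 0 ∧ 0 < ord g (xs u)}
      (GG hΦ fun p => ¬Lev g p) :=
    Set.disjoint_left.2 fun _ h h' => h.2.ne (h.1.symm.trans h'.1)
  simp only [SS_shift, SS_union hs h0 h1 (disj hΦ _), SS_union hs h0 h1 d1, e4] at e3
  rw [e2, SS_union hs h0 h1 d2]
  linear_combination e3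

lemma tend_ZZ (hΦ : IsFan g Φ) {s : ℕ} (hs : 1 ≤ s) :
    Tendsto (fun r => s * NS ⊤ (ZZ g) s r) (𝓝[<] 1)
      (𝓝 (1 - ∑ p ∈ Φ, if p.2 = univ then PP g p s else 0)) := by
  classical
  have h0 : (s : ℝ) ≠ 0 := Nat.cast_ne_zero.2 (by omega)
  have h1 := ((tend_geo (m := s) (by omega)).const_mul (s : ℝ)).mul
    ((((tend_pow s).mul (tend_H (N := N) hs)).sub
      ((tend_pow s).mul (tend_GG hΦ (fun p => ¬Lev g p) hs))).sub (tend_GG hΦ (Lev g) hs))
  rw [mul_one_div_cancel h0, one_mul, one_mul, one_mul, sub_sub, add_comm,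
    sum_filter_add_sum_filter_not] at h1
  refine h1.congr' (ev_unit.mono fun r hr => ?_)
  have h2 : 1 - r ^ s ≠ 0 := (sub_pos.2 (pow_lt_one₀ hr.1.le hr.2 (by omega))).ne'
  have h3 := SS_ZZ hΦ hs hr.1 hr.2
  dsimp only
  rw [NS, finrank_top, Module.finrank_fintype_fun_eq_card, Fintype.card_option, Fintype.card_fin,
    eq_div_of_mul_eq h2 ((mul_comm _ _).trans h3)]
  ring

end FanTAux

open FanTAux in
theorem fanT (hC : ConeStmt) (hA : ApproxStmt) (_ : BddStmt) : FanTStmt := by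
  classical
  intro χ hχ N g Ω hΩ hV Φ hΦ
  refine ⟨Polynomial.C (Ω (Lam ⊤) ∅ : ℝ) + Polynomial.X * Polynomial.C
    (∑ p ∈ Φ.filter fun p => ¬Lev g p,
      (χ _ (orbit p ∩ {y | strict g p.1 y ≠ 0}) : ℝ) * PP g p 0), fun s hs => ?_⟩
  have hc := fun p (hp : p ∈ Φ) => hC χ hχ N g Ω hΩ p (hΦ.1 p hp).1 (TC_ne hΦ hp)
  have h1 : ∀ p ∈ Φ.filter (Lev g), Tendsto (fun r => FF (ex g) Ω (YY g p) s r) (𝓝[<] 1)
      (𝓝 (-((χ _ (orbit p ∩ {y | strict g p.1 y ≠ 0}) : ℝ) * PP g p s))) := fun p hp => by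
    have hp' := (mem_filter.1 hp).1
    have h2 := (hA _ _ (ex g) Ω hV (YY g p) (TC g p) (LC g p) LC_le
      (fun u hu => ⟨Tu_YY hu, cq_YY hu⟩) s hs).add
      ((tend_Rays (fun l => ord g (p.1 l)) (hΦ.1 p hp').1 p.2 hs).const_mul
        (Ω (Lam (LC g p)) (TC g p) : ℝ))
    rw [zero_add, (hc p hp').1, Int.cast_neg, neg_mul] at h2
    refine h2.congr fun r => ?_
    simp only [NS, rank_LC hΦ hp', neg_mul]
    exact sub_add_cancel _ _
  have h2 := ((hA _ _ (ex g) Ω hV (ZZ g) ∅ ⊤ (fun e _ j hj => absurd hj (notMem_empty j))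
    (fun u hu => ⟨eq_empty_of_forall_notMem fun j hj => by
      have h3 := ord_le (xs u) j
      have h4 := hu.2
      rw [mem_Tu, sl_ex] at hj
      omega, trivial⟩) s hs).const_mul (s : ℝ)).add
    ((tend_ZZ hΦ hs).const_mul (Ω (Lam ⊤) ∅ : ℝ))
  have h3 := h2.add ((tendsto_finsetSum _ h1).const_mul (s : ℝ))
  have h4 : zetaR χ g Φ s = s * ∑ p ∈ Φ, (χ _ (orbit p ∩ {y | strict g p.1 y ≠ 0}) : ℝ) * PP g p s +
      (Ω (Lam ⊤) ∅ : ℝ) * ∑ p ∈ Φ, if p.2 = univ then PP g p s else 0 := by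
    rw [zetaR, mul_sum, mul_sum, ← sum_add_distrib]
    refine sum_congr rfl fun p hp => ?_
    have h5 := congrArg (Int.cast : ℤ → ℝ) (hc p hp).2
    rw [← PP]
    split_ifs at h5 ⊢
    · push_cast at h5
      rw [← h5]
      ring
    · push_cast at h5
      linear_combination PP g p s * h5
  have h5 : ∑ p ∈ Φ.filter fun p => ¬Lev g p,
      (χ _ (orbit p ∩ {y | strict g p.1 y ≠ 0}) : ℝ) * PP g p 0 =
      ∑ p ∈ Φ.filter fun p => ¬Lev g p,
        (χ _ (orbit p ∩ {y | strict g p.1 y ≠ 0}) : ℝ) * PP g p s := by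
    refine sum_congr rfl fun p hp => congrArg _ (prod_congr rfl fun l hl => ?_)
    rw [Nat.eq_zero_of_not_pos fun h => (mem_filter.1 hp).2 ⟨l, hl, h⟩]
    simp
  convert h3.congr' (ev_unit.mono fun r hr => ?_) using 2
  · rw [h4, h5, ← sum_filter_add_sum_filter_not Φ (Lev g), sum_neg_distrib]
    simp only [Polynomial.eval_add, Polynomial.eval_mul, Polynomial.eval_C, Polynomial.eval_X]
    ring
  · have h6 : FF (ex g) Ω (GG hΦ (Lev g)) s r = ∑ p ∈ Φ.filter (Lev g), FF (ex g) Ω (YY g p) s r := by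
      rw [FF_fiber hs hr.1 hr.2 (cn hΦ) (Φ.filter (Lev g))
        fun u hu => mem_filter.2 ⟨cn_mem hΦ, hu.2⟩]
      exact sum_congr rfl fun p hp => by rw [GG_fib hΦ (mem_filter.1 hp).1 (mem_filter.1 hp).2]
    dsimp only
    rw [KK_eq hΦ, FF_union hs hr.1 hr.2 (disj hΦ _), h6]
    ring

end Pool.Agent.MP_ee8c61_ag.H36
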