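import Pool.Agent.MP_ee8c61_ag.H36.ColT
import Pool.Agent.MP_5d9b3c_ag.H48N.Grid

/-!
The whole lattice sum has no pole: assembly of the boxes and the columns.
-/

namespace Pool.Agent.MP_ee8c61_ag.H36

open Finset Filter Topology Pool.Agent.MP_5d9b3c_ag.H22 Pool.Agent.MP_5d9b3c_ag.H48N

namespace GridTAux

variable {ι κ : Type} [Fintype ι] [LinearOrder ι] [Fintype κ] [DecidableEq κ]

omit [LinearOrder ι] [Fintype κ] [DecidableEq κ] in
/-- The slack, divided by the level. -/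
lemma sl_div (a : κ → ι →₀ ℕ) {u : Option ι → ℕ} (hu : 0 < u none) (j : κ) :
    ((sl a u j : ℤ) : ℚ) = u none * (∑ k, (u (some k) : ℚ) / u none * a j k - 1) := by
  have h0 : (u none : ℚ) ≠ 0 := by exact_mod_cast hu.ne'
  rw [sl_eq, mul_sub, mul_sum, mul_one]
  push_cast
  rw [sub_left_inj]
  exact sum_congr rfl fun k _ => by field_simp

omit [DecidableEq κ] in
/-- The points of a column that satisfy the constraints of the face. -/
lemma column {a : κ → ι →₀ ℕ} {c : κ → ℂ} {l : ℝ} {ν ρ : ℚ} {V : (ι → ℚ) → Finset ι}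
    {σ : (ι → ℚ) → ι → ℚ} (hs : Sel a c l ν ρ V σ) {C r : ℚ} (hC1 : 1 ≤ C)
    (hC : ∀ j, ∑ i, (a j i : ℚ) ≤ C) (hr : 0 ≤ r) (h2 : C * C * r ≤ ν) {x : ι → ℚ}
    (hx : InP a l x) {B : Finset ι} (hB : B ⊆ Fw (σ x)) (hl : Lin a (Tw a (σ x)) B) (y : ι → ℚ)
    (hy : ∀ k ∉ B, |y k - x k| ≤ r) (hT : ∀ j ∈ Tw a (σ x), 1 ≤ ∑ k, y k * a j k) :
    (∀ j ∉ Tw a (σ x), 1 < ∑ k, y k * a j k) ∧ ∀ i ∈ B, 0 < y i := by
  have hν := hs.nupos
  have hsub : tg a x ⊆ tg a (σ x) := fun j hj => hs.tight x hx j (by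
    rw [mem_Tt.1 hj]
    linarith)
  have hCr : r ≤ C * r := by nlinarith
  have hCr0 : 0 ≤ C * r := hr.trans hCr
  have hCr1 : C * r ≤ C * C * r := by nlinarith
  have hsum : ∀ (t : ℚ) (j : κ), ∑ k, (x k + t) * (a j k : ℚ) =
      x ⬝ᵥ Aq a j + t * ∑ i, (a j i : ℚ) := fun t j => by
    rw [dotProduct, mul_sum, ← sum_add_distrib]
    exact sum_congr rfl (fun i _ => by unfold Aq; ring)
  have hlow : ∀ i, x i - C * r ≤ y i := by
    intro i
    by_cases hi : i ∈ B
    · obtain ⟨j, hj, h0⟩ := hx.occ i (Fw_anti hx.1 hsub (hB hi))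
      have hjT := Tw_mono hsub hj
      have h5 : ∑ k, y k * (a j k : ℚ) ≤
          ∑ k, ((x k + r) * (a j k : ℚ) + if k = i then y i - x i - r else 0) := by
        refine sum_le_sum (fun k _ => ?_)
        by_cases hk : k = i
        · rw [if_pos hk, hk, hl.eq_one hjT hi h0]
          push_cast
          linarith
        · rw [if_neg hk, add_zero]
          by_cases hkB : k ∈ B
          · simp [hl.eq_zero hjT hi hkB hk h0]
          · refine mul_le_mul_of_nonneg_right ?_ (Nat.cast_nonneg _)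
            linarith [(abs_le.1 (hy k hkB)).2]
      rw [sum_add_distrib, hsum, mem_Tw.1 hj, sum_ite_eq' univ i, if_pos (mem_univ _)] at h5
      have h6 := mul_le_mul_of_nonneg_left (hC j) hr
      have h7 := hT j hjT
      linarith
    · linarith [(abs_le.1 (hy i hi)).1]
  refine ⟨fun j hj => ?_, fun i hi => ?_⟩
  · have h3 : 1 + ν < x ⬝ᵥ Aq a j := by
      by_contra h4
      exact hj (inl_mem_tg.1 (hs.tight x hx (Sum.inl j) (by simpa [vG, bG] using not_lt.1 h4)))
    have h4 : ∑ k, (x k + -(C * r)) * (a j k : ℚ) ≤ ∑ k, y k * (a j k : ℚ) :=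
      sum_le_sum fun k _ => mul_le_mul_of_nonneg_right (by linarith [hlow k]) (Nat.cast_nonneg _)
    rw [hsum] at h4
    have h6 := mul_le_mul_of_nonneg_left (hC j) hCr0
    linarith
  · have h3 : ν < x i := by
      by_contra h4
      have h5 := inr_mem_tg.1 (hs.tight x hx (Sum.inr i) (by simpa [vG, bG] using not_lt.1 h4))
      exact (mem_Fw.1 (hB hi)).ne' h5
    linarith [hlow i]

omit [LinearOrder ι] [DecidableEq κ] in
lemma FF_empty (a : κ → ι →₀ ℕ) (Ω : Submodule ℤ (Option ι → ℤ) → Finset κ → ℤ) (s : ℕ) (r : ℝ) :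
    FF a Ω ∅ s r = 0 := by
  simp [FF, NS]

end GridTAux

/-- The whole sum has no pole, given a selection of blocks. -/
def GridT2Stmt : Prop :=
  ∀ (ι κ : Type) [Fintype ι] [LinearOrder ι] [Fintype κ] [DecidableEq κ] (a : κ → ι →₀ ℕ)
    (c : κ → ℂ) Ω, Van a Ω → ColZero a c Ω → ∀ l : ℝ, (∀ w, InG a w → TND a c (Tw a w) (Fw w)) →
    (∃ ν ρ V σ, Sel a c l ν ρ V σ) → Reg l (FF a Ω (KK a))

open GridAux GridTAux in
theorem gridT2 (hCols : ColsStmt) (hGeo : GeoStmt) (hBox : BoxTStmt) (hCol : ColT2Stmt) :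
    GridT2Stmt := by
  classical
  intro ι κ _ _ _ _ a c Ω hV hZ l hN ⟨ν, ρ, V, σ, hs⟩
  have hν := hs.nupos
  obtain ⟨C, hC1, hC⟩ : ∃ C : ℚ, 1 ≤ C ∧ ∀ j, ∑ i, (a j i : ℚ) ≤ C := by
    have h0 : ∀ j, (0 : ℚ) ≤ ∑ i, (a j i : ℚ) := fun j => sum_nonneg (fun _ _ => Nat.cast_nonneg _)
    refine ⟨1 + ∑ j, ∑ i, (a j i : ℚ), le_add_of_nonneg_right (sum_nonneg (fun j _ => h0 j)),
      fun j => ?_⟩
    have := single_le_sum (f := fun j => ∑ i, (a j i : ℚ)) (fun j _ => h0 j) (mem_univ j)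
    linarith
  obtain ⟨r0, hr, hr1⟩ : ∃ r : ℚ, 0 < r ∧ C * C * r = ν :=
    ⟨ν / (C * C), by positivity, by field_simp⟩
  obtain ⟨h, hh, hU⟩ := hCols ι κ a c l ν ρ V σ hs r0 hr
  obtain ⟨J, hJ⟩ : ∃ J : ℕ, l < J * h := by
    have h0 : (0 : ℝ) < h := by exact_mod_cast hh
    obtain ⟨J, hJ⟩ := exists_nat_gt (l / h)
    exact ⟨J, (div_lt_iff₀ h0).1 hJ⟩
  obtain ⟨o, ho, hg⟩ := hGeo ι κ a l h J hh
  obtain ⟨U, hU⟩ := hU o J ho hJ
  choose cell hcell using fun u : Option ι → ℕ => exists_cell h o J (u none) (fun k => u (some k))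
  have hce : ∀ idx, {u | cell u = idx} = {u | InCell h o idx (u none) (fun k => u (some k))} :=
    fun idx => Set.ext fun u => ⟨fun h1 => (show cell u = idx from h1) ▸ hcell u,
      fun h1 => funext fun k => cell_eq hh (hcell u) h1 rfl⟩
  have key : Reg l (fun s r => ∑ idx : ι → Fin (J + 2),
      (1 - ∑ B : Finset ι, if idx ∈ U B then (1 : ℝ) else 0) *
        FF a Ω (KK a ∩ {u | cell u = idx}) s r) := by
    refine Reg.sum _ (fun idx _ => ?_)
    by_cases h1 : ∃ x, InP a l x ∧ InBox h o idx x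
    · obtain ⟨B, h2, h3⟩ := hU.uniq idx h1
      rw [sum_eq_single B (fun B' _ hne => if_neg (fun h4 => hne (h3 B' h4)))
        (fun h => absurd (mem_univ _) h), if_pos h2]
      simpa using Lim0.zero.reg
    · rw [hce]
      exact (hBox ι κ a Ω l h o J hg idx h1).const_mul _
  have key2 : ∀ B, Lim0 (fun s r => ∑ idx : ι → Fin (J + 2),
      if idx ∈ U B then FF a Ω (KK a ∩ {u | cell u = idx}) s r else 0) := by
    intro B
    have h1 : ∀ i0 : ι → Fin (J + 2), Lim0 (FF a Ω (KK a ∩ {u | 0 < u none ∧ cell u ∈ U B ∧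
        (fun k => if k ∈ B then 0 else cell u k) = i0})) := by
      intro i0
      rcases Set.eq_empty_or_nonempty {u : Option ι → ℕ | 0 < u none ∧ cell u ∈ U B ∧
        (fun k => if k ∈ B then 0 else cell u k) = i0} with h2 | ⟨u0, h2, h3, h4⟩
      · rw [h2, Set.inter_empty]
        exact Lim0.zero.congr fun s r _ _ _ => (FF_empty a Ω s r).symm
      · obtain ⟨x, hx, hBx, hl, hv, hw⟩ := hU.wit B _ h3
        refine hCol ι κ a c Ω hV hZ _ _ B (σ x) _ (hN _ (hs.inP x hx).1) hBx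
          (fun k hk => not_lt.1 fun h => hk (mem_Fw.2 h)) hl hv (fun j hj => mem_Tw.1 hj) ?_ ?_
        · rintro u u' h5 h6 ⟨h7, h8, h9⟩
          have h10 : ∀ k ∉ B, cell u k = cell u' k := fun k hk =>
            cell_eq hh (hcell u) (h5 ▸ hcell u') (h6 k hk)
          refine ⟨h5 ▸ h7, hU.inv B _ _ h10 h8, h9 ▸ funext fun k => ?_⟩
          split_ifs with hk
          · rfl
          · exact (h10 k hk).symm
        · rintro u ⟨h7, -, h9⟩
          have hθ : (0 : ℚ) < u none := by exact_mod_cast h7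
          refine ⟨h7, fun h10 => ?_⟩
          have h11 : ∀ k ∉ B, |(u (some k) : ℚ) / u none - x k| ≤ r0 := by
            intro k hk
            have h12 := hw (fun k => if k ∈ B then (u0 (some k) : ℚ) / u0 none
              else (u (some k) : ℚ) / u none) (fun k => ?_) k hk
            · rwa [if_neg hk] at h12
            · by_cases h13 : k ∈ B
              · simp only [if_pos h13]
                exact inBox_of_cell h2 (hcell u0) k
              · have h14 := congrFun (h9.trans h4.symm) k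
                simp only [if_neg h13] at h14 ⊢
                rw [← h14]
                exact inBox_of_cell h7 (hcell u) k
          obtain ⟨h12, h13⟩ := column hs hC1 hC hr.le hr1.le hx hBx hl _ h11 (fun j hj => by
            have h14 : (0 : ℚ) ≤ ((sl a u j : ℤ) : ℚ) := by exact_mod_cast h10 j hj
            rw [sl_div a h7] at h14
            exact sub_nonneg.1 (nonneg_of_mul_nonneg_right h14 hθ))
          refine ⟨fun j hj => ?_, fun i hi => ?_⟩
          · have h14 : (0 : ℚ) < ((sl a u j : ℤ) : ℚ) := by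
              rw [sl_div a h7]
              exact mul_pos hθ (sub_pos.2 (h12 j hj))
            exact_mod_cast h14
          · have h14 := (div_pos_iff_of_pos_right hθ).1 (h13 i hi)
            exact_mod_cast h14
    refine (Lim0.sum univ fun i0 _ => h1 i0).congr fun s r hs h0 h2 => ?_
    have h3 := FF_fiber (a := a) (Ω := Ω) (Y := KK a ∩ {u | cell u ∈ U B}) hs h0 h2 cell univ
      (fun _ _ => mem_univ _)
    rw [FF_fiber hs h0 h2 (fun u => fun k => if k ∈ B then 0 else cell u k) univ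
      (fun _ _ => mem_univ _)] at h3
    refine (sum_congr rfl fun i0 _ => ?_).trans (h3.trans (sum_congr rfl fun idx _ => ?_))
    · refine congrArg (fun Y => FF a Ω Y s r) (Set.ext fun u => ?_)
      exact ⟨fun h4 => ⟨⟨h4.1, h4.2.2.1⟩, h4.2.2.2⟩, fun h4 => ⟨h4.1.1, h4.1.1.1, h4.1.2, h4.2⟩⟩
    · split_ifs with h4
      · refine congrArg (fun Y => FF a Ω Y s r) (Set.ext fun u => ?_)
        exact ⟨fun h5 => ⟨h5.1.1, h5.2⟩,
          fun h5 => ⟨⟨h5.1, show cell u ∈ U B from (show cell u = idx from h5.2) ▸ h4⟩, h5.2⟩⟩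
      · rw [← FF_empty a Ω s r]
        refine congrArg (fun Y => FF a Ω Y s r) (Set.eq_empty_of_forall_notMem fun u h5 => h4 ?_)
        exact (show cell u = idx from h5.2) ▸ h5.1.2
  refine (key.add (Lim0.sum univ fun B _ => key2 B).reg).congr fun s r hs h0 h1 => ?_
  rw [FF_fiber hs h0 h1 cell univ (fun _ _ => mem_univ _)]
  simp only [sub_mul, one_mul, sum_sub_distrib, sum_mul, ite_mul, zero_mul]
  rw [sum_comm, sub_add_cancel]

end Pool.Agent.MP_ee8c61_ag.H36
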