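import Pool.Agent.MP_ee8c61_ag.H36.Spec

/-!
From the values at the natural numbers to the poles.
-/

namespace Pool.Agent.MP_ee8c61_ag.H36

open Finset Polynomial

namespace PoleAux

/-- The rational function has only negative real poles and the given values at the naturals. -/
def Val (R : RatFunc ℂ) (F : ℕ → ℂ) : Prop :=
  ∃ P W : ℂ[X], R = algebraMap _ _ P / algebraMap _ _ W ∧
    (∀ z, W.eval z = 0 → ∃ l : ℝ, 0 < l ∧ z = -(l : ℂ)) ∧
    ∀ s : ℕ, P.eval (s : ℂ) = F s * W.eval (s : ℂ)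

lemma ne_of_roots {W : ℂ[X]} (h : ∀ z, W.eval z = 0 → ∃ l : ℝ, 0 < l ∧ z = -(l : ℂ)) :
    W ≠ 0 := by
  rintro rfl
  obtain ⟨l, hl, h0⟩ := h 0 (by simp)
  have : (l : ℂ) = 0 := by simpa using h0
  exact hl.ne' (by exact_mod_cast this)

lemma alg_ne {W : ℂ[X]} (h : W ≠ 0) : algebraMap ℂ[X] (RatFunc ℂ) W ≠ 0 :=
  RatFunc.algebraMap_ne_zero h

variable {R R' : RatFunc ℂ} {F F' : ℕ → ℂ}

lemma Val.poly (P : ℂ[X]) : Val (algebraMap _ _ P) (fun s => P.eval (s : ℂ)) :=
  ⟨P, 1, by simp, by simp, by simp⟩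

lemma Val.congr (h : Val R F) (h1 : R = R') (h2 : ∀ s, F s = F' s) : Val R' F' := by
  obtain rfl : F = F' := funext h2
  exact h1 ▸ h

lemma Val.add (h : Val R F) (h' : Val R' F') : Val (R + R') (fun s => F s + F' s) := by
  obtain ⟨P, W, rfl, h2, h3⟩ := h
  obtain ⟨P', W', rfl, h2', h3'⟩ := h'
  refine ⟨P * W' + W * P', W * W', ?_, fun z hz => ?_, fun s => ?_⟩
  · rw [div_add_div _ _ (alg_ne (ne_of_roots h2)) (alg_ne (ne_of_roots h2'))]
    simp only [map_add, map_mul]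
  · rw [eval_mul, mul_eq_zero] at hz
    exact hz.elim (h2 z) (h2' z)
  · simp only [eval_add, eval_mul, h3, h3']
    ring

lemma Val.mul (h : Val R F) (h' : Val R' F') : Val (R * R') (fun s => F s * F' s) := by
  obtain ⟨P, W, rfl, h2, h3⟩ := h
  obtain ⟨P', W', rfl, h2', h3'⟩ := h'
  refine ⟨P * P', W * W', ?_, fun z hz => ?_, fun s => ?_⟩
  · rw [div_mul_div_comm]
    simp only [map_mul]
  · rw [eval_mul, mul_eq_zero] at hz
    exact hz.elim (h2 z) (h2' z)
  · simp only [eval_mul, h3, h3']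
    ring

lemma Val.sum {α : Type} (S : Finset α) {R : α → RatFunc ℂ} {F : α → ℕ → ℂ}
    (h : ∀ a ∈ S, Val (R a) (F a)) : Val (∑ a ∈ S, R a) (fun s => ∑ a ∈ S, F a s) := by
  classical
  induction S using Finset.induction_on with
  | empty => exact (Val.poly 0).congr (by simp) (by simp)
  | insert a S ha ih =>
    exact ((h a (mem_insert_self _ _)).add (ih fun b hb => h b (mem_insert_of_mem hb))).congr
      (by rw [sum_insert ha]) (fun s => by rw [sum_insert ha])

lemma Val.prod {α : Type} (S : Finset α) {R : α → RatFunc ℂ} {F : α → ℕ → ℂ}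
    (h : ∀ a ∈ S, Val (R a) (F a)) : Val (∏ a ∈ S, R a) (fun s => ∏ a ∈ S, F a s) := by
  classical
  induction S using Finset.induction_on with
  | empty => exact (Val.poly 1).congr (by simp) (by simp)
  | insert a S ha ih =>
    exact ((h a (mem_insert_self _ _)).mul (ih fun b hb => h b (mem_insert_of_mem hb))).congr
      (by rw [prod_insert ha]) (fun s => by rw [prod_insert ha])

lemma Val.lin (n ν : ℕ) (hν : 0 < ν) :
    Val (1 / ((n : RatFunc ℂ) * RatFunc.X + (ν : RatFunc ℂ)))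
      (fun s => 1 / ((n : ℂ) * s + (ν : ℂ))) := by
  refine ⟨1, (n : ℂ[X]) * X + (ν : ℂ[X]), by simp, fun z hz => ?_, fun s => ?_⟩
  · have h1 : (n : ℂ) * z + ν = 0 := by simpa using hz
    have hν' : (ν : ℂ) ≠ 0 := by exact_mod_cast hν.ne'
    have hn : n ≠ 0 := by
      rintro rfl
      exact hν' (by simpa using h1)
    have hn' : (n : ℂ) ≠ 0 := by exact_mod_cast hn
    refine ⟨ν / n, by positivity, ?_⟩
    push_cast
    field_simp
    linear_combination h1
  · have h1 : (n : ℂ) * s + ν ≠ 0 := by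
      have : n * s + ν ≠ 0 := by omega
      exact_mod_cast this
    simp only [eval_one, eval_add, eval_mul, eval_natCast, eval_X]
    rw [one_div_mul_cancel h1]

lemma eval_re (D : ℝ[X]) (x : ℝ) :
    (D.map Complex.ofRealHom).eval (x : ℂ) = ((D.eval x : ℝ) : ℂ) := by
  rw [eval_map]
  exact eval₂_at_apply Complex.ofRealHom x

lemma Val.denom {G : ℕ → ℝ} (h : Val R fun s => (G s : ℂ)) (s₀ : ℂ)
    (H : ∀ l : ℝ, s₀ = -(l : ℂ) → ∃ C D : ℝ[X], D.eval (-l) ≠ 0 ∧
      ∀ s : ℕ, 1 ≤ s → D.eval (s : ℝ) * G s = C.eval (s : ℝ)) : R.denom.eval s₀ ≠ 0 := by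
  intro h0
  obtain ⟨P, W, hR, h2, h3⟩ := h
  have d1 : R.denom ∣ W := hR ▸ RatFunc.denom_div_dvd P W
  obtain ⟨l, -, hl⟩ := h2 s₀ (eval_eq_zero_of_dvd_of_eval_eq_zero d1 h0)
  obtain ⟨C, D, hD, hs⟩ := H l hl
  have hD' : (D.map Complex.ofRealHom).eval s₀ ≠ 0 := by
    rw [hl, ← Complex.ofReal_neg, eval_re]
    exact_mod_cast hD
  have hD0 : D.map Complex.ofRealHom ≠ 0 := fun e => hD' (by rw [e, eval_zero])
  have e : P * D.map Complex.ofRealHom = C.map Complex.ofRealHom * W := by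
    refine eq_of_infinite_eval_eq _ _ ?_
    refine Set.infinite_of_injective_forall_mem (f := fun s : ℕ => ((s + 1 : ℕ) : ℂ))
      (fun a b hab => ?_) fun s => ?_
    · have : a + 1 = b + 1 := Nat.cast_injective (R := ℂ) hab
      omega
    · have a1 := eval_re D ((s + 1 : ℕ) : ℝ)
      have a2 := eval_re C ((s + 1 : ℕ) : ℝ)
      rw [Complex.ofReal_natCast] at a1 a2
      show eval _ _ = eval _ _
      rw [eval_mul, eval_mul, a1, a2, h3, ← hs (s + 1) (by omega)]
      push_cast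
      ring
  have hR' : R = algebraMap _ _ (C.map Complex.ofRealHom) /
      algebraMap _ _ (D.map Complex.ofRealHom) := by
    rw [hR, div_eq_div_iff (alg_ne (ne_of_roots h2)) (alg_ne hD0), ← map_mul, ← map_mul, e]
  have d2 : R.denom ∣ D.map Complex.ofRealHom := hR' ▸ RatFunc.denom_div_dvd _ _
  exact hD' (eval_eq_zero_of_dvd_of_eval_eq_zero d2 h0)

lemma row_pos {N : ℕ} (M : Matrix (Fin N) (Fin N) ℕ)
    (h : IsUnit (M.map (Nat.cast : ℕ → ℤ)).det) (l : Fin N) : 0 < ∑ i, M l i := by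
  refine Nat.pos_of_ne_zero fun h0 => h.ne_zero ?_
  refine Matrix.det_eq_zero_of_row_eq_zero l fun i => ?_
  have := sum_eq_zero_iff.1 h0 i (mem_univ i)
  simp [this]

end PoleAux

open PoleAux in
theorem pole : PoleStmt := by
  intro χ N g Φ hΦ s₀ H
  refine Val.denom ?_ s₀ H
  have hX : (RatFunc.X + 1 : RatFunc ℂ) ≠ 0 := by
    have : (X + 1 : ℂ[X]) ≠ 0 := by simpa using X_add_C_ne_zero (1 : ℂ)
    simpa using alg_ne this
  refine (Val.sum Φ fun p hp => (Val.poly ((X + 1) *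
      ((χ _ (orbit p ∩ {y | strict g p.1 y ≠ 0}) : ℤ) : ℂ[X]) +
      ((χ _ (orbit p ∩ {y | strict g p.1 y = 0}) : ℤ) : ℂ[X]))).mul
      (Val.prod p.2 fun l _ => Val.lin (ord g (p.1 l)) (∑ i, p.1 l i)
        (row_pos p.1 (hΦ.1 p hp).1 l))).congr ?_ fun s => ?_
  · rw [zeta, mul_sum]
    refine sum_congr rfl fun p _ => ?_
    rw [← mul_assoc, mul_add, mul_div_cancel₀ _ hX]
    simp
  · rw [zetaR]
    push_cast
    simp

end Pool.Agent.MP_ee8c61_ag.H36
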