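import Pool.Agent.MP_ee8c61_ag.H36.BasicS

/-!
Rationality of the normalised sums over polyhedra, with control of the poles.
-/

namespace Pool.Agent.MP_ee8c61_ag.H36

open Finset Filter Topology Pool.Agent.MP_5d9b3c_ag.H22 Pool.Agent.MP_5d9b3c_ag.H48N

namespace RatTAux

variable {ι A : Type} [Fintype ι] [Fintype A] {l : ℝ}

/-- The normalised sum is regular. -/
def RG (l : ℝ) (n : ℕ) (Y : Set (Option ι → ℕ)) : Prop :=
  Reg l fun s r => (1 - r) ^ n * SS Y s r

theorem reg_pow (l : ℝ) (m : ℕ) : Reg l fun _ r => (1 - r) ^ m := by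
  by_cases hm : m = 0
  · exact Reg.of_tendsto (x := 1) fun _ _ => by simp [hm]
  · exact Reg.of_tendsto fun _ _ => tend_one_sub hm

theorem RG.mono {n m : ℕ} {Y : Set (Option ι → ℕ)} (h : RG l n Y) (hm : n ≤ m) : RG l m Y := by
  obtain ⟨k, rfl⟩ := Nat.exists_eq_add_of_le hm
  exact ((reg_pow l k).mul h).congr fun s r _ _ _ => by ring

theorem rg_fin (l : ℝ) (n : ℕ) {Y : Set (Option ι → ℕ)} (h : Y.Finite) : RG l n Y := by
  refine RG.mono (n := 0) ?_ (Nat.zero_le n)
  induction Y, h using Set.Finite.induction_on with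
  | empty => exact Lim0.zero.reg.congr fun s r _ _ _ => by simp
  | @insert u Y hu _ ih =>
    refine ((Reg.of_tendsto (l := l) (F := fun s r => r ^ ell s u) fun s _ =>
      tend_pow _).add ih).congr fun s r hs h0 h1 => ?_
    rw [Set.insert_eq, SS_union hs h0 h1 (Set.disjoint_singleton_left.2 hu), SS_single]
    ring

/-- The natural points of a face. -/
def YN (μ : A → Option ι → ℤ) (E : Finset A) (b : A → ℤ) : Set (Option ι → ℕ) :=
  {u | ∀ j, b j ≤ μ j ⬝ᵥ (fun o => (u o : ℤ)) ∧ (j ∈ E → μ j ⬝ᵥ (fun o => (u o : ℤ)) = b j)}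

variable [DecidableEq A]

theorem rg_raise (l : ℝ) (m : ℕ) (μ : A → Option ι → ℤ) (E : Finset A)
    (P : (A → ℤ) → Prop) (hP : ∀ b b', P b → (∀ j, b j ≤ b' j) → P b') (Q : A → Prop)
    (hQ : ∀ j, Q j → j ∉ E) (ih : ∀ j, Q j → ∀ b, P b → RG l m (YN μ (insert j E) b)) (n : ℕ) :
    ∀ (c : A → ℕ) (b : A → ℤ), ∑ j, c j = n → (∀ j, c j ≠ 0 → Q j) → P b →
      Reg l fun s r => (1 - r) ^ m *
        (SS (YN μ E b) s r - SS (YN μ E fun j => b j + c j) s r) := by
  induction n with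
  | zero =>
    intro c b hc _ _
    have h0 : ∀ j, c j = 0 := fun j => (sum_eq_zero_iff.1 hc) j (mem_univ j)
    simpa [h0] using Lim0.zero.reg
  | succ n ihn =>
    intro c b hc hE hb
    obtain ⟨j, -, hj⟩ : ∃ j ∈ univ, c j ≠ 0 := exists_ne_zero_of_sum_ne_zero (by omega)
    have hjE : j ∉ E := hQ j (hE j hj)
    set b' : A → ℤ := Function.update b j (b j + 1) with hb'
    set c' : A → ℕ := Function.update c j (c j - 1) with hc'
    have h1 : ∑ i, c' i = n := by
      rw [hc', sum_update_of_mem (mem_univ j)]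
      rw [← add_sum_erase _ _ (mem_univ j)] at hc
      rw [sdiff_singleton_eq_erase]
      omega
    have h2 : ∀ i, b i ≤ b' i := fun i => by
      by_cases e : i = j
      · simp [hb', e]
      · simp [hb', e]
    have h3 : (fun i => b' i + c' i) = fun i => b i + c i := by
      funext i
      by_cases e : i = j
      · simp only [hb', hc', e, Function.update_self]
        omega
      · simp [hb', hc', e]
    have h4 := ihn c' b' h1 (fun i hi => by
      by_cases e : i = j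
      · exact e ▸ hE j hj
      · exact hE i (by simpa [hc', e] using hi)) (hP b b' hb h2)
    rw [h3] at h4
    have h5 : YN μ E b = YN μ (insert j E) b ∪ YN μ E b' := by
      refine Set.ext fun u => ⟨fun hu => ?_, fun hu => ?_⟩
      · by_cases e : μ j ⬝ᵥ (fun o => (u o : ℤ)) = b j
        · refine Or.inl fun i => ⟨(hu i).1, fun hi => ?_⟩
          rcases mem_insert.1 hi with rfl | hi
          · exact e
          · exact (hu i).2 hi
        · refine Or.inr fun i => ?_
          by_cases e' : i = j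
          · subst e'
            have := (hu i).1
            refine ⟨?_, fun hi => absurd hi hjE⟩
            simp only [hb', Function.update_self]
            omega
          · simpa [hb', e'] using hu i
      · rcases hu with hu | hu
        · exact fun i => ⟨(hu i).1, fun hi => (hu i).2 (mem_insert_of_mem hi)⟩
        · refine fun i => ⟨(h2 i).trans (hu i).1, fun hi => ?_⟩
          have e : i ≠ j := fun e => hjE (e ▸ hi)
          simpa [hb', e] using (hu i).2 hi
    have h6 : Disjoint (YN μ (insert j E) b) (YN μ E b') := Set.disjoint_left.2 fun u hu hu' => by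
      have e1 := (hu j).2 (mem_insert_self _ _)
      have e2 := (hu' j).1
      simp only [hb', Function.update_self] at e2
      omega
    refine ((ih j (hE j hj) b hb).add h4).congr fun s r hs h0 h1 => ?_
    rw [h5, SS_union hs h0 h1 h6]
    ring

omit [DecidableEq A] in
theorem ex_dir' (l : ℝ) (μ : A → Option ι → ℤ)
    (H : ∀ e : Option ι → ℤ, e ≠ 0 → (∀ j, 0 ≤ μ j ⬝ᵥ e) → ∃ d : Option ι → ℤ,
      (∀ j, μ j ⬝ᵥ e = 0 → μ j ⬝ᵥ d = 0) ∧ ((∑ k, d (some k) : ℤ) : ℝ) ≠ l * d none)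
    (E : Finset A) (b : A → ℤ) (h : (YN μ E b).Infinite) :
    ∃ e : Option ι → ℤ, (∀ j, 0 ≤ μ j ⬝ᵥ e ∧ (j ∈ E → μ j ⬝ᵥ e = 0)) ∧
      ((∑ k, e (some k) : ℤ) : ℝ) ≠ l * e none := by
  have hi : Function.Injective fun (u : Option ι → ℕ) (o : Option ι) => (u o : ℤ) :=
    fun u v h => funext fun o => Nat.cast_injective (R := ℤ) (congrFun h o)
  obtain ⟨e₀, he₀, he⟩ := RatAux.ex_dir μ E b ((h.image hi.injOn).mono (by
    rintro _ ⟨u, hu, rfl⟩
    exact hu))
  by_cases hc : ((∑ k, e₀ (some k) : ℤ) : ℝ) = l * e₀ none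
  · obtain ⟨d, hd1, hd2⟩ := H e₀ he₀ fun j => (he j).1
    set K : ℤ := ∑ j, |μ j ⬝ᵥ d| with hK
    refine ⟨K • e₀ + d, fun j => ?_, fun h => hd2 ?_⟩
    · rw [dotProduct_add, dotProduct_smul, smul_eq_mul]
      have h1 : |μ j ⬝ᵥ d| ≤ K :=
        single_le_sum (f := fun j => |μ j ⬝ᵥ d|) (fun _ _ => abs_nonneg _) (mem_univ j)
      refine ⟨?_, fun hj => by rw [hd1 j ((he j).2 hj), (he j).2 hj]; simp⟩
      by_cases h0 : μ j ⬝ᵥ e₀ = 0
      · rw [hd1 j h0, h0]
        simp
      · have h2 : 1 ≤ μ j ⬝ᵥ e₀ := by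
          have := (he j).1
          omega
        have h3 := neg_abs_le (μ j ⬝ᵥ d)
        have h4 := abs_nonneg (μ j ⬝ᵥ d)
        nlinarith
    · simp only [Pi.add_apply, Pi.smul_apply, smul_eq_mul, sum_add_distrib, ← mul_sum] at h
      push_cast at h hc ⊢
      linear_combination h - K * hc
  · exact ⟨e₀, he, hc⟩

/-- The geometric factor of a direction off the level `l`. -/
theorem reg_geo (l : ℝ) (e : Option ι → ℕ) (he : ((∑ k, e (some k) : ℕ) : ℝ) ≠ l * e none) :
    Reg l fun s r => (1 - r) / (1 - r ^ ell s e) := by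
  have h0 : e ≠ 0 := fun h => he (by simp [h])
  have h1 : ∀ x : ℝ, (Polynomial.C (e none : ℝ) * Polynomial.X +
      Polynomial.C ((∑ k, e (some k) : ℕ) : ℝ)).eval x = x * e none + (∑ k, e (some k) : ℕ) :=
    fun x => by
      rw [Polynomial.eval_add, Polynomial.eval_mul, Polynomial.eval_C, Polynomial.eval_C,
        Polynomial.eval_X, mul_comm]
  refine ⟨1, Polynomial.C (e none : ℝ) * Polynomial.X + Polynomial.C ((∑ k, e (some k) : ℕ) : ℝ),
    ?_, fun s hs => ?_⟩
  · rw [h1]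
    exact fun h => he (by linear_combination h)
  · have h2 : (s : ℝ) * e none + (∑ k, e (some k) : ℕ) = (ell s e : ℕ) := by
      rw [ell]
      push_cast
      rfl
    rw [h1, h2, Polynomial.eval_one]
    exact ⟨Nat.cast_ne_zero.2 (ell_ne hs h0), tend_geo (ell_ne hs h0)⟩

theorem rg_YN (l : ℝ) (μ : A → Option ι → ℤ) (co : Option ι → A)
    (hco : ∀ o u, μ (co o) ⬝ᵥ u = u o)
    (H : ∀ e : Option ι → ℤ, e ≠ 0 → (∀ j, 0 ≤ μ j ⬝ᵥ e) → ∃ d : Option ι → ℤ,
      (∀ j, μ j ⬝ᵥ e = 0 → μ j ⬝ᵥ d = 0) ∧ ((∑ k, d (some k) : ℤ) : ℝ) ≠ l * d none) (n : ℕ) :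
    ∀ E : Finset A, #Eᶜ = n → ∀ b : A → ℤ, (∀ o, 0 ≤ b (co o)) →
      ∀ L : Submodule ℚ (Option ι → ℚ), (∀ e : Option ι → ℤ,
        (∀ j, 0 ≤ μ j ⬝ᵥ e ∧ (j ∈ E → μ j ⬝ᵥ e = 0)) → zq e ∈ L) →
      RG l (Module.finrank ℚ L) (YN μ E b) := by
  induction n using Nat.strong_induction_on with
  | _ n ih =>
  intro E hE b hb L hL
  by_cases hfin : (YN μ E b).Finite
  · exact rg_fin l _ hfin
  obtain ⟨e, he1, he2⟩ := ex_dir' l μ H E b hfin
  have hnn : ∀ o, 0 ≤ e o := fun o => by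
    rw [← hco o e]
    exact (he1 _).1
  lift e to Option ι → ℕ using hnn with en
  have he3 : ((∑ k, en (some k) : ℕ) : ℝ) ≠ l * en none := by simpa using he2
  have he0 : en ≠ 0 := fun h => he3 (by simp [h])
  set e : Option ι → ℤ := fun o => (en o : ℤ) with he
  have hcast : ∀ j (v : Option ι → ℤ), zq (μ j) ⬝ᵥ zq v = ((μ j ⬝ᵥ v : ℤ) : ℚ) :=
    fun j v => (RatAux.cast_dot _ _).symm
  have hlt : ∀ j, μ j ⬝ᵥ e ≠ 0 →
      Module.finrank ℚ (L ⊓ LinearMap.ker (dotProductBilin ℚ ℚ (zq (μ j))) :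
        Submodule ℚ (Option ι → ℚ)) < Module.finrank ℚ L := fun j hj =>
    Submodule.finrank_lt_finrank_of_lt (lt_of_le_of_ne inf_le_left fun h => hj (by
      have h1 := hL e he1
      rw [← h] at h1
      have h2 : zq (μ j) ⬝ᵥ zq e = 0 := h1.2
      rw [hcast] at h2
      exact_mod_cast h2))
  obtain ⟨m, hm⟩ : ∃ m, Module.finrank ℚ L = m + 1 := by
    obtain ⟨o, ho⟩ := Function.ne_iff.1 he0
    have := hlt (co o) (by
      rw [hco]
      simpa [he] using ho)
    exact ⟨Module.finrank ℚ L - 1, by omega⟩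
  have h1 := rg_raise l m μ E (fun b => ∀ o, 0 ≤ b (co o))
    (fun b b' h h' o => (h o).trans (h' _)) (fun j => μ j ⬝ᵥ e ≠ 0)
    (fun j hj hj' => hj ((he1 j).2 hj'))
    (fun j hj b hb => (ih _ (by
      rw [← hE]
      exact card_lt_card (compl_ssubset_compl.2 (ssubset_insert fun hj' =>
        hj ((he1 j).2 hj')))) _ rfl b hb
        (L ⊓ LinearMap.ker (dotProductBilin ℚ ℚ (zq (μ j)))) fun v hv =>
          ⟨hL v fun i => ⟨(hv i).1, fun hi => (hv i).2 (mem_insert_of_mem hi)⟩, by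
            change zq (μ j) ⬝ᵥ zq v = 0
            rw [hcast, (hv j).2 (mem_insert_self _ _), Int.cast_zero]⟩).mono (by
          have := hlt j hj
          omega))
    _ (fun j => (μ j ⬝ᵥ e).toNat) b rfl (fun j hj h => hj (by rw [h]; rfl)) hb
  have h2 : (YN μ E fun j => b j + ((μ j ⬝ᵥ e).toNat : ℤ)) = (· + en) '' YN μ E b := by
    have h3 : ∀ v : Option ι → ℕ, v + en ∈ (YN μ E fun j => b j + ((μ j ⬝ᵥ e).toNat : ℤ)) ↔
        v ∈ YN μ E b := fun v => by
      refine forall_congr' fun j => ?_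
      have h4 : (fun o => ((v + en) o : ℤ)) = (fun o => (v o : ℤ)) + e := funext fun o => by
        simp [he]
      have := (he1 j).1
      beta_reduce
      rw [h4, dotProduct_add, Int.toNat_of_nonneg this]
      constructor
      · rintro ⟨h2, h3⟩
        exact ⟨by omega, fun hj => by have := h3 hj; omega⟩
      · rintro ⟨h2, h3⟩
        exact ⟨by omega, fun hj => by have := h3 hj; omega⟩
    ext u
    refine ⟨fun hu => ?_, ?_⟩
    · have h4 : u - en + en = u := funext fun o => by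
        have h5 := (hu (co o)).1
        have h6 := hb o
        simp only [hco, he, Int.toNat_natCast] at h5
        simp only [Pi.add_apply, Pi.sub_apply]
        omega
      exact ⟨u - en, (h3 _).1 (h4.symm ▸ hu), h4⟩
    · rintro ⟨v, hv, rfl⟩
      exact (h3 v).2 hv
  refine ((reg_geo l en he3).mul h1).congr fun s r hs h0 h1 => ?_
  have h4 : 1 - r ^ ell s en ≠ 0 := (sub_pos.2 (pow_lt_one₀ h0.le h1 (ell_ne hs he0))).ne'
  rw [h2, SS_shift, hm]
  field_simp
  ring

end RatTAux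

open RatTAux in
theorem ratT : RatTStmt := by
  classical
  intro ι α _ _ l lam β st L hL H
  obtain ⟨M, hM, n, hn⟩ := clear_den (fun q : α × Option ι => lam q.1 q.2)
  have hM' : (0 : ℚ) < M := by exact_mod_cast hM
  set μ : α ⊕ Option ι → Option ι → ℤ :=
    Sum.elim (fun j o => n (j, o)) (fun o => Pi.single o 1) with hμ
  have hco : ∀ o u, μ (Sum.inr o) ⬝ᵥ u = u o := fun o u => by simp [hμ]
  have hl : ∀ j (u : Option ι → ℤ),
      ((μ (Sum.inl j) ⬝ᵥ u : ℤ) : ℚ) = M * (lam j ⬝ᵥ fun o => (u o : ℚ)) := by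
    intro j u
    rw [RatAux.cast_dot]
    simp only [hμ, Sum.elim_inl, hn, dotProduct, mul_sum, mul_assoc]
  have hp1 : ∀ e : Option ι → ℤ, (∀ j, 0 ≤ μ j ⬝ᵥ e) → ∀ o, (0 : ℚ) ≤ e o := fun e hpos o => by
    have := hpos (Sum.inr o)
    rw [hco] at this
    exact_mod_cast this
  have hp2 : ∀ e : Option ι → ℤ, (∀ j, 0 ≤ μ j ⬝ᵥ e) → ∀ j, 0 ≤ lam j ⬝ᵥ fun o => (e o : ℚ) :=
    fun e hpos j => by
      have h1 : (0 : ℚ) ≤ (μ (Sum.inl j) ⬝ᵥ e : ℤ) := by exact_mod_cast hpos (Sum.inl j)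
      rw [hl] at h1
      exact (mul_nonneg_iff_of_pos_left hM').1 h1
  set b : α ⊕ Option ι → ℤ :=
    Sum.elim (fun j => if st j then ⌊M * β j⌋ + 1 else ⌈M * β j⌉) (fun _ => 0) with hb
  have key := rg_YN l μ Sum.inr hco (fun e he hpos => by
    obtain ⟨d, hd1, hd2, hd3⟩ := H (fun o => (e o : ℚ))
      (fun h => he (funext fun o => by simpa using congrFun h o)) (hp1 e hpos) (hp2 e hpos)
    obtain ⟨N, hN, d', hd'⟩ := clear_den d
    have hN' : (0 : ℝ) < N := by exact_mod_cast hN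
    refine ⟨d', fun j hj => ?_, fun h => hd3 ?_⟩
    · cases j with
      | inl j =>
        have h1 : ((μ (Sum.inl j) ⬝ᵥ e : ℤ) : ℚ) = 0 := by rw [hj, Int.cast_zero]
        rw [hl] at h1
        have h2 := hd2 j ((mul_eq_zero.1 h1).resolve_left hM'.ne')
        have h3 : (fun o => (d' o : ℚ)) = (N : ℚ) • d := funext fun o => hd' o
        have h4 := hl j d'
        rw [h3, dotProduct_smul, h2, smul_zero, mul_zero] at h4
        exact_mod_cast h4
      | inr o =>
        rw [hco] at hj ⊢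
        have h1 := hd' o
        rw [hd1 o (by simp [hj]), mul_zero] at h1
        exact_mod_cast h1
    · have h1 : ∀ o, (d' o : ℝ) = N * (d o : ℝ) := fun o => by exact_mod_cast hd' o
      push_cast at h ⊢
      simp only [h1, ← mul_sum] at h
      apply mul_left_cancel₀ hN'.ne'
      linear_combination h) _ ∅ rfl b (fun o => le_refl _) L
    fun e he => hL _ (hp1 e fun j => (he j).1) (hp2 e fun j => (he j).1)
  have hY : YN μ ∅ b = {u | ∀ j, β j ≤ lam j ⬝ᵥ cq u ∧ (st j → β j < lam j ⬝ᵥ cq u)} := by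
    ext u
    simp only [YN, Set.mem_ofPred_eq, notMem_empty, false_imp_iff, and_true, Sum.forall]
    have h0 : ∀ o, b (Sum.inr o) ≤ μ (Sum.inr o) ⬝ᵥ fun o => (u o : ℤ) := fun o => by
      rw [hco]
      simp [hb]
    rw [and_iff_left h0]
    refine forall_congr' fun j => ?_
    have h1 := hl j fun o => (u o : ℤ)
    rw [show (fun o => (((u o : ℕ) : ℤ) : ℚ)) = cq u from funext fun o => by simp [cq]] at h1
    by_cases hs : st j
    · simp only [hb, Sum.elim_inl, hs, if_true, true_imp_iff, Int.add_one_le_iff, Int.floor_lt, h1]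
      rw [mul_lt_mul_iff_right₀ hM']
      exact ⟨fun h => ⟨h.le, h⟩, fun h => h.2⟩
    · simp only [hb, Sum.elim_inl, hs, if_false, false_imp_iff, and_true, Int.ceil_le, h1]
      rw [mul_le_mul_iff_right₀ hM']
  rw [← hY]
  exact key

end Pool.Agent.MP_ee8c61_ag.H36
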