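import Pool.Agent.MP_ee8c61_ag.H36.BasicE
import Pool.Agent.MP_ee8c61_ag.H36.BasicS

/-!
The weight vanishes if there is a torus action.
-/

namespace Pool.Agent.MP_ee8c61_ag.H36

open Finset Pool.Agent.MP_5d9b3c_ag.H22 Pool.Agent.MP_5d9b3c_ag.H48N

namespace VanAux

/-- Coordinates adapted to a nonzero functional. -/
lemma coords {Λ : Type} [AddCommGroup Λ] [Module.Free ℤ Λ] [Module.Finite ℤ Λ] (φ : Λ →ₗ[ℤ] ℤ)
    (hφ : φ ≠ 0) : ∃ (n : ℕ) (E : Λ →ₗ[ℤ] (Option (Fin n) → ℤ)), Function.Bijective E ∧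
      ∀ v, φ v = 0 → E v none = 0 := by
  obtain ⟨d, hd⟩ := (IsPrincipalIdealRing.principal (LinearMap.range φ)).principal
  have hd0 : d ≠ 0 := fun h => hφ (LinearMap.range_eq_bot.1 (by simp [hd, h]))
  obtain ⟨v1, hv1⟩ : d ∈ LinearMap.range φ := hd ▸ Submodule.mem_span_singleton_self d
  have h1 : ∀ v, ∃ z : ℤ, z * d = φ v := fun v =>
    Submodule.mem_span_singleton.1 (hd ▸ LinearMap.mem_range_self φ v)
  choose ψ hψ using h1
  let ψ' : Λ →ₗ[ℤ] ℤ := (AddMonoidHom.mk' ψ fun v w => mul_right_cancel₀ hd0 (by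
    rw [add_mul, hψ, hψ, hψ, map_add])).toIntLinearMap
  have h2 : ∀ v, φ (v - ψ' v • v1) = 0 := fun v => by
    rw [map_sub, map_smul, hv1, ← hψ v]
    exact sub_self _
  have h3 : ψ' v1 = 1 := mul_right_cancel₀ hd0 (by rw [one_mul]; exact (hψ v1).trans hv1)
  have h4 : ∀ v, φ v = 0 → ψ' v = 0 := fun v h =>
    (mul_eq_zero.1 ((hψ v).trans h)).resolve_right hd0
  let β := (Module.finBasis ℤ (LinearMap.ker φ)).equivFun
  let π : Λ →ₗ[ℤ] LinearMap.ker φ :=
    LinearMap.codRestrict _ (LinearMap.id - ψ'.smulRight v1) h2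
  refine ⟨_, LinearMap.pi fun o => o.elim ψ' fun k => LinearMap.proj k ∘ₗ β.toLinearMap ∘ₗ π,
    ⟨(injective_iff_map_eq_zero _).2 fun v hv => ?_, fun x => ?_⟩, h4⟩
  · have h5 : π v = 0 := β.injective (funext fun k => by simpa using congrFun hv (some k))
    have h6 : ψ' v = 0 := congrFun hv none
    simpa [π, h6] using congrArg Subtype.val h5
  · have h5 := h4 _ (β.symm fun k => x (some k)).2
    have h6 : ψ' (x none • v1 + (β.symm fun k => x (some k) : Λ)) = x none := by simp [h3, h5]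
    have h7 : π (x none • v1 + (β.symm fun k => x (some k) : Λ)) = β.symm fun k => x (some k) :=
      Subtype.ext (by simp [π, h3, h5])
    refine ⟨x none • v1 + (β.symm fun k => x (some k) : Λ), funext ?_⟩
    rintro (_ | k)
    · exact h6
    · change β (π _) k = _
      rw [h7, β.apply_symm_apply]

end VanAux

theorem van : VanStmt := by
  intro χ H ι κ _ _ a c Ω hΩ L T hL
  classical
  obtain ⟨e, he, he'⟩ := SetLike.exists_of_lt hL
  obtain ⟨v0, h0, h1⟩ := exists_Lam he'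
  obtain ⟨M, hM, n, hn⟩ := clear_den e
  have h2 : ∀ v : Option ι → ℤ, ((v ⬝ᵥ n : ℤ) : ℚ) = M * (zq v ⬝ᵥ e) := fun v => by
    rw [RatAux.cast_dot, show (fun o => (n o : ℚ)) = (M : ℚ) • e from funext hn, dotProduct_smul]
    rfl
  obtain ⟨m, E, hE, h3⟩ := VanAux.coords (Λ := Lam L)
    (((dotProductBilin ℤ ℤ).flip n) ∘ₗ (Lam L).subtype) fun h => by
      have h4 : v0 ⬝ᵥ n = 0 := LinearMap.congr_fun h ⟨v0, h0⟩
      have h5 := h2 v0
      rw [h4, Int.cast_zero] at h5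
      exact mul_ne_zero (Nat.cast_ne_zero.2 hM.ne') h1 h5.symm
  have h4 : ∀ j ∈ T, Ah a j ∈ Lam L := fun j hj x hx => hL.le hx j hj
  have h5 : ∀ ε, χ _ (XS c (fun j => if h : Ah a j ∈ Lam L then E ⟨_, h⟩ else 0) T ∅ ε) = 0 :=
    fun ε => H.torus' (Con.xs _ _ _ _ (by simp) ε) none (fun x hx => by simpa using hx.1 none)
      fun x hx z hz => ⟨fun k => by
        by_cases hk : k = none
        · simp [hk, hz]
        · simpa [hk] using hx.1 k, hx.2 ▸ sum_congr rfl fun j hj => by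
        have h6 : E ⟨_, h4 j hj⟩ none = 0 := h3 _ (by
          have := h2 (Ah a j)
          rw [he j hj, mul_zero] at this
          exact_mod_cast this)
        simp [Fintype.prod_option, h4 j hj, h6]⟩
  rw [hΩ (Lam L) T _ ∅ E (fun j => if h : Ah a j ∈ Lam L then E ⟨_, h⟩ else 0) hE.1
    (fun v => by simpa using hE.2 v) fun j hj => ⟨h4 j hj, by simp [h4 j hj]⟩, psi, h5, h5, sub_zero]

end Pool.Agent.MP_ee8c61_ag.H36
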