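import Pool.Agent.MP_5d9b3c_ag.H48N.LP
import Pool.Agent.MP_5d9b3c_ag.H48N.Stab
import Pool.Agent.MP_5d9b3c_ag.H48N.Cert
import Pool.Agent.MP_5d9b3c_ag.H48N.Lift
import Pool.Agent.MP_5d9b3c_ag.H48N.Hall
import Pool.Agent.MP_5d9b3c_ag.H48N.Free
import Pool.Agent.MP_5d9b3c_ag.H48N.Cols
import Pool.Agent.MP_5d9b3c_ag.H10N.Ami
import Pool.Agent.MP_5d9b3c_ag.H10N.CML
import Pool.Agent.MP_5d9b3c_ag.H10N.CMR
import Pool.Agent.MP_5d9b3c_ag.H10N.Coef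
import Pool.Agent.MP_5d9b3c_ag.H10N.Dside
import Pool.Agent.MP_5d9b3c_ag.H10N.Fan
import Pool.Agent.MP_5d9b3c_ag.H10N.Lead
import Pool.Agent.MP_5d9b3c_ag.H10N.NSR
import Pool.Agent.MP_5d9b3c_ag.H10N.Proj
import Pool.Agent.MP_5d9b3c_ag.H10N.Pside
import Pool.Agent.MP_5d9b3c_ag.H10N.RedZ
import Pool.Agent.MP_5d9b3c_ag.H10N.Shell
import Pool.Agent.MP_5d9b3c_ag.H10N.Slice
import Pool.Agent.MP_5d9b3c_ag.H10N.Tau
import Pool.Agent.MP_ee8c61_ag.H36.Om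
import Pool.Agent.MP_ee8c61_ag.H36.Van
import Pool.Agent.MP_ee8c61_ag.H36.ColZero
import Pool.Agent.MP_ee8c61_ag.H36.Cone
import Pool.Agent.MP_ee8c61_ag.H36.RatT
import Pool.Agent.MP_ee8c61_ag.H36.Bdd
import Pool.Agent.MP_ee8c61_ag.H36.Approx
import Pool.Agent.MP_ee8c61_ag.H36.BoxT
import Pool.Agent.MP_ee8c61_ag.H36.GridT
import Pool.Agent.MP_ee8c61_ag.H36.FanT
import Pool.Agent.MP_ee8c61_ag.H36.Pole
import Pool.Agent.MP_ee8c61_ag.H36.BS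

/-!
Assembly.
-/

namespace Pool.Agent.MP_ee8c61_ag.H36

open Finset Pool.Agent.MP_5d9b3c_ag Pool.Agent.MP_5d9b3c_ag.H48N

theorem gridT_all : GridT2Stmt := gridT2 cols (geo gen) (boxT ratT) (colT2 (approx bdd) bdd lift)

open H10N in
theorem dside_nd : DStmt2 :=
  have h : ShellStmt2 := shell2 (cml nsr (slice ami) (base (cmr nsr (facet lp) gen) redz)) gen
  dside2 lp (fan2 lp stab coef) (tau ami) (lead redz (whole h)) (link2 h) proj2

/-- The poles of the reduced zeta function are roots of the reduced `b`-function. -/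
theorem reduced {N : ℕ} {g : MvPolynomial (Fin N) ℂ}
    (H1 : ∀ w : Fin N → ℕ, SmoothInTorus (face (fun i => w i) g)) {b : Polynomial ℂ}
    (hb : BEq (ex g) (co g) ((Polynomial.X + 1) * b)) {χ : Chi} (hχ : IsEuler χ)
    {Φ : Finset (Cone N)} (hΦ : IsFan g Φ) {s₀ : ℂ}
    (hs : ((RatFunc.X + 1) * zeta χ g Φ).denom.eval s₀ = 0) : b.eval s₀ = 0 :=
  have hnd : H10N.NDQ (ex g) (co g) :=
    H10N.PsideAux.ndq Subtype.val_injective co_ne (by rw [sum_ex]; exact H1)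
  core om van colZero (fanT cone (approx bdd) bdd) pole (fun Ω hV hZ l hl =>
    gridT_all _ _ _ _ Ω hV hZ l hnd (H10N.sel2 stab clos lift _ _ _ _ l hnd fun w hw => by
      obtain ⟨τ, μ, hc⟩ := cert lp _ _ (ex g) _ _ hw.occ
      exact free lift (hall lift) _ _ _ _ _ _ τ μ (hnd w hw.1) hw.occ hc
        (dside_nd _ _ _ _ b l hnd hb hl w hw τ μ hc))) hχ hΦ hs

end Pool.Agent.MP_ee8c61_ag.H36
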