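import Pool.Agent.MP_ee8c61_ag.H36.Spec
import Pool.Agent.MP_5d9b3c_ag.H48N.Glob

/-!
The assembly of the steps.
-/

namespace Pool.Agent.MP_ee8c61_ag.H36

open Finset Filter Topology Pool.Agent.MP_5d9b3c_ag.H22 Pool.Agent.MP_5d9b3c_ag.H48N

variable {N : ℕ} {g : MvPolynomial (Fin N) ℂ}

lemma sum_ex (g : MvPolynomial (Fin N) ℂ) : ∑ j, MvPolynomial.monomial (ex g j) (co g j) = g :=
  (sum_coe_sort g.support fun a => MvPolynomial.monomial a (MvPolynomial.coeff a g)).trans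
    g.as_sum.symm

lemma co_ne (j : g.support) : co g j ≠ 0 := MvPolynomial.mem_support_iff.1 j.2

lemma ndp_of (H1 : ∀ w : Fin N → ℕ, SmoothInTorus (face (fun i => w i) g))
    (H3 : ∀ w : Fin N → ℕ, (∀ a ∈ g.support, 0 < weight (fun i => w i) a) → (∃ i, w i = 0) →
      ∀ w' : Fin N → ℤ, SmoothInTorus (face w' (face (fun i => w i) g))) : NDP (ex g) (co g) :=
  GlobAux.ndp Subtype.val_injective co_ne (by rw [sum_ex]; exact H1) (by rw [sum_ex]; exact H3)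

lemma ndp_all (H : ∀ w : Fin N → ℤ, SmoothInTorus (face w g)) : NDP (ex g) (co g) := by
  intro w hw
  refine TND.face (T := univ) (fun d m _ h2 h3 => ?_) (fun k hk => absurd (mem_univ k) hk)
    fun j _ => (inG_iff.1 hw).1 j
  obtain ⟨M, hM, n, hn⟩ := clear_den d
  have : Nond (fac n (∑ j, MvPolynomial.monomial (ex g j) (co g j))) := by
    rw [sum_ex]
    exact H n
  rw [GlobAux.fac_rat Subtype.val_injective co_ne hM hn h2 (fun j => mem_filter) h3] at this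
  exact this.nd

theorem core (hO : OmStmt) (hV : VanStmt) (hZ : ColZeroStmt) (hT : FanTStmt) (hP : PoleStmt)
    {b : Polynomial ℂ} (hG : ∀ Ω, Van (ex g) Ω → ColZero (ex g) (co g) Ω → ∀ l : ℝ,
      b.eval (-(l : ℂ)) ≠ 0 → Reg l (FF (ex g) Ω (KK (ex g))))
    {χ : Chi} (hχ : IsEuler χ) {Φ : Finset (Cone N)} (hΦ : IsFan g Φ) {s₀ : ℂ}
    (hs : ((RatFunc.X + 1) * zeta χ g Φ).denom.eval s₀ = 0) : b.eval s₀ = 0 := by
  by_contra h0
  refine hP χ N g Φ hΦ s₀ (fun l hl => ?_) hs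
  obtain ⟨Ω, hΩ⟩ := hO χ hχ _ _ (co g) (Ah (ex g))
  have hv := hV χ hχ _ _ _ _ Ω hΩ
  obtain ⟨Q, hQ⟩ := hT χ hχ N g Ω hΩ hv Φ hΦ
  obtain ⟨C, D, h1, h2⟩ := hG Ω hv (hZ χ hχ _ _ _ _ Ω hΩ) l (hl ▸ h0)
  refine ⟨D * Q - Polynomial.X * C, D, h1, fun s hs => ?_⟩
  have h3 := tendsto_nhds_unique (hQ s hs) ((h2 s hs).2.const_mul (s : ℝ))
  have h4 := (h2 s hs).1
  simp only [Polynomial.eval_sub, Polynomial.eval_mul, Polynomial.eval_X]
  rw [show zetaR χ g Φ s = Q.eval (s : ℝ) - s * (C.eval (s : ℝ) / D.eval (s : ℝ)) by linarith]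
  field_simp

end Pool.Agent.MP_ee8c61_ag.H36
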