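import Pool.Agent.MP_ee8c61_ag.H36.BasicE

/-!
The weight of a face does not depend on the coordinates of the torus.
-/

namespace Pool.Agent.MP_ee8c61_ag.H36

open Finset MvPolynomial

namespace OmAux

variable {Λ m m' κ : Type} [AddCommGroup Λ] [Fintype m] [Fintype m'] {A : Set m} {A' : Set m'}
  {E : Λ →ₗ[ℤ] (m → ℤ)} {E' : Λ →ₗ[ℤ] (m' → ℤ)}

/-- The character attached to a point of the orbit. -/
noncomputable def chr (E : Λ →ₗ[ℤ] (m → ℤ)) (y : m → ℂ) (v : Λ) : ℂ := ∏ k, y k ^ E v k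

lemma chr_ne (hE : ∀ v, ∀ k ∈ A, E v k = 0) {y : m → ℂ} (hy : ∀ k, y k = 0 ↔ k ∈ A) (v : Λ) :
    chr E y v ≠ 0 := prod_ne_zero_iff.2 fun k _ => by
  by_cases hk : k ∈ A
  · rw [hE v k hk, zpow_zero]
    exact one_ne_zero
  · exact zpow_ne_zero _ fun h => hk ((hy k).1 h)

lemma chr_add (hE : ∀ v, ∀ k ∈ A, E v k = 0) {y : m → ℂ} (hy : ∀ k, y k = 0 ↔ k ∈ A) (v w : Λ) :
    chr E y (v + w) = chr E y v * chr E y w := by
  rw [chr, chr, chr, ← prod_mul_distrib]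
  refine prod_congr rfl fun k _ => ?_
  by_cases hk : k ∈ A
  · simp only [hE _ k hk, zpow_zero, mul_one]
  · rw [map_add, Pi.add_apply, zpow_add₀ fun h => hk ((hy k).1 h)]

lemma chr_smul (y : m → ℂ) (z : ℤ) (v : Λ) : chr E y (z • v) = chr E y v ^ z := by
  rw [chr, chr, ← prod_zpow]
  exact prod_congr rfl fun k _ => by rw [map_smul, Pi.smul_apply, smul_eq_mul, mul_comm, zpow_mul]

lemma chr_sum (hE : ∀ v, ∀ k ∈ A, E v k = 0) {y : m → ℂ} (hy : ∀ k, y k = 0 ↔ k ∈ A) {α : Type}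
    (S : Finset α) (v : α → Λ) : chr E y (∑ i ∈ S, v i) = ∏ i ∈ S, chr E y (v i) := by
  classical
  induction S using Finset.induction_on with
  | empty => simp [chr]
  | insert i S hi ih => rw [sum_insert hi, prod_insert hi, chr_add hE hy, ih]

open Classical in
/-- The change of coordinates. -/
noncomputable def chg (E : Λ →ₗ[ℤ] (m → ℤ)) (A' : Set m') (v : m' → Λ) (y : m → ℂ) : m' → ℂ :=
  fun k => if k ∈ A' then 0 else chr E y (v k)

omit [Fintype m'] in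
lemma chg_orb (hE : ∀ v, ∀ k ∈ A, E v k = 0) (v : m' → Λ) {y : m → ℂ}
    (hy : ∀ k, y k = 0 ↔ k ∈ A) (k : m') : chg E A' v y k = 0 ↔ k ∈ A' := by
  by_cases hk : k ∈ A' <;> simp [chg, hk, chr_ne hE hy]

lemma chr_chg [DecidableEq m'] (hE : ∀ v, ∀ k ∈ A, E v k = 0) (hE' : ∀ v, ∀ k ∈ A', E' v k = 0)
    (hi : Function.Injective E') {v : m' → Λ} (hv : ∀ k ∉ A', E' (v k) = Pi.single k 1)
    {y : m → ℂ} (hy : ∀ k, y k = 0 ↔ k ∈ A) (w : Λ) : chr E' (chg E A' v y) w = chr E y w := by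
  have e : w = ∑ k, E' w k • v k := hi (by
    rw [map_sum]
    conv_lhs => rw [← univ_sum_single (E' w)]
    refine sum_congr rfl fun k _ => ?_
    by_cases hk : k ∈ A'
    · simp [hE' w k hk]
    · rw [map_smul, hv k hk, ← Pi.single_smul, smul_eq_mul, mul_one])
  conv_rhs => rw [e, chr_sum hE hy]
  refine prod_congr rfl fun k _ => ?_
  rw [chr_smul]
  by_cases hk : k ∈ A'
  · rw [hE' w k hk, zpow_zero, zpow_zero]
  · rw [chg, if_neg hk]

lemma chg_chg [DecidableEq m] [DecidableEq m'] (hE : ∀ v, ∀ k ∈ A, E v k = 0)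
    (hE' : ∀ v, ∀ k ∈ A', E' v k = 0) (hi : Function.Injective E') {v : m' → Λ}
    (hv : ∀ k ∉ A', E' (v k) = Pi.single k 1) {v' : m → Λ} (hv' : ∀ k ∉ A, E (v' k) = Pi.single k 1)
    {y : m → ℂ} (hy : ∀ k, y k = 0 ↔ k ∈ A) : chg E' A v' (chg E A' v y) = y := by
  funext k
  by_cases hk : k ∈ A
  · rw [chg, if_pos hk, (hy k).2 hk]
  · rw [chg, if_neg hk, chr_chg hE hE' hi hv hy, chr, hv' k hk,
      prod_eq_single k (fun l _ hl => by simp [hl]) (by simp)]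
    simp

omit [Fintype m] in
lemma ex_basis [DecidableEq m] (hr : ∀ v, v ∈ LinearMap.range E ↔ ∀ k ∈ A, v k = 0) :
    ∃ v : m → Λ, ∀ k ∉ A, E (v k) = Pi.single k 1 := by
  have : ∀ k, ∃ v : Λ, k ∉ A → E v = Pi.single k 1 := fun k => by
    by_cases hk : k ∈ A
    · exact ⟨0, fun h => absurd hk h⟩
    · obtain ⟨v, hv⟩ := (hr (Pi.single k 1)).2 fun l hl =>
        Pi.single_eq_of_ne (fun e : l = k => hk (e ▸ hl)) _
      exact ⟨v, fun _ => hv⟩
  choose v hv using this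
  exact ⟨v, hv⟩

/-- Two systems of coordinates give the same Euler characteristic. -/
lemma key {χ : Chi} (H : IsEuler χ) (c : κ → ℂ) (T : Finset κ) (hi : Function.Injective E)
    (hi' : Function.Injective E') (hr : ∀ v, v ∈ LinearMap.range E ↔ ∀ k ∈ A, v k = 0)
    (hr' : ∀ v, v ∈ LinearMap.range E' ↔ ∀ k ∈ A', v k = 0) {b : κ → m → ℤ} {b' : κ → m' → ℤ}
    (hb : ∀ j ∈ T, ∃ w, E w = b j ∧ E' w = b' j) (ε : ℂ) :
    χ m' (XS c b' T A' ε) = χ m (XS c b T A ε) := by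
  classical
  have hE : ∀ v, ∀ k ∈ A, E v k = 0 := fun v => (hr _).1 ⟨v, rfl⟩
  have hE' : ∀ v, ∀ k ∈ A', E' v k = 0 := fun v => (hr' _).1 ⟨v, rfl⟩
  obtain ⟨v, hv⟩ := ex_basis hr'
  obtain ⟨v', hv'⟩ := ex_basis hr
  refine H.bijRg (q := ∏ k with k ∉ A, MvPolynomial.X k) (Con.xs c b T A (fun j hj k hk => by
    obtain ⟨w, h1, _⟩ := hb j hj
    rw [← h1, hE w k hk]) ε) (fun x hx => ?_) (chg E A' v) (fun k => ?_)
    (Set.InvOn.bijOn (f' := chg E' A v')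
      ⟨fun y hy => chg_chg hE hE' hi' hv hv' hy.1, fun y hy => chg_chg hE' hE hi hv' hv hy.1⟩
      (fun y hy => ⟨chg_orb hE v hy.1, ?_⟩) (fun y hy => ⟨chg_orb hE' v' hy.1, ?_⟩))
  · rw [map_prod]
    exact prod_ne_zero_iff.2 fun k hk => by
      rw [eval_X]
      exact fun e => (mem_filter.1 hk).2 ((hx.1 k).1 e)
  · by_cases hk : k ∈ A'
    · simpa only [chg, if_pos hk] using Rg.const 0
    · simp only [chg, if_neg hk]
      exact Rg.prod Finset.univ fun l _ => Rg.zpow l _ fun h' => dvd_prod_of_mem _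
        (mem_filter.2 ⟨mem_univ _, fun hl => h'.ne (hE _ l hl)⟩)
  · rw [← hy.2]
    refine sum_congr rfl fun j hj => ?_
    obtain ⟨w, h1, h2⟩ := hb j hj
    rw [← h1, ← h2]
    exact congrArg _ (chr_chg hE hE' hi' hv hy.1 w)
  · rw [← hy.2]
    refine sum_congr rfl fun j hj => ?_
    obtain ⟨w, h1, h2⟩ := hb j hj
    rw [← h1, ← h2]
    exact congrArg _ (chr_chg hE' hE hi hv' hy.1 w)

end OmAux

/-- The weight exists. -/
theorem om : OmStmt := by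
  classical
  intro χ H O κ _ c B
  let P : Submodule ℤ (O → ℤ) → Finset κ → ℤ → Prop := fun Λ T z =>
    ∃ (m : Type) (_ : Fintype m) (A : Set m) (E : Λ →ₗ[ℤ] (m → ℤ)) (b : κ → m → ℤ),
      Function.Injective E ∧ (∀ v, v ∈ LinearMap.range E ↔ ∀ k ∈ A, v k = 0) ∧
      (∀ j ∈ T, ∃ h : B j ∈ Λ, E ⟨B j, h⟩ = b j) ∧ z = psi χ c b T A
  refine ⟨fun Λ T => if h : ∃ z, P Λ T z then h.choose else 0, fun Λ T m _ A E b hi hr hb => ?_⟩
  have h : ∃ z, P Λ T z := ⟨_, m, inferInstance, A, E, b, hi, hr, hb, rfl⟩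
  obtain ⟨m', _, A', E', b', hi', hr', hb', e⟩ := h.choose_spec
  have hk := OmAux.key H c T hi hi' hr hr' (b := b) (b' := b') fun j hj => by
    obtain ⟨h1, h2⟩ := hb j hj
    obtain ⟨_, h3⟩ := hb' j hj
    exact ⟨_, h2, h3⟩
  simp only [dif_pos h]
  rw [e, psi, psi, hk, hk]

end Pool.Agent.MP_ee8c61_ag.H36
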