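import Pool.Agent.MP_ee8c61_ag.H36.Stmt
import Pool.Agent.MP_5d9b3c_ag.H48N.BasicP

/-!
The topological zeta function of a nondegenerate polynomial: definitions and the statements of the
steps.
-/

namespace Pool.Agent.MP_ee8c61_ag.H36

open Finset Filter Topology Pool.Agent.MP_5d9b3c_ag.H22 Pool.Agent.MP_5d9b3c_ag.H48N

/-- The type of Euler characteristics. -/
abbrev Chi : Type 1 := ∀ ι : Type, Set (ι → ℂ) → ℤ

/-! ### Lattice sums -/

section Sums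

variable {ι : Type} [Fintype ι]

/-- The exponent of a lattice point. -/
def ell (s : ℕ) (u : Option ι → ℕ) : ℕ := s * u none + ∑ k, u (some k)

/-- The lattice sum. -/
noncomputable def SS (Y : Set (Option ι → ℕ)) (s : ℕ) (r : ℝ) : ℝ :=
  ∑' u, Y.indicator (fun u => r ^ ell s u) u

/-- The lattice point as a rational vector. -/
def cq (u : Option ι → ℕ) : Option ι → ℚ := fun o => (u o : ℚ)

/-- The integer vector as a rational vector. -/
def zq (v : Option ι → ℤ) : Option ι → ℚ := fun o => (v o : ℚ)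

/-- The integer vectors orthogonal to a subspace. -/
def Lam (L : Submodule ℚ (Option ι → ℚ)) : Submodule ℤ (Option ι → ℤ) where
  carrier := {v | ∀ e ∈ L, zq v ⬝ᵥ e = 0}
  add_mem' := fun {v w} hv hw e he => by
    have : zq (v + w) = zq v + zq w := funext fun o => by simp [zq]
    rw [this, add_dotProduct, hv e he, hw e he, add_zero]
  zero_mem' := fun e _ => by simp [zq, dotProduct]
  smul_mem' := fun z v hv e he => by
    have : zq (z • v) = (z : ℚ) • zq v := funext fun o => by simp [zq]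
    rw [this, smul_dotProduct, hv e he, smul_zero]

/-- The normalised lattice sum. -/
noncomputable def NS (L : Submodule ℚ (Option ι → ℚ)) (Y : Set (Option ι → ℕ)) (s : ℕ) (r : ℝ) :
    ℝ := (1 - r) ^ Module.finrank ℚ L * SS Y s r

end Sums

/-- The family tends to zero. -/
def Lim0 (F : ℕ → ℝ → ℝ) : Prop := ∀ s, 1 ≤ s → Tendsto (F s) (𝓝[<] 1) (𝓝 0)

/-- The limit is a rational function of `s` without pole at `-l`. -/
def Reg (l : ℝ) (F : ℕ → ℝ → ℝ) : Prop :=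
  ∃ C D : Polynomial ℝ, D.eval (-l) ≠ 0 ∧ ∀ s : ℕ, 1 ≤ s → D.eval (s : ℝ) ≠ 0 ∧
    Tendsto (F s) (𝓝[<] 1) (𝓝 (C.eval (s : ℝ) / D.eval (s : ℝ)))

/-! ### Weights -/

section Weights

variable {m κ : Type} [Fintype m]

/-- A level set of a Laurent polynomial on a torus orbit. -/
def XS (c : κ → ℂ) (b : κ → m → ℤ) (T : Finset κ) (A : Set m) (ε : ℂ) : Set (m → ℂ) :=
  {y | (∀ k, y k = 0 ↔ k ∈ A) ∧ ∑ j ∈ T, c j * ∏ k, y k ^ b j k = ε}

/-- The exponential Euler characteristic. -/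
def psi (χ : Chi) (c : κ → ℂ) (b : κ → m → ℤ) (T : Finset κ) (A : Set m) : ℤ :=
  χ m (XS c b T A 0) - χ m (XS c b T A 1)

/-- `Ω Λ T` is the exponential Euler characteristic of the Laurent polynomial with exponents `B j`,
`j ∈ T`, on the torus with character lattice `Λ`. -/
def IsOm (χ : Chi) {O : Type} (c : κ → ℂ) (B : κ → O → ℤ)
    (Ω : Submodule ℤ (O → ℤ) → Finset κ → ℤ) : Prop :=
  ∀ (Λ : Submodule ℤ (O → ℤ)) (T : Finset κ) (m : Type) [Fintype m] (A : Set m)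
    (E : Λ →ₗ[ℤ] (m → ℤ)) (b : κ → m → ℤ), Function.Injective E →
    (∀ v, v ∈ LinearMap.range E ↔ ∀ k ∈ A, v k = 0) →
    (∀ j ∈ T, ∃ h : B j ∈ Λ, E ⟨B j, h⟩ = b j) → Ω Λ T = psi χ c b T A

end Weights

section Main

variable {ι κ : Type} [Fintype ι] [Fintype κ]

/-- The exponent vector, with the level coordinate. -/
def Ah (a : κ → ι →₀ ℕ) (j : κ) : Option ι → ℤ := fun o => o.elim (-1) (fun i => a j i)

/-- The slack of a monomial at a lattice point. -/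
def sl (a : κ → ι →₀ ℕ) (u : Option ι → ℕ) (j : κ) : ℤ := Ah a j ⬝ᵥ fun o => (u o : ℤ)

/-- The tight monomials. -/
def Tu (a : κ → ι →₀ ℕ) (u : Option ι → ℕ) : Finset κ := univ.filter (fun j => sl a u j = 0)

/-- The subspace on which the monomials of `T` are tight. -/
def LT (a : κ → ι →₀ ℕ) (T : Finset κ) : Submodule ℚ (Option ι → ℚ) where
  carrier := {e | ∀ j ∈ T, zq (Ah a j) ⬝ᵥ e = 0}
  add_mem' := fun {v w} hv hw j hj => by rw [dotProduct_add, hv j hj, hw j hj, add_zero]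
  zero_mem' := fun j _ => dotProduct_zero _
  smul_mem' := fun z v hv j hj => by rw [dotProduct_smul, hv j hj, smul_zero]

/-- The lattice points of positive level in the dual cone. -/
def KK (a : κ → ι →₀ ℕ) : Set (Option ι → ℕ) := {u | 0 < u none ∧ ∀ j, 0 ≤ sl a u j}

/-- The weighted lattice sum. -/
noncomputable def FF (a : κ → ι →₀ ℕ) (Ω : Submodule ℤ (Option ι → ℤ) → Finset κ → ℤ)
    (Y : Set (Option ι → ℕ)) (s : ℕ) (r : ℝ) : ℝ :=
  ∑ T : Finset κ, (Ω (Lam (LT a T)) T : ℝ) * NS (LT a T) (Y ∩ {u | Tu a u = T}) s r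

/-- The weight vanishes when the subspace is not the whole space of the face. -/
def Van (a : κ → ι →₀ ℕ) (Ω : Submodule ℤ (Option ι → ℤ) → Finset κ → ℤ) : Prop :=
  ∀ (L : Submodule ℚ (Option ι → ℚ)) (T : Finset κ), L < LT a T → Ω (Lam L) T = 0

/-- The weights of the faces of a column add up to zero. -/
def ColZero [DecidableEq ι] (a : κ → ι →₀ ℕ) (c : κ → ℂ)
    (Ω : Submodule ℤ (Option ι → ℤ) → Finset κ → ℤ) : Prop :=
  ∀ (T : Finset κ) (B : Finset ι), Lin a T B → Occ a T B → ¬ Solv a c T B →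
    ∑ A ∈ B.powerset, Ω (Lam (LT a T ⊔ Submodule.span ℚ
      ((fun i => (Pi.single (some i) 1 : Option ι → ℚ)) '' (A : Set ι))))
      (T.filter (fun j => ∀ i ∈ A, a j i = 0)) = 0

end Main

/-- The real value of the zeta function times `s + 1`. -/
noncomputable def zetaR {N : ℕ} (χ : Chi) (g : MvPolynomial (Fin N) ℂ) (Φ : Finset (Cone N))
    (s : ℕ) : ℝ :=
  ∑ p ∈ Φ, (((s : ℝ) + 1) * (χ _ (orbit p ∩ {y | strict g p.1 y ≠ 0}) : ℝ) +
    (χ _ (orbit p ∩ {y | strict g p.1 y = 0}) : ℝ)) *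
    ∏ l ∈ p.2, 1 / ((ord g (p.1 l) : ℝ) * s + ((∑ i, p.1 l i : ℕ) : ℝ))

/-- The lifted rays of a chart. -/
noncomputable def ray {N : ℕ} (g : MvPolynomial (Fin N) ℂ) (M : Matrix (Fin N) (Fin N) ℕ)
    (l : Fin N) : Option (Fin N) → ℕ := fun o => o.elim (ord g (M l)) (M l)

/-- The span of the lifted rays of a cone. -/
noncomputable def LC {N : ℕ} (g : MvPolynomial (Fin N) ℂ) (p : Cone N) :
    Submodule ℚ (Option (Fin N) → ℚ) :=
  Submodule.span ℚ ((fun l => cq (ray g p.1 l)) '' (p.2 : Set (Fin N)))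

/-- The exponents of `g`. -/
abbrev ex {N : ℕ} (g : MvPolynomial (Fin N) ℂ) : g.support → Fin N →₀ ℕ := fun j => j.1

/-- The coefficients of `g`. -/
noncomputable abbrev co {N : ℕ} (g : MvPolynomial (Fin N) ℂ) : g.support → ℂ :=
  fun j => MvPolynomial.coeff j.1 g

/-- The monomials on the face dual to the cone. -/
noncomputable def TC {N : ℕ} (g : MvPolynomial (Fin N) ℂ) (p : Cone N) : Finset g.support :=
  univ.filter (fun j => ∀ l ∈ p.2, ∑ i, p.1 l i * j.1 i = ord g (p.1 l))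

/-! ### The steps -/

/-- The weight exists. -/
def OmStmt : Prop :=
  ∀ χ, IsEuler χ → ∀ (O κ : Type) [Fintype O] (c : κ → ℂ) (B : κ → O → ℤ), ∃ Ω, IsOm χ c B Ω

/-- The weight vanishes if there is a torus action. -/
def VanStmt : Prop :=
  ∀ χ, IsEuler χ → ∀ (ι κ : Type) [Fintype ι] [Fintype κ] (a : κ → ι →₀ ℕ) (c : κ → ℂ) Ω,
    IsOm χ c (Ah a) Ω → Van a Ω

/-- The weights of a column. -/
def ColZeroStmt : Prop :=
  ∀ χ, IsEuler χ → ∀ (ι κ : Type) [Fintype ι] [DecidableEq ι] [Fintype κ] (a : κ → ι →₀ ℕ)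
    (c : κ → ℂ) Ω, IsOm χ c (Ah a) Ω → ColZero a c Ω

/-- The weights of the cones of the fan. -/
def ConeStmt : Prop :=
  ∀ χ, IsEuler χ → ∀ (N : ℕ) (g : MvPolynomial (Fin N) ℂ) Ω, IsOm χ (co g) (Ah (ex g)) Ω →
    ∀ p : Cone N, IsUnit (p.1.map (Nat.cast : ℕ → ℤ)).det → (TC g p).Nonempty →
      Ω (Lam (LC g p)) (TC g p) = -χ _ (orbit p ∩ {y | strict g p.1 y ≠ 0}) ∧
      χ _ (orbit p ∩ {y | strict g p.1 y ≠ 0}) + χ _ (orbit p ∩ {y | strict g p.1 y = 0}) =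
        if p.2 = univ then Ω (Lam ⊤) ∅ else 0

/-- Rationality of the normalised sums over polyhedra, with control of the poles. -/
def RatTStmt : Prop :=
  ∀ (ι α : Type) [Fintype ι] [Fintype α] (l : ℝ) (lam : α → Option ι → ℚ) (β : α → ℚ)
    (st : α → Prop) (L : Submodule ℚ (Option ι → ℚ)),
    (∀ e : Option ι → ℚ, (∀ o, 0 ≤ e o) → (∀ j, 0 ≤ lam j ⬝ᵥ e) → e ∈ L) →
    (∀ e : Option ι → ℚ, e ≠ 0 → (∀ o, 0 ≤ e o) → (∀ j, 0 ≤ lam j ⬝ᵥ e) →
      ∃ d : Option ι → ℚ, (∀ o, e o = 0 → d o = 0) ∧ (∀ j, lam j ⬝ᵥ e = 0 → lam j ⬝ᵥ d = 0) ∧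
        ((∑ k, d (some k) : ℚ) : ℝ) ≠ l * d none) →
    Reg l (NS L {u | ∀ j, β j ≤ lam j ⬝ᵥ cq u ∧ (st j → β j < lam j ⬝ᵥ cq u)})

/-- The normalised sums are bounded. -/
def BddStmt : Prop :=
  ∀ (ι : Type) [Fintype ι] (L : Submodule ℚ (Option ι → ℚ)) (Y : Set (Option ι → ℕ)),
    (∀ u ∈ Y, cq u ∈ L) → ∀ G : ℕ → ℝ → ℝ, Lim0 G → Lim0 (fun s r => G s r * NS L Y s r)

/-- The weighted sum can be computed with any subspace. -/
def ApproxStmt : Prop :=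
  ∀ (ι κ : Type) [Fintype ι] [Fintype κ] (a : κ → ι →₀ ℕ) Ω, Van a Ω →
    ∀ (Y : Set (Option ι → ℕ)) (T : Finset κ) (L : Submodule ℚ (Option ι → ℚ)), L ≤ LT a T →
      (∀ u ∈ Y, Tu a u = T ∧ cq u ∈ L) →
      Lim0 (fun s r => FF a Ω Y s r - Ω (Lam L) T * NS L Y s r)

/-- The boxes that avoid the level `l` faces. -/
def BoxTStmt : Prop :=
  ∀ (ι κ : Type) [Fintype ι] [LinearOrder ι] [Fintype κ] [DecidableEq κ] (a : κ → ι →₀ ℕ) Ω
    (l : ℝ) (h : ℚ) (o : ι → ℚ) (J : ℕ), GenGrid a l h o J →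
    ∀ idx : ι → Fin (J + 2), (¬ ∃ x, InP a l x ∧ InBox h o idx x) →
    Reg l (FF a Ω (KK a ∩ {u | InCell h o idx (u none) (fun k => u (some k))}))

/-- The sum over a column tends to zero. -/
def ColTStmt : Prop :=
  ∀ (ι κ : Type) [Fintype ι] [LinearOrder ι] [Fintype κ] [DecidableEq κ] (a : κ → ι →₀ ℕ)
    (c : κ → ℂ) Ω, Van a Ω → ColZero a c Ω →
    ∀ (T : Finset κ) (B : Finset ι) (w : ι → ℚ) (R : Set (Option ι → ℕ)),
      TND a c T univ → Lin a T B → Occ a T B → ¬ Solv a c T B → (∀ j ∈ T, w ⬝ᵥ Aq a j = 1) →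
      (∀ u u', u none = u' none → (∀ k ∉ B, u (some k) = u' (some k)) → u ∈ R → u' ∈ R) →
      (∀ u ∈ R, 0 < u none ∧ ((∀ j ∈ T, 0 ≤ sl a u j) →
        (∀ j ∉ T, 0 < sl a u j) ∧ ∀ i ∈ B, 0 < u (some i))) →
      Lim0 (FF a Ω (KK a ∩ R))

/-- The whole sum has no pole. -/
def GridTStmt : Prop :=
  ∀ (ι κ : Type) [Fintype ι] [LinearOrder ι] [Fintype κ] [DecidableEq κ] (a : κ → ι →₀ ℕ)
    (c : κ → ℂ) Ω, Van a Ω → ColZero a c Ω → ∀ l : ℝ, NDP a c → Blk a c l →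
    Reg l (FF a Ω (KK a))

/-- The whole sum, computed on the fan. -/
def FanTStmt : Prop :=
  ∀ χ, IsEuler χ → ∀ (N : ℕ) (g : MvPolynomial (Fin N) ℂ) Ω, IsOm χ (co g) (Ah (ex g)) Ω →
    Van (ex g) Ω → ∀ Φ, IsFan g Φ → ∃ Q : Polynomial ℝ, ∀ s : ℕ, 1 ≤ s →
      Tendsto (fun r => s * FF (ex g) Ω (KK (ex g)) s r) (𝓝[<] 1) (𝓝 (Q.eval (s : ℝ) - zetaR χ g Φ s))

/-- From the values at the natural numbers to the poles. -/
def PoleStmt : Prop :=
  ∀ (χ : Chi) (N : ℕ) (g : MvPolynomial (Fin N) ℂ) (Φ : Finset (Cone N)), IsFan g Φ → ∀ s₀ : ℂ,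
    (∀ l : ℝ, s₀ = -(l : ℂ) → ∃ C D : Polynomial ℝ, D.eval (-l) ≠ 0 ∧
      ∀ s : ℕ, 1 ≤ s → D.eval (s : ℝ) * zetaR χ g Φ s = C.eval (s : ℝ)) →
    ((RatFunc.X + 1) * zeta χ g Φ).denom.eval s₀ ≠ 0

/-- The functional equation of the ideal gives that of the Cayley polynomial. -/
def BSStmt : Prop :=
  ∀ (r n : ℕ) (f : Fin r → MvPolynomial (Fin n) ℂ) (b : Polynomial ℂ), H10.IsBS f b →
    BEq (ex (cayley f)) (co (cayley f)) ((Polynomial.X + 1) * b)

/-- The functional equation of a principal ideal. -/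
def BS1Stmt : Prop :=
  ∀ (n : ℕ) (f : MvPolynomial (Fin n) ℂ) (b : Polynomial ℂ), H10.IsBS (fun _ : Unit => f) b →
    BEq (ex f) (co f) b

end Pool.Agent.MP_ee8c61_ag.H36
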