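import Pool.Agent.MP_ee8c61_ag.H10.Defs

/-!
Euler characteristics of constructible sets, and the topological zeta function of a polynomial
computed on a toric embedded resolution.
-/

namespace Pool.Agent.MP_ee8c61_ag.H36

open MvPolynomial

/-- Constructible subsets of affine space. -/
inductive Con {ι : Type} : Set (ι → ℂ) → Prop
  | zero (p : MvPolynomial ι ℂ) : Con {x | eval x p = 0}
  | compl {X : Set (ι → ℂ)} : Con X → Con Xᶜ
  | union {X Y : Set (ι → ℂ)} : Con X → Con Y → Con (X ∪ Y)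

/-- The properties of the Euler characteristic of constructible sets: it is additive, invariant
under injective polynomial maps, and unchanged by taking the product with a line. -/
structure IsEuler (χ : ∀ ι : Type, Set (ι → ℂ) → ℤ) : Prop where
  add : ∀ (ι : Type) [Finite ι] (X Y : Set (ι → ℂ)), Con X → Con Y → Disjoint X Y →
    χ ι (X ∪ Y) = χ ι X + χ ι Y
  bij : ∀ (ι κ : Type) [Finite ι] [Finite κ] (φ : κ → MvPolynomial ι ℂ) (X : Set (ι → ℂ)), Con X →
    X.InjOn (fun x k => eval x (φ k)) → χ κ ((fun x k => eval x (φ k)) '' X) = χ ι X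
  line : ∀ (ι : Type) [Finite ι] (X : Set (ι → ℂ)), Con X →
    χ (Option ι) {y | (fun i => y (some i)) ∈ X} = χ ι X

variable {N : ℕ}

/-- The `w`-weight of the exponent vector `a`. -/
def weight (w : Fin N → ℤ) (a : Fin N →₀ ℕ) : ℤ := ∑ i, w i * a i

/-- The face polynomial: the sum of the terms of `g` of least `w`-weight. -/
noncomputable def face (w : Fin N → ℤ) (g : MvPolynomial (Fin N) ℂ) : MvPolynomial (Fin N) ℂ :=
  ∑ a ∈ g.support with (∀ a' ∈ g.support, weight w a ≤ weight w a'), monomial a (coeff a g)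

/-- The zero set of `g` has no singular point in the torus. -/
def SmoothInTorus (g : MvPolynomial (Fin N) ℂ) : Prop :=
  ∀ x : Fin N → ℂ, (∀ i, x i ≠ 0) → eval x g = 0 → ∃ i, eval x (pderiv i g) ≠ 0

/-- The order of `g` along the toric divisor of the ray `ρ`. -/
noncomputable def ord (g : MvPolynomial (Fin N) ℂ) (ρ : Fin N → ℕ) : ℕ :=
  ⨅ a : g.support, ∑ i, ρ i * a.1 i

/-- A cone: a chart `x i = ∏ l, y l ^ M l i` and the set of rows of `M` that span the cone. -/
abbrev Cone (N : ℕ) : Type := Matrix (Fin N) (Fin N) ℕ × Finset (Fin N)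

/-- The cones are unimodular, the order of `g` is linear on each of them, and their relative
interiors partition the lattice points of the positive orthant. -/
def IsFan (g : MvPolynomial (Fin N) ℂ) (Φ : Finset (Cone N)) : Prop :=
  (∀ p ∈ Φ, IsUnit (p.1.map (Nat.cast : ℕ → ℤ)).det ∧
    ∃ a ∈ g.support, ∀ l ∈ p.2, ∑ i, p.1 l i * a i = ord g (p.1 l)) ∧
  ∀ w : Fin N → ℕ, ∃! p, p ∈ Φ ∧ ∃ t : Fin N → ℕ, (∀ l, 0 < t l ↔ l ∈ p.2) ∧ w = Matrix.vecMul t p.1

/-- The torus orbit of the cone, in its chart. -/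
def orbit (p : Cone N) : Set (Fin N → ℂ) := {y | ∀ l, y l = 0 ↔ l ∈ p.2}

/-- The equation of the strict transform of `g` in the chart `M`. -/
noncomputable def strict (g : MvPolynomial (Fin N) ℂ) (M : Matrix (Fin N) (Fin N) ℕ)
    (y : Fin N → ℂ) : ℂ :=
  ∑ a ∈ g.support, coeff a g * ∏ l, y l ^ (∑ i, M l i * a i - ord g (M l))

/-- The topological zeta function of `g`, from the strata of the toric resolution. -/
noncomputable def zeta (χ : ∀ ι : Type, Set (ι → ℂ) → ℤ) (g : MvPolynomial (Fin N) ℂ)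
    (Φ : Finset (Cone N)) : RatFunc ℂ :=
  ∑ p ∈ Φ, ((χ _ (orbit p ∩ {y | strict g p.1 y ≠ 0}) : RatFunc ℂ) +
    (χ _ (orbit p ∩ {y | strict g p.1 y = 0}) : RatFunc ℂ) / (RatFunc.X + 1)) *
    ∏ l ∈ p.2, 1 / ((ord g (p.1 l) : RatFunc ℂ) * RatFunc.X + ((∑ i, p.1 l i : ℕ) : RatFunc ℂ))

/-- The polynomial `∑ y j * f j`. -/
noncomputable def cayley {r n : ℕ} (f : Fin r → MvPolynomial (Fin n) ℂ) :
    MvPolynomial (Fin (r + n)) ℂ :=
  ∑ j, X (Fin.castAdd n j) * rename (Fin.natAdd r) (f j)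

end Pool.Agent.MP_ee8c61_ag.H36
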